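import Mathlib

/-!
# Round trips in mixed graphs: basic definitions (theory level)
-/

namespace Pool.Agent.RTO

open PowerSeries

/-- A mixed multigraph on the vertex type `V`: arcs indexed by `A`, undirected edges indexed by
`E`; natural number lengths. -/
structure MGr (V A E : Type) where
  /-- start of an arc -/
  src : A → V
  /-- end of an arc -/
  tgt : A → V
  /-- length of an arc -/
  la : A → ℕ
  /-- first end of an undirected edge -/
  p : E → V
  /-- second end of an undirected edge -/
  q : E → V
  /-- length of an undirected edge -/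
  le : E → ℕ

/-- darts: an arc, or an undirected edge with a direction (`true`: from `p` to `q`) -/
abbrev Dart (A E : Type) : Type := A ⊕ (E × Bool)

variable {V A E : Type}

/-- the arc or undirected edge of a dart -/
def und : Dart A E → A ⊕ E
  | .inl a => .inl a
  | .inr x => .inr x.1

/-- no undirected edge is used in both directions -/
def Ok (l : List (Dart A E)) : Prop := ∀ e : E, Sum.inr (e, true) ∈ l → Sum.inr (e, false) ∉ l

/-- how often each arc and each undirected edge is used -/
noncomputable def cnt (l : List (Dart A E)) : A ⊕ E →₀ ℕ :=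
  (l.map fun d => Finsupp.single (und d) 1).sum

namespace MGr

variable (G : MGr V A E)

/-- start of a dart -/
def hd : Dart A E → V
  | .inl a => G.src a
  | .inr x => if x.2 then G.p x.1 else G.q x.1

/-- end of a dart -/
def tl : Dart A E → V
  | .inl a => G.tgt a
  | .inr x => if x.2 then G.q x.1 else G.p x.1

/-- length of a dart -/
def len : Dart A E → ℕ
  | .inl a => G.la a
  | .inr x => G.le x.1

/-- `l` is a walk from `a` to `b` -/
def IsWalk : V → List (Dart A E) → V → Prop
  | a, [], b => a = b
  | a, d :: l, b => G.hd d = a ∧ IsWalk (G.tl d) l b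

/-- total length -/
def cost (l : List (Dart A E)) : ℕ := (l.map G.len).sum

/-- all lengths are positive -/
def Pos : Prop := (∀ a, 0 < G.la a) ∧ ∀ e, 0 < G.le e

/-- the dart has exactly one end in `U` -/
def Crosses (U : Set V) (d : Dart A E) : Prop := ¬ (G.hd d ∈ U ↔ G.tl d ∈ U)

/-- `P` and `Q` form a valid round trip: some orientation contains both -/
def Valid (s t : V) (P Q : List (Dart A E)) : Prop :=
  G.IsWalk s P t ∧ G.IsWalk t Q s ∧ Ok (P ++ Q)

/-- lengths of the valid round trips -/
def costs (s t : V) : Set ℕ := {k | ∃ P Q, G.Valid s t P Q ∧ G.cost P + G.cost Q = k}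

/-- vertices of a closed walk with its base point -/
def vset (x : V × List (Dart A E)) : Set V := {v | v = x.1 ∨ ∃ d ∈ x.2, G.tl d = v}

/-- rename the vertices -/
def map {W : Type} (f : V → W) : MGr W A E where
  src a := f (G.src a)
  tgt a := f (G.tgt a)
  la := G.la
  p e := f (G.p e)
  q e := f (G.q e)
  le := G.le

end MGr

section algebra

variable [Fintype V] [DecidableEq V] [Fintype A] [Fintype E] {R S : Type} [CommRing R]
  [CommRing S]

/-- weight of a dart -/
noncomputable def wt (G : MGr V A E) (z : A ⊕ E → R) (d : Dart A E) : R⟦X⟧ :=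
  PowerSeries.monomial (G.len d) (z (und d))

/-- weight of an undirected edge -/
noncomputable def wE (G : MGr V A E) (z : A ⊕ E → R) (e : E) : R⟦X⟧ :=
  PowerSeries.monomial (G.le e) (z (Sum.inr e))

/-- weighted adjacency matrix (undirected edges in both directions) -/
noncomputable def adj (G : MGr V A E) (z : A ⊕ E → R) : Matrix V V R⟦X⟧ :=
  fun a b => ∑ d : Dart A E, if G.hd d = a ∧ G.tl d = b then wt G z d else 0

/-- `Cm D = D ∘ Dᵀ` -/
def Cm (D : Matrix V V S) : Matrix V V S := fun a b => D a b * D b a

/-- the correction matrix -/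
def Xm (G : MGr V A E) (ξ : E → S) : Matrix V V S :=
  fun a b => ∑ e, ((if G.p e = a ∧ G.q e = b then ξ e else 0) +
    (if G.q e = a ∧ G.p e = b then ξ e else 0))

/-- The basic system: `D` counts walks, `Cm D` counts pairs of walks `a → b`, `b → a`, and
`V₁ = (C⁻¹ + X)⁻¹`. -/
structure Sys (G : MGr V A E) (z : A ⊕ E → R) (D V₁ : Matrix V V R⟦X⟧) (ξ : E → R⟦X⟧) :
    Prop where
  hD : D * (1 - adj G z) = 1
  hξ : ∀ e, ξ e * (1 + wE G z e * (D (G.p e) (G.q e) + D (G.q e) (G.p e))) = wE G z e ^ 2
  hV : V₁ * (1 + Xm G ξ * Cm D) = Cm D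

end algebra

/-- coefficient of the monomial `m` in the coefficient of `X ^ k` -/
noncomputable def cf (k : ℕ) (m : A ⊕ E →₀ ℕ) (f : (MvPolynomial (A ⊕ E) ℤ)⟦X⟧) : ℤ :=
  MvPolynomial.coeff m (PowerSeries.coeff k f)

end Pool.Agent.RTO
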