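import Pool.Agent.RTO.Exact

/-!
# The approximation scheme

`m = mG G`. `unitLen m λ q = 1` if `q ≤ λ`, else `4 * m + 1`; `feas`: with these lengths the minimum
round trip is at most `4 * m`. If `s ≠ t`: `feas λ` iff some orientation has walks `s → t`, `t → s` using
only arcs of length `≤ λ` (a walk with at most `m` arcs of new length 1 has new length `≤ m`; a walk
using a long arc has new length `≥ 4 m + 1`) (`value_some`, `value_none`, `cst_bound`).
`thr` = least feasible length occurring in `G` (`none` if there is none: then no orientation has a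
finite round trip, or `s = t`). If `thr = some λ` then every round trip uses an arc of length
`≥ λ`, so `OPT ≥ λ`, and `OPT ≤ 2 * m * λ`.
`λ = 0`: `go` with the unit lengths gives an orientation with round trip `0`.
`λ > 0`: new lengths `f q = 1 + #{j < cap - 1 | (j + 1) * λ ≤ q * N}` with `N = 4 * m * k`,
`cap = 4 * m * N + 4 * m + 1`, i.e. `f q = min (⌊q * N / λ⌋ + 1) cap`. For optimal `τ` and walks with at
most `m` arcs each: new length `≤ OPT * N / λ + 2 * m < cap`. `go_opt`: the orientation found has
walks with new length at most that, `< cap`, so no arc on them has `f q = cap`, hence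
`q ≤ (λ / N) * f q` for them, and the old length is at most
`(λ / N) * (OPT * N / λ + 2 * m) ≤ OPT + λ / k ≤ (1 + 1 / k) * OPT`.
-/

namespace Pool.Agent.RTO

open scoped ENNReal

/-- unit lengths below the threshold `l` -/
def unitLen (m : ℕ) (l q : ℚ) : ℕ := if q ≤ l then 1 else 4 * m + 1

/-- there is a round trip using only arcs of length at most `l` -/
def feas (G : MixedGraph) (s t : ℕ) (l : ℚ) : Bool :=
  match value (par (mG G) (4 * mG G + 1)) (G.1.map (relen (unitLen (mG G) l)))
    (G.2.map (relen (unitLen (mG G) l))) s t with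
  | none => false
  | some c => decide (c ≤ 4 * mG G)

/-- the feasible lengths -/
def feasL (G : MixedGraph) (s t : ℕ) : List ℚ :=
  ((G.1 ++ G.2).map fun x => x.2.2).filter fun l => feas G s t l

/-- the least feasible length -/
def thr (G : MixedGraph) (s t : ℕ) : Option ℚ :=
  ((feasL G s t).filter fun l => (feasL G s t).all fun l' => decide (l ≤ l')).head?

/-- scaled and rounded lengths -/
def scaleLen (m k : ℕ) (l q : ℚ) : ℕ :=
  1 + ((List.range (4 * m * (4 * m * k) + 4 * m)).filter fun j =>
    decide ((j + 1) * l ≤ q * ((4 * m * k : ℕ) : ℚ))).length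

/-- the approximation algorithm with error `1 / k` -/
def approxAlg (k : ℕ) (G : MixedGraph) (s t : ℕ) : List Bool :=
  match thr G s t with
  | none => G.2.map fun _ => true
  | some l =>
    if l ≤ 0 then
      go (par (mG G) (4 * mG G + 1)) s t (G.1.map (relen (unitLen (mG G) l)))
        (G.2.map (relen (unitLen (mG G) l)))
    else
      go (par (mG G) (4 * mG G * (4 * mG G * k) + 4 * mG G + 1)) s t
        (G.1.map (relen (scaleLen (mG G) k l))) (G.2.map (relen (scaleLen (mG G) k l)))

private theorem feas_unitLen_pos (m : ℕ) (l q : ℚ) : 0 < unitLen m l q := by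
  unfold unitLen
  split_ifs <;> omega

private theorem feas_unitLen_le (m : ℕ) (l q : ℚ) : unitLen m l q ≤ 4 * m + 1 := by
  unfold unitLen
  split_ifs <;> omega

private theorem feas_value (G : MixedGraph) (s t : ℕ) (hst : s ≠ t) (l : ℚ) :
    (Cst (G.1.map (relen (unitLen (mG G) l))) (G.2.map (relen (unitLen (mG G) l))) s t = ∅ ∧
      value (par (mG G) (4 * mG G + 1)) (G.1.map (relen (unitLen (mG G) l)))
        (G.2.map (relen (unitLen (mG G) l))) s t = none) ∨
    ∃ c, IsLeast (Cst (G.1.map (relen (unitLen (mG G) l)))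
        (G.2.map (relen (unitLen (mG G) l))) s t) c ∧
      value (par (mG G) (4 * mG G + 1)) (G.1.map (relen (unitLen (mG G) l)))
        (G.2.map (relen (unitLen (mG G) l))) s t = some c := by
  set m := mG G with hm
  set A := G.1.map (relen (unitLen m l)) with hA
  set E := G.2.map (relen (unitLen m l)) with hE
  have hlenA : A.length = G.1.length := by simp [hA]
  have hlenE : E.length = G.2.length := by simp [hE]
  have hmm : m = G.1.length + G.2.length := rfl
  have hmem : ∀ x ∈ A ++ E, ∃ q, x.2.2 = unitLen m l q := by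
    intro x hx
    rw [List.mem_append] at hx
    rcases hx with hx | hx
    · obtain ⟨y, _, rfl⟩ := List.mem_map.1 hx
      exact ⟨y.2.2, rfl⟩
    · obtain ⟨y, _, rfl⟩ := List.mem_map.1 hx
      exact ⟨y.2.2, rfl⟩
  have hpos : ∀ x ∈ A ++ E, 0 < x.2.2 := by
    intro x hx
    obtain ⟨q, hq⟩ := hmem x hx
    rw [hq]; exact feas_unitLen_pos m l q
  have hL : ∀ x ∈ A ++ E, x.2.2 ≤ (par m (4 * m + 1)).L := by
    intro x hx
    obtain ⟨q, hq⟩ := hmem x hx
    rw [hq]; exact feas_unitLen_le m l q
  by_cases hne : (Cst A E s t).Nonempty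
  · right
    classical
    obtain ⟨k, hk⟩ := hne
    have hex : ∃ c, IsLeast (Cst A E s t) c := by
      refine ⟨sInf (Cst A E s t), Nat.sInf_mem ⟨k, hk⟩, fun j hj => Nat.sInf_le hj⟩
    obtain ⟨c, hc⟩ := hex
    obtain ⟨k', hk', _, hk2⟩ := cst_bound A E s t (4 * m + 1) hL c hc.1
    have hck : c ≤ k' := hc.2 hk'
    refine ⟨c, hc, value_some _ A E s t hst hpos hL ?_ c hc ?_⟩
    · show 4 * m * (4 * m + 1) * (A.length + 2 * E.length + 1) + 1 ≤
        4 * m * (4 * m + 1) * (2 * m + 1) + 1
      have : A.length + 2 * E.length + 1 ≤ 2 * m + 1 := by omega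
      have := Nat.mul_le_mul_left (4 * m * (4 * m + 1)) this
      omega
    · show c ≤ 4 * m * (4 * m + 1)
      rw [hlenA, hlenE, ← hmm] at hk2
      exact hck.trans hk2
  · left
    rw [Set.not_nonempty_iff_eq_empty] at hne
    refine ⟨hne, value_none _ A E s t hst hpos hL ?_⟩
    intro k hk
    rw [hne] at hk
    exact absurd hk (Set.notMem_empty _)

private theorem feas_sum_le {f : ℚ → ℕ} : ∀ {P : List (ℕ × ℕ × ℚ)}, ∀ x ∈ P,
    f x.2.2 ≤ (P.map fun x => f x.2.2).sum := by
  intro P x hx
  exact List.single_le_sum (fun _ _ => Nat.zero_le _) _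
    (List.mem_map_of_mem (f := fun x : ℕ × ℕ × ℚ => f x.2.2) hx)

private theorem feas_sum_eq {m : ℕ} {l : ℚ} : ∀ {P : List (ℕ × ℕ × ℚ)}, (∀ x ∈ P, x.2.2 ≤ l) →
    (P.map fun x => unitLen m l x.2.2).sum = P.length := by
  intro P hP
  induction P with
  | nil => rfl
  | cons y P ih =>
    have h1 : unitLen m l y.2.2 = 1 := by
      unfold unitLen
      rw [if_pos (hP y List.mem_cons_self)]
    have h2 := ih fun x hx => hP x (List.mem_cons_of_mem _ hx)
    simp only [List.map_cons, List.sum_cons, List.length_cons, h1, h2]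
    omega

private theorem feas_length_orient (G : MixedGraph) (σ : List Bool) (hσ : σ.length = G.2.length) :
    (orient G σ).length = mG G := by
  unfold orient mG
  simp [hσ]

/-- feasibility (needs `s ≠ t`) -/
theorem feas_iff (G : MixedGraph) (s t : ℕ) (hst : s ≠ t) (l : ℚ) : feas G s t l = true ↔
    ∃ σ : List Bool, σ.length = G.2.length ∧ ∃ P Q, IsWalkL (orient G σ) s P t ∧
      IsWalkL (orient G σ) t Q s ∧ ∀ x ∈ P ++ Q, x.2.2 ≤ l := by
  constructor
  · intro h
    rcases feas_value G s t hst l with ⟨_, hv⟩ | ⟨c, hc, hv⟩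
    · unfold feas at h
      rw [hv] at h
      exact absurd h (by simp)
    · unfold feas at h
      rw [hv] at h
      have hcm : c ≤ 4 * mG G := by simpa using h
      obtain ⟨σ, hσ, k₁, k₂, h1, h2, h3⟩ := hc.1
      rw [ori_relen] at h1 h2
      obtain ⟨P, hP, hPs⟩ := (hasWalk_relen _ _ _ _ _).1 h1
      obtain ⟨Q, hQ, hQs⟩ := (hasWalk_relen _ _ _ _ _).1 h2
      refine ⟨σ, by simpa using hσ, P, Q, hP, hQ, ?_⟩
      intro x hx
      have hx' : unitLen (mG G) l x.2.2 ≤ 4 * mG G := by
        rw [List.mem_append] at hx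
        rcases hx with hx | hx
        · have := feas_sum_le (f := unitLen (mG G) l) x hx
          omega
        · have := feas_sum_le (f := unitLen (mG G) l) x hx
          omega
      by_contra hcon
      unfold unitLen at hx'
      rw [if_neg hcon] at hx'
      omega
  · rintro ⟨σ, hσ, P, Q, hP, hQ, hl⟩
    obtain ⟨P', hP', hPl, hPm, _⟩ := exists_short _ hP
    obtain ⟨Q', hQ', hQl, hQm, _⟩ := exists_short _ hQ
    have hlen := feas_length_orient G σ hσ
    have hPs : (P'.map fun x => unitLen (mG G) l x.2.2).sum = P'.length :=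
      feas_sum_eq fun x hx => hl x (List.mem_append_left _ (hPm x hx))
    have hQs : (Q'.map fun x => unitLen (mG G) l x.2.2).sum = Q'.length :=
      feas_sum_eq fun x hx => hl x (List.mem_append_right _ (hQm x hx))
    have hmem : P'.length + Q'.length ∈ Cst (G.1.map (relen (unitLen (mG G) l)))
        (G.2.map (relen (unitLen (mG G) l))) s t := by
      refine ⟨σ, by simpa using hσ, P'.length, Q'.length, ?_, ?_, rfl⟩
      · rw [ori_relen]
        exact (hasWalk_relen _ _ _ _ _).2 ⟨P', hP', hPs⟩
      · rw [ori_relen]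
        exact (hasWalk_relen _ _ _ _ _).2 ⟨Q', hQ', hQs⟩
    rcases feas_value G s t hst l with ⟨he, _⟩ | ⟨c, hc, hv⟩
    · rw [he] at hmem
      exact absurd hmem (Set.notMem_empty _)
    · have hcle := hc.2 hmem
      unfold feas
      rw [hv]
      simp only [decide_eq_true_eq]
      omega

end Pool.Agent.RTO
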