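import Pool.Agent.RTO.PolyG
import Pool.Agent.RTO.Feas
import Pool.Agent.TM2Lib.PolyNat

/-!
# Polynomial time: the two algorithms
-/

namespace Pool.Agent.RTO

open Pool.Agent.TM2Lib Pool.Agent.M3

section PolyF

variable {α : Type} [Enc α]

/-- comparison of integers -/
theorem PolyF_int_le {f g : α → ℤ} (hf : Poly f) (hg : Poly g) :
    Poly (fun a => decide (f a ≤ g a)) := by
  have h1 := Poly.ite (D3.poly_neg hf)
    (Poly.ite (D3.poly_neg hg) (Poly.nat_le (D3.poly_natAbs hg) (D3.poly_natAbs hf))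
      (TM2Lib.Poly.const true))
    (Poly.ite (D3.poly_neg hg) (TM2Lib.Poly.const false)
      (Poly.nat_le (D3.poly_natAbs hf) (D3.poly_natAbs hg)))
  refine h1.of_eq fun a => ?_
  by_cases h2 : f a < 0
  · by_cases h3 : g a < 0
    · simp only [h2, h3, decide_true, if_true]
      rw [decide_eq_decide]
      omega
    · simp only [h2, h3, decide_true, decide_false, if_true]
      simp only [Bool.false_eq_true, if_false]
      symm
      rw [decide_eq_true_iff]
      omega
  · by_cases h3 : g a < 0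
    · simp only [h2, h3, decide_true, decide_false, if_true]
      simp only [Bool.false_eq_true, if_false]
      symm
      rw [decide_eq_false_iff_not]
      omega
    · simp only [h2, h3, decide_false]
      simp only [Bool.false_eq_true, if_false]
      rw [decide_eq_decide]
      omega

/-- product of an integer and a natural number -/
theorem PolyF_int_mul {f : α → ℤ} {n : α → ℕ} (hf : Poly f) (hn : Poly n) :
    Poly (fun a => f a * (n a : ℤ)) := by
  have h1 : Poly (fun a => (decide (f a < 0) && !(decide (n a = 0)), (f a).natAbs * n a)) :=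
    ((D3.poly_neg hf).and (Poly.nat_eq hn (TM2Lib.Poly.const 0)).not).pair
      (poly_nat_mul (D3.poly_natAbs hf) hn)
  have h2 : Poly (fun a => (decide (f a * (n a : ℤ) < 0), (f a * (n a : ℤ)).natAbs)) := by
    refine h1.of_eq fun a => ?_
    rw [Prod.ext_iff]
    constructor
    · simp only
      rw [Bool.eq_iff_iff, Bool.and_eq_true, Bool.not_eq_true', decide_eq_true_iff,
        decide_eq_false_iff_not, decide_eq_true_iff]
      constructor
      · rintro ⟨h3, h4⟩
        have : (0 : ℤ) < n a := by exact_mod_cast Nat.pos_of_ne_zero h4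
        exact mul_neg_of_neg_of_pos h3 this
      · intro h3
        have h5 : (0 : ℤ) ≤ n a := by exact_mod_cast Nat.zero_le _
        constructor
        · by_contra h4
          have := mul_nonneg (not_lt.1 h4) h5
          omega
        · intro h4
          rw [h4] at h3
          simp at h3
    · simp [Int.natAbs_mul]
  exact h2

/-- comparison of rational numbers -/
theorem PolyF_rat_le {f g : α → ℚ} (hf : Poly f) (hg : Poly g) :
    Poly (fun a => decide (f a ≤ g a)) := by
  refine (PolyF_int_le (PolyF_int_mul (D3.poly_num hf) (D3.poly_den hg))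
    (PolyF_int_mul (D3.poly_num hg) (D3.poly_den hf))).of_eq fun a => ?_
  rw [decide_eq_decide, Rat.le_iff]

/-- comparison of multiples of rational numbers -/
theorem PolyF_rat_mul_le {f g : α → ℚ} {m n : α → ℕ} (hf : Poly f) (hg : Poly g) (hm : Poly m)
    (hn : Poly n) : Poly (fun a => decide ((m a : ℚ) * f a ≤ g a * (n a : ℚ))) := by
  refine (PolyF_int_le (PolyF_int_mul (D3.poly_num hf) (poly_nat_mul hm (D3.poly_den hg)))
    (PolyF_int_mul (D3.poly_num hg) (poly_nat_mul hn (D3.poly_den hf)))).of_eq fun a => ?_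
  rw [decide_eq_decide]
  have hfd : (0 : ℚ) < (f a).den := by exact_mod_cast (f a).pos
  have hgd : (0 : ℚ) < (g a).den := by exact_mod_cast (g a).pos
  have h1 : (m a : ℚ) * f a = ((m a : ℚ) * (f a).num) / (f a).den := by
    rw [mul_div_assoc, Rat.num_div_den]
  have h2 : g a * (n a : ℚ) = ((g a).num * (n a : ℚ)) / (g a).den := by
    rw [mul_comm ((g a).num : ℚ), mul_div_assoc, Rat.num_div_den, mul_comm]
  rw [h1, h2, div_le_div_iff₀ hfd hgd]
  constructor
  · intro h
    have h' : (((f a).num * ((m a * (g a).den : ℕ) : ℤ) : ℤ) : ℚ) ≤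
        (((g a).num * ((n a * (f a).den : ℕ) : ℤ) : ℤ) : ℚ) := by exact_mod_cast h
    push_cast at h'
    linarith
  · intro h
    have h' : (((f a).num * ((m a * (g a).den : ℕ) : ℤ) : ℤ) : ℚ) ≤
        (((g a).num * ((n a * (f a).den : ℕ) : ℤ) : ℤ) : ℚ) := by
      push_cast
      linarith
    exact_mod_cast h'

theorem PolyF_mG {G : α → MixedGraph} (hG : Poly G) : UPoly (fun a => mG (G a)) :=
  (UPoly.length hG.fst').add (UPoly.length hG.snd')

theorem PolyF_par {m L : α → ℕ} (hm : UPoly m) (hL : UPoly L) :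
    PPar (fun a => par (m a) (L a)) :=
  ⟨((((UPoly.const 4).mul hm).mul hL).mul (((UPoly.const 2).mul hm).add (UPoly.const 1))).add
    (UPoly.const 1), ((UPoly.const 4).mul hm).mul hL, hL⟩

theorem PolyF_relen {l : α → List (ℕ × ℕ × ℚ)} {f : α → ℚ → ℕ} (hl : Poly l)
    (hf : Poly (fun x : α × ℚ => f x.1 x.2)) : Poly (fun a => (l a).map (relen (f a))) := by
  have h1 : Poly (fun x : α × (ℕ × ℕ × ℚ) => f x.1 x.2.2.2) :=
    Poly.comp (g := fun x : α × ℚ => f x.1 x.2)
      (f := fun x : α × (ℕ × ℕ × ℚ) => (x.1, x.2.2.2)) hf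
      (Poly.fst.pair Poly.snd.snd'.snd')
  exact TM2Lib.Poly.map (h := fun x : α × (ℕ × ℕ × ℚ) => relen (f x.1) x.2) hl
    (Poly.snd.fst'.pair (Poly.snd.snd'.fst'.pair h1))

theorem PolyF_unitLen {m : α → ℕ} {l q : α → ℚ} (hm : UPoly m) (hl : Poly l) (hq : Poly q) :
    Poly (fun a => unitLen (m a) (l a) (q a)) :=
  D3.poly_ite (PolyF_rat_le hq hl) (TM2Lib.Poly.const 1)
    (((UPoly.const 4).mul hm).add (UPoly.const 1)).toNat

theorem PolyF_scaleLen {m k : α → ℕ} {l q : α → ℚ} (hm : UPoly m) (hk : UPoly k) (hl : Poly l)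
    (hq : Poly q) : Poly (fun a => scaleLen (m a) (k a) (l a) (q a)) := by
  have h4m : UPoly (fun a => 4 * m a) := (UPoly.const 4).mul hm
  have hN : UPoly (fun a => 4 * m a * k a) := h4m.mul hk
  have hR : UPoly (fun a => 4 * m a * (4 * m a * k a) + 4 * m a) := (h4m.mul hN).add h4m
  have h1 : Poly (fun a => List.range (4 * m a * (4 * m a * k a) + 4 * m a)) :=
    Poly.NPC.range hR.list
  have h2 : Poly (fun x : α × ℕ => decide (((x.2 + 1 : ℕ) : ℚ) * l x.1 ≤
      q x.1 * ((4 * m x.1 * k x.1 : ℕ) : ℚ))) :=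
    PolyF_rat_mul_le (hl.comp Poly.fst) (hq.comp Poly.fst)
      (poly_nat_add Poly.snd (TM2Lib.Poly.const 1)) (hN.toNat.comp Poly.fst)
  have h3 := poly_nat_add (TM2Lib.Poly.const 1) (Poly.NPC.length (Poly.filter h1 h2))
  refine h3.of_eq fun a => ?_
  unfold scaleLen
  have h4 : ∀ L : List ℕ, (do let a ← L; pure (a : ℚ)) = List.map (Nat.cast : ℕ → ℚ) L := by
    intro L
    induction L with
    | nil => rfl
    | cons n L ih => simp_all
  rw [h4, List.filter_map, List.length_map]
  simp only [Nat.cast_add, Nat.cast_one]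
  rfl

theorem PolyF_feas {G : α → MixedGraph} {s t : α → ℕ} {l : α → ℚ} (hG : Poly G) (hs : Poly s)
    (ht : Poly t) (hl : Poly l) : Poly (fun a => feas (G a) (s a) (t a) (l a)) := by
  have hm := PolyF_mG hG
  have h4m : UPoly (fun a => 4 * mG (G a)) := (UPoly.const 4).mul hm
  have hp : PPar (fun a => par (mG (G a)) (4 * mG (G a) + 1)) :=
    PolyF_par hm (h4m.add (UPoly.const 1))
  have hu : Poly (fun x : α × ℚ => unitLen (mG (G x.1)) (l x.1) x.2) :=
    PolyF_unitLen (UPoly.comp (g := fun a => mG (G a)) hm Poly.fst) (hl.comp Poly.fst) Poly.snd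
  have hv := poly_value hp (PolyF_relen (f := fun a => unitLen (mG (G a)) (l a)) hG.fst' hu)
    (PolyF_relen (f := fun a => unitLen (mG (G a)) (l a)) hG.snd' hu) hs ht
  have h1 := Poly.NPC.option_cases (g := fun _ => false)
    (h := fun x : α × ℕ => decide (x.2 ≤ 4 * mG (G x.1))) hv (TM2Lib.Poly.const false)
    (Poly.nat_le Poly.snd (h4m.toNat.comp Poly.fst))
  refine h1.of_eq fun a => ?_
  unfold feas
  split <;> simp_all

theorem PolyF_feasL {G : α → MixedGraph} {s t : α → ℕ} (hG : Poly G) (hs : Poly s)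
    (ht : Poly t) : Poly (fun a => feasL (G a) (s a) (t a)) := by
  have h1 : Poly (fun a => ((G a).1 ++ (G a).2).map fun x => x.2.2) :=
    TM2Lib.Poly.map (h := fun x : α × (ℕ × ℕ × ℚ) => x.2.2.2) (Poly.append hG.fst' hG.snd')
      Poly.snd.snd'.snd'
  exact Poly.filter (h := fun x : α × ℚ => feas (G x.1) (s x.1) (t x.1) x.2) h1
    (PolyF_feas (hG.comp Poly.fst) (hs.comp Poly.fst) (ht.comp Poly.fst) Poly.snd)

theorem PolyF_thr {G : α → MixedGraph} {s t : α → ℕ} (hG : Poly G) (hs : Poly s)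
    (ht : Poly t) : Poly (fun a => thr (G a) (s a) (t a)) := by
  have h1 := PolyF_feasL hG hs ht
  have h2 : Poly (fun x : α × ℚ => (feasL (G x.1) (s x.1) (t x.1)).all fun l' =>
      decide (x.2 ≤ l')) :=
    Poly.all (h := fun y : (α × ℚ) × ℚ => decide (y.1.2 ≤ y.2)) (h1.comp Poly.fst)
      (PolyF_rat_le Poly.fst.snd' Poly.snd)
  exact Poly.NPC.head? (Poly.filter (h := fun x : α × ℚ =>
    (feasL (G x.1) (s x.1) (t x.1)).all fun l' => decide (x.2 ≤ l')) h1 h2)

theorem PolyF_approx {k : α → ℕ} {G : α → MixedGraph} {s t : α → ℕ} (hk : UPoly k) (hG : Poly G)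
    (hs : Poly s) (ht : Poly t) : Poly (fun a => approxAlg (k a) (G a) (s a) (t a)) := by
  have hm := PolyF_mG hG
  have hm1 : UPoly (fun x : α × ℚ => mG (G x.1)) :=
    UPoly.comp (g := fun a => mG (G a)) hm Poly.fst
  have h4m : UPoly (fun x : α × ℚ => 4 * mG (G x.1)) := (UPoly.const 4).mul hm1
  have hk1 : UPoly (fun x : α × ℚ => k x.1) := UPoly.comp hk Poly.fst
  have hN : UPoly (fun x : α × ℚ => 4 * mG (G x.1) * k x.1) := h4m.mul hk1
  have hG1 : Poly (fun x : α × ℚ => G x.1) := hG.comp Poly.fst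
  have hs1 : Poly (fun x : α × ℚ => s x.1) := hs.comp Poly.fst
  have ht1 : Poly (fun x : α × ℚ => t x.1) := ht.comp Poly.fst
  have hu : Poly (fun y : (α × ℚ) × ℚ => unitLen (mG (G y.1.1)) y.1.2 y.2) :=
    PolyF_unitLen (UPoly.comp (g := fun x : α × ℚ => mG (G x.1)) hm1 Poly.fst) Poly.fst.snd' Poly.snd
  have hsc : Poly (fun y : (α × ℚ) × ℚ => scaleLen (mG (G y.1.1)) (k y.1.1) y.1.2 y.2) :=
    PolyF_scaleLen (UPoly.comp (g := fun x : α × ℚ => mG (G x.1)) hm1 Poly.fst)
      (UPoly.comp (g := fun x : α × ℚ => k x.1) hk1 Poly.fst) Poly.fst.snd' Poly.snd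
  have hgo1 := poly_go (PolyF_par hm1 (h4m.add (UPoly.const 1)))
    (PolyF_relen (f := fun x : α × ℚ => unitLen (mG (G x.1)) x.2) hG1.fst' hu)
    (PolyF_relen (f := fun x : α × ℚ => unitLen (mG (G x.1)) x.2) hG1.snd' hu) hs1 ht1
  have hgo2 := poly_go (PolyF_par hm1 (((h4m.mul hN).add h4m).add (UPoly.const 1)))
    (PolyF_relen (f := fun x : α × ℚ => scaleLen (mG (G x.1)) (k x.1) x.2) hG1.fst' hsc)
    (PolyF_relen (f := fun x : α × ℚ => scaleLen (mG (G x.1)) (k x.1) x.2) hG1.snd' hsc) hs1 ht1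
  have hsome := D3.poly_ite (c := fun x : α × ℚ => x.2 ≤ 0)
    (PolyF_rat_le Poly.snd (TM2Lib.Poly.const 0)) hgo1 hgo2
  have hnone : Poly (fun a => (G a).2.map fun _ => true) :=
    TM2Lib.Poly.map (h := fun _ : α × (ℕ × ℕ × ℚ) => true) hG.snd' (TM2Lib.Poly.const true)
  have h1 := Poly.NPC.option_cases (PolyF_thr hG hs ht) hnone hsome
  refine h1.of_eq fun a => ?_
  unfold approxAlg
  split <;> simp_all

end PolyF

theorem poly_approxAlg :
    Poly (fun x : Un × (MixedGraph × (ℕ × ℕ)) => approxAlg x.1.n x.2.1 x.2.2.1 x.2.2.2) :=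
  PolyF_approx (UPoly.comp UPoly.n Poly.fst) Poly.snd.fst' Poly.snd.snd'.fst'
    Poly.snd.snd'.snd'

end Pool.Agent.RTO
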