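import Pool.Agent.RTO.Defs

/-!
# Elementary facts on walks (inductions on the list)
-/

namespace Pool.Agent.RTO

variable {V A E : Type} {G : MGr V A E}

theorem isWalk_append {l l' : List (Dart A E)} {a b : V} :
    G.IsWalk a (l ++ l') b ↔ ∃ c, G.IsWalk a l c ∧ G.IsWalk c l' b := by
  induction l generalizing a with
  | nil =>
    constructor
    · intro h
      exact ⟨a, rfl, h⟩
    · rintro ⟨c, hc, h⟩
      have hc' : a = c := hc
      subst hc'
      exact h
  | cons d l ih =>
    constructor
    · rintro ⟨h1, h2⟩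
      obtain ⟨c, hc, h⟩ := ih.1 h2
      exact ⟨c, ⟨h1, hc⟩, h⟩
    · rintro ⟨c, ⟨h1, hc⟩, h⟩
      exact ⟨h1, ih.2 ⟨c, hc, h⟩⟩

theorem isWalk_single (d : Dart A E) : G.IsWalk (G.hd d) [d] (G.tl d) := ⟨rfl, rfl⟩

theorem cost_append (l l' : List (Dart A E)) : G.cost (l ++ l') = G.cost l + G.cost l' := by
  simp [MGr.cost]

theorem cost_cons (d : Dart A E) (l : List (Dart A E)) : G.cost (d :: l) = G.len d + G.cost l := by
  simp [MGr.cost]

theorem cnt_append (l l' : List (Dart A E)) : cnt (l ++ l') = cnt l + cnt l' := by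
  simp [cnt]

theorem cnt_cons (d : Dart A E) (l : List (Dart A E)) :
    cnt (d :: l) = Finsupp.single (und d) 1 + cnt l := by
  simp [cnt]

theorem mem_support_cnt {l : List (Dart A E)} {i : A ⊕ E} :
    i ∈ (cnt l).support ↔ ∃ d ∈ l, und d = i := by
  induction l with
  | nil => simp [cnt]
  | cons d l ih =>
    rw [cnt_cons, Finsupp.mem_support_iff, Finsupp.add_apply]
    rw [Finsupp.mem_support_iff] at ih
    constructor
    · intro h
      by_cases hd : und d = i
      · exact ⟨d, by simp, hd⟩
      · have h0 : (Finsupp.single (und d) 1 : A ⊕ E →₀ ℕ) i = 0 :=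
          Finsupp.single_eq_of_ne' hd
        rw [h0, zero_add] at h
        obtain ⟨e, he, hei⟩ := ih.1 h
        exact ⟨e, List.mem_cons_of_mem _ he, hei⟩
    · rintro ⟨e, he, hei⟩
      rcases List.mem_cons.1 he with rfl | he
      · rw [hei, Finsupp.single_eq_same]
        omega
      · have := ih.2 ⟨e, he, hei⟩
        omega

/-- a walk from inside `U` to outside `U` crosses `U` -/
theorem exists_crosses {l : List (Dart A E)} {a b : V} (h : G.IsWalk a l b) {U : Set V}
    (hab : ¬ (a ∈ U ↔ b ∈ U)) : ∃ d ∈ l, G.Crosses U d := by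
  induction l generalizing a with
  | nil =>
    have h' : a = b := h
    subst h'
    exact absurd Iff.rfl hab
  | cons d l ih =>
    obtain ⟨h1, h2⟩ := h
    by_cases hc : G.Crosses U d
    · exact ⟨d, by simp, hc⟩
    · have hc' : G.hd d ∈ U ↔ G.tl d ∈ U := by
        by_contra hcc
        exact hc hcc
      rw [h1] at hc'
      have hab' : ¬ (G.tl d ∈ U ↔ b ∈ U) := fun hh => hab (hc'.trans hh)
      obtain ⟨e, he, hce⟩ := ih h2 hab'
      exact ⟨e, List.mem_cons_of_mem _ he, hce⟩

/-- splitting a walk at a vertex on it -/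
theorem exists_split {l : List (Dart A E)} {a b : V} (h : G.IsWalk a l b) {v : V}
    (hv : v = a ∨ ∃ d ∈ l, G.tl d = v) :
    ∃ l₁ l₂, l = l₁ ++ l₂ ∧ G.IsWalk a l₁ v ∧ G.IsWalk v l₂ b := by
  rcases hv with rfl | ⟨d, hd, rfl⟩
  · exact ⟨[], l, rfl, rfl, h⟩
  · obtain ⟨l₁, l₂, rfl⟩ := List.append_of_mem hd
    have h' : l₁ ++ d :: l₂ = (l₁ ++ [d]) ++ l₂ := by simp
    rw [h'] at h
    obtain ⟨c, hc1, hc2⟩ := isWalk_append.1 h
    have hc : c = G.tl d := by
      obtain ⟨c', _, hc'⟩ := isWalk_append.1 hc1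
      exact hc'.2.symm
    subst hc
    exact ⟨l₁ ++ [d], l₂, h', hc1, hc2⟩

/-- walks can be shortened to use every dart at most once (cut out closed parts between two
occurrences of a dart; strong induction on the length of the list) -/
theorem exists_nodup {l : List (Dart A E)} {a b : V} (h : G.IsWalk a l b) :
    ∃ l', G.IsWalk a l' b ∧ l' ⊆ l ∧ l'.Nodup ∧ G.cost l' ≤ G.cost l := by
  classical
  induction l generalizing a with
  | nil => exact ⟨[], h, fun x hx => hx, List.nodup_nil, le_refl _⟩
  | cons d l ih =>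
    obtain ⟨h1, h2⟩ := h
    obtain ⟨l', hw, hsub, hnd, hcost⟩ := ih h2
    by_cases hd : d ∈ l'
    · obtain ⟨l₁, l₂, rfl⟩ := List.append_of_mem hd
      obtain ⟨c, _, hc⟩ := isWalk_append.1 hw
      refine ⟨d :: l₂, ⟨h1, hc.2⟩, ?_, ?_, ?_⟩
      · intro x hx
        rcases List.mem_cons.1 hx with rfl | hx
        · simp
        · exact List.mem_cons_of_mem _ (hsub (by simp [hx]))
      · exact hnd.of_append_right
      · rw [cost_append] at hcost
        rw [cost_cons d l]
        omega
    · refine ⟨d :: l', ⟨h1, hw⟩, ?_, List.nodup_cons.2 ⟨hd, hnd⟩, ?_⟩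
      · intro x hx
        rcases List.mem_cons.1 hx with rfl | hx
        · simp
        · exact List.mem_cons_of_mem _ (hsub hx)
      · rw [cost_cons, cost_cons]
        omega

/-- walks do not change if the vertices are renamed injectively -/
theorem isWalk_map {W : Type} (f : V → W) (hf : Function.Injective f) {l : List (Dart A E)}
    {a b : V} : (G.map f).IsWalk (f a) l (f b) ↔ G.IsWalk a l b := by
  have hhd : ∀ d : Dart A E, (G.map f).hd d = f (G.hd d) := by
    rintro (x | ⟨x, c⟩)
    · rfl
    · cases c <;> rfl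
  have htl : ∀ d : Dart A E, (G.map f).tl d = f (G.tl d) := by
    rintro (x | ⟨x, c⟩)
    · rfl
    · cases c <;> rfl
  induction l generalizing a with
  | nil =>
    constructor
    · intro h
      exact hf h
    · intro h
      exact congrArg f h
  | cons d l ih =>
    constructor
    · rintro ⟨h1, h2⟩
      rw [hhd] at h1
      rw [htl] at h2
      exact ⟨hf h1, ih.1 h2⟩
    · rintro ⟨h1, h2⟩
      refine ⟨?_, ?_⟩
      · rw [hhd, h1]
      · rw [htl]
        exact ih.2 h2

theorem cost_map {W : Type} (f : V → W) (l : List (Dart A E)) : (G.map f).cost l = G.cost l := by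
  have hlen : ∀ d : Dart A E, (G.map f).len d = G.len d := by
    rintro (x | ⟨x, c⟩) <;> rfl
  have : (G.map f).len = G.len := funext hlen
  simp [MGr.cost, this]

end Pool.Agent.RTO
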