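import Pool.Agent.RTO.GrDefs
import Pool.Agent.RTO.Walk

/-!
# Orientations and valid round trips

`cst_eq`: given `σ`, a walk in `ori A E σ` lifts to a list of darts of `gr A E` using only
`(i, σ[i])` for the undirected edges; conversely for a valid pair `(P, Q)` let
`σ[i] = decide ((i, true) ∈ P ++ Q)`; then by `Ok` all undirected darts of `P ++ Q` are `(i, σ[i])`.
`cst_cons`: the walks of a list of arcs depend only on its set of members
(`HasWalk` is monotone), and `ori A (e :: E) (b :: σ)` has the same members as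
`ori ((if b then e else rev e) :: A) E σ`.
-/

namespace Pool.Agent.RTO

theorem HasWalk.mono {H H' : List Arc} (h : H ⊆ H') {a b k : ℕ} (hw : HasWalk H a b k) :
    HasWalk H' a b k := by
  induction hw with
  | nil a => exact HasWalk.nil a
  | cons hm _ ih => exact HasWalk.cons (h hm) ih

private theorem cst_mem_ori {A E : List Arc} {σ : List Bool} (hσ : σ.length = E.length)
    {x : Arc} (hx : x ∈ ori A E σ) :
    ∃ d : Dart (Fin A.length) (Fin E.length), x = ((gr A E).hd d, (gr A E).tl d, (gr A E).len d) ∧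
      ∀ e b, d = Sum.inr (e, b) → σ[(e : ℕ)]? = some b := by
  unfold ori at hx
  rw [List.mem_append] at hx
  rcases hx with hx | hx
  · obtain ⟨i, rfl⟩ := List.get_of_mem hx
    exact ⟨Sum.inl i, rfl, fun e b h => by cases h⟩
  · obtain ⟨i, hi, hx⟩ := List.mem_iff_getElem.1 hx
    rw [List.length_zipWith] at hi
    have hi1 : i < E.length := lt_of_lt_of_le hi (min_le_left _ _)
    have hi2 : i < σ.length := by omega
    rw [List.getElem_zipWith] at hx
    refine ⟨Sum.inr (⟨i, hi1⟩, σ[i]), ?_, ?_⟩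
    · rw [← hx]
      cases hb : σ[i] with
      | true => simp [MGr.hd, MGr.tl, MGr.len, gr]
      | false => simp [MGr.hd, MGr.tl, MGr.len, gr, rev]
    · intro e b h
      simp only [Sum.inr.injEq, Prod.mk.injEq] at h
      obtain ⟨h1, h2⟩ := h
      subst h1
      subst h2
      exact List.getElem?_eq_getElem hi2

private theorem cst_lift {A E : List Arc} {σ : List Bool} (hσ : σ.length = E.length)
    {a b k : ℕ} (hw : HasWalk (ori A E σ) a b k) :
    ∃ P : List (Dart (Fin A.length) (Fin E.length)), (gr A E).IsWalk a P b ∧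
      (gr A E).cost P = k ∧ ∀ e x, Sum.inr (e, x) ∈ P → σ[(e : ℕ)]? = some x := by
  induction hw with
  | nil a => exact ⟨[], rfl, rfl, fun e x h => by simp at h⟩
  | cons hm _ ih =>
    obtain ⟨P, h1, h2, h3⟩ := ih
    obtain ⟨d, hd1, hd2⟩ := cst_mem_ori hσ hm
    simp only [Prod.mk.injEq] at hd1
    obtain ⟨e1, e2, e3⟩ := hd1
    refine ⟨d :: P, ⟨e1.symm, ?_⟩, ?_, ?_⟩
    · rw [← e2]; exact h1
    · rw [cost_cons, h2, ← e3]
    · intro e x hx
      rcases List.mem_cons.1 hx with hx | hx
      · exact hd2 e x hx.symm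
      · exact h3 e x hx

private theorem cst_ori_mem {A E : List Arc} {σ : List Bool}
    (d : Dart (Fin A.length) (Fin E.length))
    (hd : ∀ e b, d = Sum.inr (e, b) → σ[(e : ℕ)]? = some b) :
    ((gr A E).hd d, (gr A E).tl d, (gr A E).len d) ∈ ori A E σ := by
  unfold ori
  rw [List.mem_append]
  rcases d with i | ⟨i, b⟩
  · left
    exact List.get_mem A i
  · right
    have h := hd i b rfl
    obtain ⟨hi, hb⟩ := List.getElem?_eq_some_iff.1 h
    have hlen : (i : ℕ) < (List.zipWith (fun e b => if b then e else rev e) E σ).length := by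
      rw [List.length_zipWith]
      exact lt_min i.2 hi
    refine List.mem_iff_getElem.2 ⟨i, hlen, ?_⟩
    rw [List.getElem_zipWith, hb]
    cases b with
    | true => simp [MGr.hd, MGr.tl, MGr.len, gr]
    | false => simp [MGr.hd, MGr.tl, MGr.len, gr, rev]

private theorem cst_down {A E : List Arc} {σ : List Bool}
    (P : List (Dart (Fin A.length) (Fin E.length))) :
    ∀ {a b : ℕ}, (gr A E).IsWalk a P b → (∀ e x, Sum.inr (e, x) ∈ P → σ[(e : ℕ)]? = some x) →
      HasWalk (ori A E σ) a b ((gr A E).cost P) := by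
  induction P with
  | nil =>
    intro a b h _
    have h' : a = b := h
    subst h'
    exact HasWalk.nil a
  | cons d P ih =>
    intro a b h hP
    obtain ⟨h1, h2⟩ := h
    rw [cost_cons]
    subst h1
    refine HasWalk.cons (cst_ori_mem d ?_) (ih h2 fun e x hx => hP e x (List.mem_cons_of_mem _ hx))
    intro e b hd
    exact hP e b (by rw [hd]; exact List.mem_cons_self)

theorem cst_eq (A E : List Arc) (s t : ℕ) : Cst A E s t = (gr A E).costs s t := by
  ext k
  constructor
  · rintro ⟨σ, hσ, k₁, k₂, hw1, hw2, rfl⟩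
    obtain ⟨P, hP1, hP2, hP3⟩ := cst_lift hσ hw1
    obtain ⟨Q, hQ1, hQ2, hQ3⟩ := cst_lift hσ hw2
    refine ⟨P, Q, ⟨hP1, hQ1, ?_⟩, by rw [hP2, hQ2]⟩
    have hPQ : ∀ e x, Sum.inr (e, x) ∈ P ++ Q → σ[(e : ℕ)]? = some x := by
      intro e x hx
      rcases List.mem_append.1 hx with hx | hx
      · exact hP3 e x hx
      · exact hQ3 e x hx
    intro e h1 h2
    have h3 := hPQ e true h1
    have h4 := hPQ e false h2
    rw [h3] at h4
    simp at h4
  · rintro ⟨P, Q, ⟨hP, hQ, hok⟩, rfl⟩
    classical
    set σ : List Bool := List.ofFn fun i : Fin E.length =>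
      decide ((Sum.inr (i, true) : Dart (Fin A.length) (Fin E.length)) ∈ P ++ Q) with hσdef
    have hσ : σ.length = E.length := by rw [hσdef, List.length_ofFn]
    have hPQ : ∀ e x, (Sum.inr (e, x) : Dart (Fin A.length) (Fin E.length)) ∈ P ++ Q →
        σ[(e : ℕ)]? = some x := by
      intro e x hx
      rw [List.getElem?_eq_some_iff]
      refine ⟨by rw [hσ]; exact e.2, ?_⟩
      simp only [hσdef, List.getElem_ofFn]
      cases x with
      | true => simpa using hx
      | false =>
        have h : (Sum.inr (e, true) : Dart (Fin A.length) (Fin E.length)) ∉ P ++ Q :=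
          fun h => hok e h hx
        simpa using h
    refine ⟨σ, hσ, _, _, cst_down P hP fun e x hx => hPQ e x (List.mem_append_left _ hx),
      cst_down Q hQ fun e x hx => hPQ e x (List.mem_append_right _ hx), rfl⟩

private theorem cst_ori_cons (A E : List Arc) (e : Arc) (b : Bool) (σ : List Bool) :
    ori A (e :: E) (b :: σ) ⊆ ori ((if b then e else rev e) :: A) E σ ∧
      ori ((if b then e else rev e) :: A) E σ ⊆ ori A (e :: E) (b :: σ) := by
  constructor
  · intro x hx
    unfold ori at hx ⊢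
    simp only [List.zipWith_cons_cons, List.mem_append, List.mem_cons, List.cons_append] at hx ⊢
    tauto
  · intro x hx
    unfold ori at hx ⊢
    simp only [List.zipWith_cons_cons, List.mem_append, List.mem_cons, List.cons_append] at hx ⊢
    tauto

theorem cst_cons (A E : List Arc) (e : Arc) (s t : ℕ) :
    Cst A (e :: E) s t = Cst (e :: A) E s t ∪ Cst (rev e :: A) E s t := by
  ext k
  constructor
  · rintro ⟨σ, hσ, k₁, k₂, hw1, hw2, rfl⟩
    rcases σ with _ | ⟨b, σ⟩
    · simp at hσ
    · have hσ' : σ.length = E.length := by simpa using hσ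
      have h := (cst_ori_cons A E e b σ).1
      cases b with
      | true => exact Or.inl ⟨σ, hσ', k₁, k₂, hw1.mono h, hw2.mono h, rfl⟩
      | false => exact Or.inr ⟨σ, hσ', k₁, k₂, hw1.mono h, hw2.mono h, rfl⟩
  · rintro (⟨σ, hσ, k₁, k₂, hw1, hw2, rfl⟩ | ⟨σ, hσ, k₁, k₂, hw1, hw2, rfl⟩)
    · have h := (cst_ori_cons A E e true σ).2
      exact ⟨true :: σ, by simpa using hσ, k₁, k₂, hw1.mono h, hw2.mono h, rfl⟩
    · have h := (cst_ori_cons A E e false σ).2
      exact ⟨false :: σ, by simpa using hσ, k₁, k₂, hw1.mono h, hw2.mono h, rfl⟩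

private theorem cst_cost_le (A E : List Arc) (L : ℕ) (hL : ∀ x ∈ A ++ E, x.2.2 ≤ L)
    (P : List (Dart (Fin A.length) (Fin E.length))) :
    (gr A E).cost P ≤ P.length * L := by
  induction P with
  | nil => simp [MGr.cost]
  | cons d P ih =>
    rw [cost_cons, List.length_cons, Nat.add_mul, one_mul, add_comm]
    refine Nat.add_le_add ih ?_
    rcases d with i | ⟨i, b⟩
    · exact hL _ (List.mem_append_left _ (List.get_mem A i))
    · exact hL _ (List.mem_append_right _ (List.get_mem E i))

private theorem cst_nodup_le (A E : List Arc) (L : ℕ) (hL : ∀ x ∈ A ++ E, x.2.2 ≤ L)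
    (P : List (Dart (Fin A.length) (Fin E.length))) (hP : P.Nodup) :
    (gr A E).cost P ≤ 2 * (A.length + E.length) * L := by
  refine (cst_cost_le A E L hL P).trans (Nat.mul_le_mul_right _ ?_)
  have h := List.Nodup.length_le_card hP
  rw [Fintype.card_sum, Fintype.card_prod, Fintype.card_fin, Fintype.card_fin,
    Fintype.card_bool] at h
  omega

/-- if there is a round trip at all, there is one of length at most `4 * m * L` -/
theorem cst_bound (A E : List Arc) (s t L : ℕ) (hL : ∀ x ∈ A ++ E, x.2.2 ≤ L) (k : ℕ)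
    (hk : k ∈ Cst A E s t) : ∃ k' ∈ Cst A E s t, k' ≤ k ∧ k' ≤ 4 * (A.length + E.length) * L := by
  rw [cst_eq] at hk ⊢
  obtain ⟨P, Q, ⟨hP, hQ, hok⟩, rfl⟩ := hk
  obtain ⟨P', hP1, hP2, hP3, hP4⟩ := exists_nodup hP
  obtain ⟨Q', hQ1, hQ2, hQ3, hQ4⟩ := exists_nodup hQ
  have hsub : P' ++ Q' ⊆ P ++ Q := by
    intro x hx
    rcases List.mem_append.1 hx with hx | hx
    · exact List.mem_append_left _ (hP2 hx)
    · exact List.mem_append_right _ (hQ2 hx)
  refine ⟨(gr A E).cost P' + (gr A E).cost Q',
    ⟨P', Q', ⟨hP1, hQ1, fun e h1 h2 => hok e (hsub h1) (hsub h2)⟩, rfl⟩,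
    Nat.add_le_add hP4 hQ4, ?_⟩
  have h1 := cst_nodup_le A E L hL P' hP3
  have h2 := cst_nodup_le A E L hL Q' hQ3
  have h3 : 4 * (A.length + E.length) * L =
      2 * (A.length + E.length) * L + 2 * (A.length + E.length) * L := by ring
  omega

end Pool.Agent.RTO
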