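import Pool.Agent.RTO.AlgDefs
import Pool.Agent.M3.AlgPoly

/-!
# Polynomial time: tables

Closure lemmas: `Pool.Agent.TM2Lib` (Poly.lean, PolyNat.lean, Arith.lean, Unary.lean) and
`Pool.Agent.M3` (NatPoly.lean: `poly_nat_add/sub/mul/lt`, `poly_mod_pow2`, `poly_pow2`, `upoly_min`,
`poly_sum`). A natural number `f a` is `UPoly` if it can be computed in unary.
`poly_mk`: `mk vs f = (vs.product vs).map ...` (Poly.product, Poly.map).
`poly_get`: Poly.filter, Poly.map, Poly.headD.
`poly_tabD`: iterate = foldl over `un (K + 1)`; `Poly.foldl` (or `Poly.iter` with the environment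
carried along) with the size bound: every table occurring is `[]` or `mk vs f` with values
`< 2 ^ N`, so its size is at most `(vs.product vs).length * (bound)`; the sizes of numbers
`< 2 ^ N` are at most `4 * N + 1` (`D1_sz_nat`).
-/

namespace Pool.Agent.RTO

open Pool.Agent.TM2Lib Pool.Agent.M3

variable {α : Type} [Enc α]

/-- the parameters can be computed in unary -/
def PPar (p : α → Par) : Prop :=
  UPoly (fun a => (p a).B) ∧ UPoly (fun a => (p a).K) ∧ UPoly (fun a => (p a).L)

theorem PPar.N {p : α → Par} (hp : PPar p) : UPoly (fun a => (p a).N) :=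
  hp.1.mul (hp.2.1.add (UPoly.const 1))

theorem PPar.comp {β : Type} [Enc β] {p : α → Par} (hp : PPar p) {f : β → α} (hf : Poly f) :
    PPar (fun b => p (f b)) :=
  ⟨UPoly.comp (g := fun a => (p a).B) hp.1 hf, UPoly.comp (g := fun a => (p a).K) hp.2.1 hf,
    UPoly.comp (g := fun a => (p a).L) hp.2.2 hf⟩

theorem poly_get {T : α → Table} {x y : α → ℕ} (hT : Poly T) (hx : Poly x) (hy : Poly y) :
    Poly (fun a => get (T a) (x a) (y a)) := by
  have h1 : Poly (fun q : α × ((ℕ × ℕ) × ℕ) => q.2.1 == (x q.1, y q.1)) :=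
    (D3.poly_pair_eq (Poly.snd.fst') ((hx.comp Poly.fst).pair (hy.comp Poly.fst))).of_eq
      fun a => by
        rw [beq_eq_decide]
  have h2 := Poly.filter (h := fun q : α × ((ℕ × ℕ) × ℕ) => q.2.1 == (x q.1, y q.1)) hT h1
  have h3 := TM2Lib.Poly.map (h := fun q : α × ((ℕ × ℕ) × ℕ) => q.2.2) h2 Poly.snd.snd'
  exact (Poly.headD h3 (TM2Lib.Poly.const 0)).of_eq fun a => rfl

theorem poly_product {β γ : Type} [Enc β] [Enc γ] {f : α → List β} {g : α → List γ}
    (hf : Poly f) (hg : Poly g) : Poly (fun a => (f a).product (g a)) :=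
  (Poly.flatMap (h := fun p : α × β => (g p.1).map (fun c => (p.2, c))) hf
    (TM2Lib.Poly.map (h := fun q : (α × β) × γ => (q.1.2, q.2)) (hg.comp Poly.fst)
      (Poly.fst.snd'.pair Poly.snd))).of_eq fun _ => rfl

theorem poly_mk {vs : α → List ℕ} {f : α → ℕ → ℕ → ℕ} (hvs : Poly vs)
    (hf : Poly (fun x : α × (ℕ × ℕ) => f x.1 x.2.1 x.2.2)) :
    Poly (fun a => mk (vs a) (f a)) :=
  (TM2Lib.Poly.map (h := fun x : α × (ℕ × ℕ) => (x.2, f x.1 x.2.1 x.2.2))
    (poly_product hvs hvs) (Poly.snd.pair hf)).of_eq fun a => rfl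

theorem poly_pw {p : α → Par} {e : α → Arc} (hp : PPar p) (he : Poly e) :
    Poly (fun a => pw (p a) (e a)) :=
  poly_pow2 (hp.1.mul (upoly_min he.snd'.snd' hp.2.2))

theorem poly_rev {e : α → Arc} (he : Poly e) : Poly (fun a => rev (e a)) :=
  he.snd'.fst'.pair (he.fst'.pair he.snd'.snd')

theorem poly_dartL {A E : α → List Arc} (hA : Poly A) (hE : Poly E) :
    Poly (fun a => dartL (A a) (E a)) :=
  Poly.append hA (Poly.append hE
    (TM2Lib.Poly.map (h := fun x : α × Arc => rev x.2) hE (poly_rev Poly.snd)))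

theorem poly_vlist {A E : α → List Arc} {s t : α → ℕ} (hA : Poly A) (hE : Poly E) (hs : Poly s)
    (ht : Poly t) : Poly (fun a => vlist (A a) (E a) (s a) (t a)) := by
  have h := poly_dartL hA hE
  exact Poly.cons hs (Poly.cons ht (Poly.append
    (TM2Lib.Poly.map (h := fun x : α × Arc => x.2.1) h Poly.snd.fst')
    (TM2Lib.Poly.map (h := fun x : α × Arc => x.2.2.1) h Poly.snd.snd'.fst')))

theorem poly_tabC {p : α → Par} {vs : α → List ℕ} {T : α → Table} (hp : PPar p) (hvs : Poly vs)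
    (hT : Poly T) : Poly (fun a => tabC (p a) (vs a) (T a)) := by
  unfold tabC
  refine poly_mk hvs ?_
  exact poly_mod_pow2 (poly_nat_mul
    (poly_get (hT.comp Poly.fst) Poly.snd.fst' Poly.snd.snd')
    (poly_get (hT.comp Poly.fst) Poly.snd.snd' Poly.snd.fst')) (hp.comp Poly.fst).N

end Pool.Agent.RTO
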