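import Pool.Agent.RTO.Defs

/-!
# The algorithm (on natural numbers)

An arc or undirected edge is a triple `(a, b, ℓ)`. All numbers are taken modulo `2 ^ N`,
`N = B * (K + 1)`; the weight of a dart of length `ℓ` is `2 ^ (B * ℓ)`. (`min ℓ L` is only there to keep
the numbers small on senseless inputs.)
-/

namespace Pool.Agent.RTO

/-- an arc or an undirected edge `(a, b, ℓ)` -/
abbrev Arc : Type := ℕ × ℕ × ℕ

/-- the same with exchanged ends -/
def rev (x : Arc) : Arc := (x.2.1, x.1, x.2.2)

/-- the parameters `(B, K, L)` -/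
structure Par where
  /-- bits per coefficient -/
  B : ℕ
  /-- degree of the truncation -/
  K : ℕ
  /-- bound for the lengths -/
  L : ℕ

/-- number of bits -/
def Par.N (p : Par) : ℕ := p.B * (p.K + 1)

/-- all darts -/
def dartL (A E : List Arc) : List Arc := A ++ (E ++ E.map rev)

/-- all vertices (with repetitions) -/
def vlist (A E : List Arc) (s t : ℕ) : List ℕ :=
  s :: t :: ((dartL A E).map Prod.fst ++ (dartL A E).map fun x => x.2.1)

/-- a table of numbers -/
abbrev Table : Type := List ((ℕ × ℕ) × ℕ)

/-- look up -/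
def get (T : Table) (a b : ℕ) : ℕ := ((T.filter fun x => x.1 == (a, b)).map Prod.snd).headD 0

/-- make a table -/
def mk (vs : List ℕ) (f : ℕ → ℕ → ℕ) : Table := (vs.product vs).map fun x => (x, f x.1 x.2)

/-- weight of a dart -/
def pw (p : Par) (x : Arc) : ℕ := 2 ^ (p.B * min x.2.2 p.L)

/-- one step of the iteration for `D` -/
def stepD (p : Par) (ds : List Arc) (vs : List ℕ) (T : Table) : Table :=
  mk vs fun a b => ((if a = b then 1 else 0) +
    ((ds.filter fun d => d.1 == a).map fun d => pw p d * get T d.2.1 b).sum) % 2 ^ p.N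

/-- the table of `D` -/
def tabD (p : Par) (ds : List Arc) (vs : List ℕ) : Table := (stepD p ds vs)^[p.K + 1] []

/-- the table of `C` -/
def tabC (p : Par) (vs : List ℕ) (TD : Table) : Table :=
  mk vs fun a b => (get TD a b * get TD b a) % 2 ^ p.N

/-- `1 / (1 + g)` -/
def inv (p : Par) (g : ℕ) : ℕ := (fun x => (1 + (2 ^ p.N - g % 2 ^ p.N) * x) % 2 ^ p.N)^[p.K + 1] 0

/-- the number `ξ` of an undirected edge -/
def xiN (p : Par) (TD : Table) (e : Arc) : ℕ :=
  (pw p e * pw p e * inv p (pw p e * (get TD e.1 e.2.1 + get TD e.2.1 e.1))) % 2 ^ p.N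

/-- one step of the iteration for `V` -/
def stepV (p : Par) (vs : List ℕ) (TC : Table) (X : List (Arc × ℕ)) (T : Table) : Table :=
  mk vs fun a b => (get TC a b + (2 ^ p.N - (X.map fun x => x.2 *
    (get TC a x.1.1 * get T x.1.2.1 b + get TC a x.1.2.1 * get T x.1.1 b)).sum % 2 ^ p.N)) %
      2 ^ p.N

/-- the table of `V` -/
def tabV (p : Par) (vs : List ℕ) (TC : Table) (X : List (Arc × ℕ)) : Table :=
  (stepV p vs TC X)^[p.K + 1] []

/-- the number for `V s t` -/
def numV (p : Par) (A E : List Arc) (s t : ℕ) : ℕ :=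
  let vs := vlist A E s t
  let TD := tabD p (dartL A E) vs
  get (tabV p vs (tabC p vs TD) (E.map fun e => (e, xiN p TD e))) s t

/-- order of a number -/
def ordN (p : Par) (v : ℕ) : Option ℕ :=
  ((List.range (p.K + 1)).filter fun k => v % 2 ^ (p.B * (k + 1)) != 0).head?

/-- the minimum length of a round trip (if it is at most `K`) -/
def value (p : Par) (A E : List Arc) (s t : ℕ) : Option ℕ := ordN p (numV p A E s t)

/-- orient the undirected edges one after the other -/
def go (p : Par) (s t : ℕ) : List Arc → List Arc → List Bool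
  | _, [] => []
  | A, e :: E => if value p (e :: A) E s t = value p A (e :: E) s t then true :: go p s t (e :: A) E
      else false :: go p s t (rev e :: A) E

/-- the parameters for `m` arcs and edges of length at most `L` -/
def par (m L : ℕ) : Par := ⟨(4 * m * L) * (2 * m + 1) + 1, 4 * m * L, L⟩

end Pool.Agent.RTO
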