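import Pool.Agent.RTO.Feas

/-!
# The approximation scheme

`m = mG G`. `unitLen m λ q = 1` if `q ≤ λ`, else `4 * m + 1`; `feas`: with these lengths the minimum
round trip is at most `4 * m`. If `s ≠ t`: `feas λ` iff some orientation has walks `s → t`, `t → s` using
only arcs of length `≤ λ` (a walk with at most `m` arcs of new length 1 has new length `≤ m`; a walk
using a long arc has new length `≥ 4 m + 1`) (`value_some`, `value_none`, `cst_bound`).
`thr` = least feasible length occurring in `G` (`none` if there is none: then no orientation has a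
finite round trip, or `s = t`). If `thr = some λ` then every round trip uses an arc of length
`≥ λ`, so `OPT ≥ λ`, and `OPT ≤ 2 * m * λ`.
`λ = 0`: `go` with the unit lengths gives an orientation with round trip `0`.
`λ > 0`: new lengths `f q = 1 + #{j < cap - 1 | (j + 1) * λ ≤ q * N}` with `N = 4 * m * k`,
`cap = 4 * m * N + 4 * m + 1`, i.e. `f q = min (⌊q * N / λ⌋ + 1) cap`. For optimal `τ` and walks with at
most `m` arcs each: new length `≤ OPT * N / λ + 2 * m < cap`. `go_opt`: the orientation found has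
walks with new length at most that, `< cap`, so no arc on them has `f q = cap`, hence
`q ≤ (λ / N) * f q` for them, and the old length is at most
`(λ / N) * (OPT * N / λ + 2 * m) ≤ OPT + λ / k ≤ (1 + 1 / k) * OPT`.
-/

namespace Pool.Agent.RTO

open scoped ENNReal

private theorem apx_zip {x : ℕ × ℕ × ℚ} : ∀ (l : List (ℕ × ℕ × ℚ)) (σ : List Bool),
    x ∈ List.zipWith (fun e b => if b then e else (e.2.1, e.1, e.2.2)) l σ →
      ∃ y ∈ l, x.2.2 = y.2.2 := by
  intro l
  induction l with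
  | nil =>
    intro σ h
    simp at h
  | cons e l ih =>
    intro σ h
    cases σ with
    | nil => simp at h
    | cons b σ =>
      rw [List.zipWith_cons_cons, List.mem_cons] at h
      rcases h with h | h
      · refine ⟨e, List.mem_cons_self, ?_⟩
        rw [h]
        split_ifs <;> rfl
      · obtain ⟨y, hy, hy'⟩ := ih σ h
        exact ⟨y, List.mem_cons_of_mem _ hy, hy'⟩

private theorem apx_mem {G : MixedGraph} {σ : List Bool} {x : ℕ × ℕ × ℚ}
    (hx : x ∈ orient G σ) : ∃ y ∈ G.1 ++ G.2, x.2.2 = y.2.2 := by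
  unfold orient at hx
  rcases List.mem_append.1 hx with h | h
  · exact ⟨x, List.mem_append_left _ h, rfl⟩
  · obtain ⟨y, hy, hy'⟩ := apx_zip _ _ h
    exact ⟨y, List.mem_append_right _ hy, hy'⟩

private theorem apx_len {G : MixedGraph} {σ : List Bool} (h : σ.length = G.2.length) :
    (orient G σ).length = mG G := by
  unfold orient mG
  rw [List.length_append, List.length_zipWith, h, min_self]

private theorem apx_nonneg {G : MixedGraph} (hG : Nonneg G) (σ : List Bool) :
    ∀ x ∈ orient G σ, 0 ≤ x.2.2 := by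
  intro x hx
  obtain ⟨y, hy, hy'⟩ := apx_mem hx
  rw [hy']
  exact hG y hy

private theorem apx_filter (F : ℕ) : ∀ M : ℕ,
    ((List.range M).filter fun j => decide (j < F)).length = min M F := by
  intro M
  induction M with
  | zero => simp
  | succ M ih =>
    rw [List.range_succ, List.filter_append, List.length_append, ih]
    by_cases h : M < F
    · rw [List.filter_cons_of_pos (by simpa using h), List.filter_nil]
      simp only [List.length_cons, List.length_nil]
      omega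
    · rw [List.filter_cons_of_neg (by simpa using h), List.filter_nil]
      simp only [List.length_nil]
      omega

private theorem apx_bind (l : List ℕ) :
    (do
      let a ← l
      pure (a : ℚ)) = l.map fun a : ℕ => (a : ℚ) := by
  induction l with
  | nil => rfl
  | cons a l ih =>
    rw [List.map_cons, ← ih]
    rfl

private theorem apx_scale (m k : ℕ) {l q : ℚ} (hl : 0 < l) (hq : 0 ≤ q) :
    scaleLen m k l q =
      1 + min (4 * m * (4 * m * k) + 4 * m) ⌊q * ((4 * m * k : ℕ) : ℚ) / l⌋₊ := by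
  have h0 : 0 ≤ q * ((4 * m * k : ℕ) : ℚ) / l := by positivity
  unfold scaleLen
  rw [← apx_filter, apx_bind, List.filter_map, List.length_map]
  congr 2
  apply List.filter_congr
  intro j _
  rw [Function.comp_apply, decide_eq_decide]
  rw [Nat.lt_iff_add_one_le, Nat.le_floor_iff h0, le_div_iff₀ hl]
  push_cast
  rfl

private theorem apx_thr_spec {G : MixedGraph} {s t : ℕ} {l : ℚ} (h : thr G s t = some l) :
    l ∈ feasL G s t ∧ ∀ l' ∈ feasL G s t, l ≤ l' := by
  unfold thr at h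
  have h1 := List.mem_of_mem_head? (by rw [h]; exact rfl : l ∈
    ((feasL G s t).filter fun l => (feasL G s t).all fun l' => decide (l ≤ l')).head?)
  rw [List.mem_filter, List.all_eq_true] at h1
  exact ⟨h1.1, fun l' hl' => of_decide_eq_true (h1.2 l' hl')⟩

private theorem apx_thr_none {G : MixedGraph} {s t : ℕ} (h : thr G s t = none) (l : ℚ)
    (hl : l ∈ feasL G s t) : False := by
  unfold thr at h
  rw [List.head?_eq_none_iff, List.filter_eq_nil_iff] at h
  obtain ⟨x, hx, hmin⟩ := Finset.exists_min_image (feasL G s t).toFinset id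
    ⟨l, List.mem_toFinset.2 hl⟩
  apply h x (List.mem_toFinset.1 hx)
  rw [List.all_eq_true]
  intro l' hl'
  exact decide_eq_true (hmin l' (List.mem_toFinset.2 hl'))

/-- The orientation found by `go` for the new lengths `f`. -/
private theorem apx_go (G : MixedGraph) (s t L : ℕ) (f : ℚ → ℕ)
    (hf : ∀ x ∈ G.1 ++ G.2, 0 < f x.2.2 ∧ f x.2.2 ≤ L) (τ : List Bool)
    (hτ : τ.length = G.2.length) (P Q : List (ℕ × ℕ × ℚ)) (hP : IsWalkL (orient G τ) s P t)
    (hQ : IsWalkL (orient G τ) t Q s) (τ' : List Bool)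
    (hτ' : τ'.length = G.2.length) (P' Q' : List (ℕ × ℕ × ℚ)) (hP' : IsWalkL (orient G τ') s P' t)
    (hQ' : IsWalkL (orient G τ') t Q' s) :
    ∃ P₁ Q₁, IsWalkL (orient G (go (par (mG G) L) s t (G.1.map (relen f))
        (G.2.map (relen f)))) s P₁ t ∧
      IsWalkL (orient G (go (par (mG G) L) s t (G.1.map (relen f))
        (G.2.map (relen f)))) t Q₁ s ∧
      (P₁.map fun x => f x.2.2).sum + (Q₁.map fun x => f x.2.2).sum ≤
        (P.map fun x => f x.2.2).sum + (Q.map fun x => f x.2.2).sum ∧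
      (P₁.map fun x => f x.2.2).sum + (Q₁.map fun x => f x.2.2).sum ≤
        (P'.map fun x => f x.2.2).sum + (Q'.map fun x => f x.2.2).sum := by
  have hC : ∀ (τ : List Bool) (_ : τ.length = G.2.length) (P Q : List (ℕ × ℕ × ℚ))
      (_ : IsWalkL (orient G τ) s P t) (_ : IsWalkL (orient G τ) t Q s),
      (P.map fun x => f x.2.2).sum + (Q.map fun x => f x.2.2).sum ∈
        Cst (G.1.map (relen f)) (G.2.map (relen f)) s t := by
    intro τ hτ P Q hP hQ
    refine ⟨τ, by rw [hτ, List.length_map], _, _, ?_, ?_, rfl⟩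
    · rw [ori_relen, hasWalk_relen]
      exact ⟨P, hP, rfl⟩
    · rw [ori_relen, hasWalk_relen]
      exact ⟨Q, hQ, rfl⟩
  have hmem : ∀ x ∈ G.1.map (relen f) ++ G.2.map (relen f), ∃ y ∈ G.1 ++ G.2,
      x.2.2 = f y.2.2 := by
    intro x hx
    rw [← List.map_append] at hx
    obtain ⟨y, hy, rfl⟩ := List.mem_map.1 hx
    exact ⟨y, hy, rfl⟩
  have hmin : min ((P.map fun x => f x.2.2).sum + (Q.map fun x => f x.2.2).sum)
      ((P'.map fun x => f x.2.2).sum + (Q'.map fun x => f x.2.2).sum) ∈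
      Cst (G.1.map (relen f)) (G.2.map (relen f)) s t := by
    rcases min_choice ((P.map fun x => f x.2.2).sum + (Q.map fun x => f x.2.2).sum)
      ((P'.map fun x => f x.2.2).sum + (Q'.map fun x => f x.2.2).sum) with h | h
    · rw [h]
      exact hC τ hτ P Q hP hQ
    · rw [h]
      exact hC τ' hτ' P' Q' hP' hQ'
  obtain ⟨k₁, k₂, h1, h2, h3⟩ := go_opt (mG G) L s t (G.2.map (relen f)) (G.1.map (relen f))
    (by rw [List.length_map, List.length_map]; rfl)
    (by
      intro x hx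
      obtain ⟨y, hy, hy'⟩ := hmem x hx
      rw [hy']
      exact (hf y hy).1)
    (by
      intro x hx
      obtain ⟨y, hy, hy'⟩ := hmem x hx
      rw [hy']
      exact (hf y hy).2) _ hmin
  rw [ori_relen, hasWalk_relen] at h1 h2
  obtain ⟨P₁, hP₁, hk₁⟩ := h1
  obtain ⟨Q₁, hQ₁, hk₂⟩ := h2
  refine ⟨P₁, Q₁, hP₁, hQ₁, ?_, ?_⟩
  · rw [hk₁, hk₂]
    exact h3.trans (min_le_left _ _)
  · rw [hk₁, hk₂]
    exact h3.trans (min_le_right _ _)

private theorem apx_sum1 (g : ℚ → ℕ) (c d : ℚ) : ∀ (P : List (ℕ × ℕ × ℚ))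
    (_ : ∀ x ∈ P, (g x.2.2 : ℚ) ≤ c + x.2.2 * d),
    (((P.map fun x => g x.2.2).sum : ℕ) : ℚ) ≤ P.length * c + lengthL P * d := by
  intro P
  induction P with
  | nil =>
    intro _
    simp [lengthL]
  | cons x P ih =>
    intro h
    have h1 := ih (fun y hy => h y (List.mem_cons_of_mem _ hy))
    have h2 := h x List.mem_cons_self
    have h3 : lengthL (x :: P) = x.2.2 + lengthL P := by
      unfold lengthL
      rw [List.map_cons, List.sum_cons]
    rw [List.map_cons, List.sum_cons, h3, List.length_cons, Nat.cast_add, Nat.cast_add,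
      Nat.cast_one]
    linarith

private theorem apx_sum2 (g : ℚ → ℕ) (d : ℚ) : ∀ (P : List (ℕ × ℕ × ℚ))
    (_ : ∀ x ∈ P, x.2.2 * d ≤ (g x.2.2 : ℚ)),
    lengthL P * d ≤ (((P.map fun x => g x.2.2).sum : ℕ) : ℚ) := by
  intro P
  induction P with
  | nil =>
    intro _
    simp [lengthL]
  | cons x P ih =>
    intro h
    have h1 := ih (fun y hy => h y (List.mem_cons_of_mem _ hy))
    have h2 := h x List.mem_cons_self
    have h3 : lengthL (x :: P) = x.2.2 + lengthL P := by
      unfold lengthL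
      rw [List.map_cons, List.sum_cons]
    rw [List.map_cons, List.sum_cons, h3, Nat.cast_add]
    linarith

private theorem apx_sum3 (g : ℚ → ℕ) (c : ℕ) : ∀ (P : List (ℕ × ℕ × ℚ))
    (_ : ∀ x ∈ P, g x.2.2 ≤ c), (P.map fun x => g x.2.2).sum ≤ P.length * c := by
  intro P
  induction P with
  | nil =>
    intro _
    simp
  | cons x P ih =>
    intro h
    have h1 := ih (fun y hy => h y (List.mem_cons_of_mem _ hy))
    have h2 := h x List.mem_cons_self
    rw [List.map_cons, List.sum_cons, List.length_cons]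
    linarith

private theorem apx_sum4 (g : ℚ → ℕ) {x : ℕ × ℕ × ℚ} : ∀ (P : List (ℕ × ℕ × ℚ))
    (_ : x ∈ P), g x.2.2 ≤ (P.map fun x => g x.2.2).sum := by
  intro P
  induction P with
  | nil =>
    intro h
    simp at h
  | cons y P ih =>
    intro h
    rw [List.map_cons, List.sum_cons]
    rcases List.mem_cons.1 h with h | h
    · rw [h]
      exact Nat.le_add_right _ _
    · exact (ih h).trans (Nat.le_add_left _ _)

private theorem apx_nn : ∀ (P : List (ℕ × ℕ × ℚ)) (_ : ∀ x ∈ P, 0 ≤ x.2.2),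
    0 ≤ lengthL P ∧ ∀ x ∈ P, x.2.2 ≤ lengthL P := by
  intro P
  induction P with
  | nil =>
    intro _
    refine ⟨le_of_eq rfl, fun x hx => ?_⟩
    simp at hx
  | cons y P ih =>
    intro h
    obtain ⟨h1, h2⟩ := ih (fun y hy => h y (List.mem_cons_of_mem _ hy))
    have h3 : lengthL (y :: P) = y.2.2 + lengthL P := by
      unfold lengthL
      rw [List.map_cons, List.sum_cons]
    have h4 := h y List.mem_cons_self
    rw [h3]
    refine ⟨by linarith, ?_⟩
    intro x hx
    rcases List.mem_cons.1 hx with hx | hx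
    · rw [hx]
      linarith
    · have := h2 x hx
      linarith

private theorem apx_final {k : ℕ} (hk : 0 < k) {a b c d : ℚ} (ha : 0 ≤ a) (hb : 0 ≤ b)
    (hc : 0 ≤ c) (hd : 0 ≤ d) (h : a + b ≤ (1 + 1 / (k : ℚ)) * (c + d)) :
    ENNReal.ofReal (a : ℝ) + ENNReal.ofReal (b : ℝ) ≤
      (1 + 1 / (k : ℝ≥0∞)) * (ENNReal.ofReal (c : ℝ) + ENNReal.ofReal (d : ℝ)) := by
  have ha' : (0 : ℝ) ≤ (a : ℝ) := by exact_mod_cast ha
  have hb' : (0 : ℝ) ≤ (b : ℝ) := by exact_mod_cast hb
  have hc' : (0 : ℝ) ≤ (c : ℝ) := by exact_mod_cast hc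
  have hd' : (0 : ℝ) ≤ (d : ℝ) := by exact_mod_cast hd
  have hk' : (0 : ℝ) < (k : ℝ) := by exact_mod_cast hk
  have h1 : (1 + 1 / (k : ℝ≥0∞)) = ENNReal.ofReal (1 + 1 / (k : ℝ)) := by
    rw [ENNReal.ofReal_add (by norm_num) (by positivity), ENNReal.ofReal_one,
      ENNReal.ofReal_div_of_pos hk', ENNReal.ofReal_one, ENNReal.ofReal_natCast]
  rw [h1, ← ENNReal.ofReal_add ha' hb', ← ENNReal.ofReal_add hc' hd',
    ← ENNReal.ofReal_mul (by positivity)]
  apply ENNReal.ofReal_le_ofReal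
  have h2 : ((a + b : ℚ) : ℝ) ≤ (((1 + 1 / (k : ℚ)) * (c + d) : ℚ) : ℝ) := Rat.cast_le.2 h
  push_cast at h2
  exact h2

theorem approxAlg_correct (k : ℕ) (hk : 0 < k) (G : MixedGraph) (s t : ℕ) (hG : Nonneg G) :
    (approxAlg k G s t).length = G.2.length ∧
      ∀ τ : List Bool, τ.length = G.2.length →
        roundTrip G (approxAlg k G s t) s t ≤ (1 + 1 / (k : ℝ≥0∞)) * roundTrip G τ s t := by
  have hlen : (approxAlg k G s t).length = G.2.length := by
    unfold approxAlg
    split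
    · rw [List.length_map]
    · split_ifs
      · rw [length_go, List.length_map]
      · rw [length_go, List.length_map]
  refine ⟨hlen, ?_⟩
  intro τ hτ
  by_cases hst : s = t
  · subst hst
    have h0 : ∀ σ, dist (orient G σ) s s = 0 := by
      intro σ
      have h := dist_le (H := orient G σ) (a := s) (b := s) (l := []) rfl
      have h2 : ENNReal.ofReal ((lengthL [] : ℚ) : ℝ) = 0 := by simp [lengthL]
      rw [h2] at h
      exact le_antisymm h bot_le
    have h1 : roundTrip G (approxAlg k G s s) s s = 0 := by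
      unfold roundTrip
      rw [h0, add_zero]
    rw [h1]
    exact bot_le
  by_cases hfin : roundTrip G τ s t = ⊤
  · rw [hfin, ENNReal.mul_top (by simp)]
    exact le_top
  have hd1 : dist (orient G τ) s t ≠ ⊤ := fun h => hfin (by unfold roundTrip; rw [h, top_add])
  have hd2 : dist (orient G τ) t s ≠ ⊤ := fun h => hfin (by unfold roundTrip; rw [h, add_top])
  obtain ⟨P, hP, hPd, hPl⟩ := exists_shortest _ (apx_nonneg hG τ) hd1
  obtain ⟨Q, hQ, hQd, hQl⟩ := exists_shortest _ (apx_nonneg hG τ) hd2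
  rw [apx_len hτ] at hPl hQl
  have hPne : P ≠ [] := by
    rintro rfl
    exact hst hP
  have hPn : ∀ x ∈ P, 0 ≤ x.2.2 := fun x hx => apx_nonneg hG τ x (mem_of_isWalkL hP x hx)
  have hQn : ∀ x ∈ Q, 0 ≤ x.2.2 := fun x hx => apx_nonneg hG τ x (mem_of_isWalkL hQ x hx)
  obtain ⟨hPs0, hPs⟩ := apx_nn P hPn
  obtain ⟨hQs0, hQs⟩ := apx_nn Q hQn
  have hm : 0 < mG G := lt_of_lt_of_le (List.length_pos_of_ne_nil hPne) hPl
  obtain ⟨y0, hy0⟩ := List.exists_mem_of_ne_nil P hPne
  obtain ⟨x0, hx0, hmax⟩ := Finset.exists_max_image (P ++ Q).toFinset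
    (fun x : ℕ × ℕ × ℚ => x.2.2) ⟨y0, List.mem_toFinset.2 (List.mem_append_left _ hy0)⟩
  rw [List.mem_toFinset] at hx0
  have hfeas : feas G s t x0.2.2 = true := (feas_iff G s t hst _).2
    ⟨τ, hτ, P, Q, hP, hQ, fun x hx => hmax x (List.mem_toFinset.2 hx)⟩
  have hx0L : x0.2.2 ∈ feasL G s t := by
    unfold feasL
    rw [List.mem_filter]
    refine ⟨?_, hfeas⟩
    have h1 : x0 ∈ orient G τ := by
      rcases List.mem_append.1 hx0 with h | h
      · exact mem_of_isWalkL hP _ h
      · exact mem_of_isWalkL hQ _ h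
    obtain ⟨y, hy, hy'⟩ := apx_mem h1
    exact List.mem_map.2 ⟨y, hy, hy'.symm⟩
  have hS : x0.2.2 ≤ lengthL P + lengthL Q := by
    rcases List.mem_append.1 hx0 with h | h
    · have := hPs _ h
      linarith
    · have := hQs _ h
      linarith
  rcases hthr : thr G s t with _ | l
  · exact (apx_thr_none hthr _ hx0L).elim
  obtain ⟨hl1, hl2⟩ := apx_thr_spec hthr
  have hlS : l ≤ lengthL P + lengthL Q := (hl2 _ hx0L).trans hS
  unfold feasL at hl1
  rw [List.mem_filter] at hl1
  obtain ⟨hl3, hfl⟩ := hl1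
  obtain ⟨σ₀, hσ₀, P₀, Q₀, hP₀, hQ₀, hle₀⟩ := (feas_iff G s t hst l).1 hfl
  obtain ⟨P', hP', hP'l, hP's, -⟩ := exists_short _ hP₀
  obtain ⟨Q', hQ', hQ'l, hQ's, -⟩ := exists_short _ hQ₀
  rw [apx_len hσ₀] at hP'l hQ'l
  have hPle : ∀ x ∈ P', x.2.2 ≤ l := fun x hx => hle₀ x (List.mem_append_left _ (hP's x hx))
  have hQle : ∀ x ∈ Q', x.2.2 ≤ l := fun x hx => hle₀ x (List.mem_append_right _ (hQ's x hx))
  have hPn' : ∀ x ∈ P', 0 ≤ x.2.2 := fun x hx => apx_nonneg hG σ₀ x (mem_of_isWalkL hP' x hx)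
  have hQn' : ∀ x ∈ Q', 0 ≤ x.2.2 := fun x hx => apx_nonneg hG σ₀ x (mem_of_isWalkL hQ' x hx)
  by_cases hl0 : l ≤ 0
  · have hσ : approxAlg k G s t = go (par (mG G) (4 * mG G + 1)) s t
        (G.1.map (relen (unitLen (mG G) l))) (G.2.map (relen (unitLen (mG G) l))) := by
      unfold approxAlg
      rw [hthr]
      exact if_pos hl0
    rw [hσ]
    obtain ⟨P₁, Q₁, hP₁, hQ₁, -, h4⟩ := apx_go G s t (4 * mG G + 1) (unitLen (mG G) l)
      (fun x _ => by
        unfold unitLen
        split_ifs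
        · exact ⟨one_pos, by omega⟩
        · exact ⟨by omega, le_refl _⟩) τ hτ P Q hP hQ σ₀ hσ₀ P' Q' hP' hQ'
    have h5 := apx_sum3 (unitLen (mG G) l) 1 P' (fun x hx => by
      unfold unitLen
      rw [if_pos (hPle x hx)])
    have h6 := apx_sum3 (unitLen (mG G) l) 1 Q' (fun x hx => by
      unfold unitLen
      rw [if_pos (hQle x hx)])
    have h7 : ∀ x ∈ P₁, x.2.2 * 1 ≤ ((0 : ℕ) : ℚ) := by
      intro x hx
      have h8 := apx_sum4 (unitLen (mG G) l) P₁ hx
      by_contra h9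
      have h10 : unitLen (mG G) l x.2.2 = 4 * mG G + 1 := by
        unfold unitLen
        rw [if_neg]
        intro h11
        apply h9
        rw [Nat.cast_zero, mul_one]
        exact h11.trans hl0
      omega
    have h7' : ∀ x ∈ Q₁, x.2.2 * 1 ≤ ((0 : ℕ) : ℚ) := by
      intro x hx
      have h8 := apx_sum4 (unitLen (mG G) l) Q₁ hx
      by_contra h9
      have h10 : unitLen (mG G) l x.2.2 = 4 * mG G + 1 := by
        unfold unitLen
        rw [if_neg]
        intro h11
        apply h9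
        rw [Nat.cast_zero, mul_one]
        exact h11.trans hl0
      omega
    have h8 := apx_sum2 (fun _ => 0) 1 P₁ h7
    have h9 := apx_sum2 (fun _ => 0) 1 Q₁ h7'
    simp only [List.map_const', List.sum_replicate, smul_zero, Nat.cast_zero, mul_one] at h8 h9
    have h10 : ENNReal.ofReal ((lengthL P₁ : ℚ) : ℝ) = 0 :=
      ENNReal.ofReal_of_nonpos (by exact_mod_cast h8)
    have h11 : ENNReal.ofReal ((lengthL Q₁ : ℚ) : ℝ) = 0 :=
      ENNReal.ofReal_of_nonpos (by exact_mod_cast h9)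
    unfold roundTrip
    calc _ ≤ ENNReal.ofReal ((lengthL P₁ : ℚ) : ℝ) + ENNReal.ofReal ((lengthL Q₁ : ℚ) : ℝ) :=
          add_le_add (dist_le hP₁) (dist_le hQ₁)
      _ = 0 := by rw [h10, h11, add_zero]
      _ ≤ _ := bot_le
  · have hlp : 0 < l := not_le.1 hl0
    have hσ : approxAlg k G s t =
        go (par (mG G) (4 * mG G * (4 * mG G * k) + 4 * mG G + 1)) s t
        (G.1.map (relen (scaleLen (mG G) k l))) (G.2.map (relen (scaleLen (mG G) k l))) := by
      unfold approxAlg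
      rw [hthr]
      exact if_neg hl0
    rw [hσ]
    have hN : (0 : ℚ) < ((4 * mG G * k : ℕ) : ℚ) := by
      have : 0 < 4 * mG G * k := by positivity
      exact_mod_cast this
    have hU : ∀ q : ℚ, 0 ≤ q →
        (scaleLen (mG G) k l q : ℚ) ≤ 1 + q * (((4 * mG G * k : ℕ) : ℚ) / l) := by
      intro q hq
      rw [apx_scale _ _ hlp hq]
      have h0 : 0 ≤ q * ((4 * mG G * k : ℕ) : ℚ) / l := by positivity
      have h1 := Nat.floor_le h0
      have h2 : ((min (4 * mG G * (4 * mG G * k) + 4 * mG G)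
          ⌊q * ((4 * mG G * k : ℕ) : ℚ) / l⌋₊ : ℕ) : ℚ) ≤
          (⌊q * ((4 * mG G * k : ℕ) : ℚ) / l⌋₊ : ℚ) := by
        exact_mod_cast min_le_right _ _
      rw [Nat.cast_add, Nat.cast_one, ← mul_div_assoc]
      linarith
    have hW : ∀ q : ℚ, 0 ≤ q →
        scaleLen (mG G) k l q ≤ 4 * mG G * (4 * mG G * k) + 4 * mG G →
        q * (((4 * mG G * k : ℕ) : ℚ) / l) ≤ (scaleLen (mG G) k l q : ℚ) := by
      intro q hq h1
      rw [apx_scale _ _ hlp hq] at h1 ⊢
      have h2 : min (4 * mG G * (4 * mG G * k) + 4 * mG G)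
          ⌊q * ((4 * mG G * k : ℕ) : ℚ) / l⌋₊ = ⌊q * ((4 * mG G * k : ℕ) : ℚ) / l⌋₊ := by
        rcases min_choice (4 * mG G * (4 * mG G * k) + 4 * mG G)
          ⌊q * ((4 * mG G * k : ℕ) : ℚ) / l⌋₊ with h | h
        · rw [h] at h1
          omega
        · exact h
      rw [h2, Nat.cast_add, Nat.cast_one, ← mul_div_assoc, add_comm]
      exact (Nat.lt_floor_add_one _).le
    have hB : ∀ q : ℚ, 0 ≤ q → scaleLen (mG G) k l q ≤
        4 * mG G * (4 * mG G * k) + 4 * mG G + 1 := by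
      intro q hq
      rw [apx_scale _ _ hlp hq, add_comm]
      exact Nat.add_le_add_right (min_le_left _ _) 1
    have hB1 : ∀ q : ℚ, 0 ≤ q → q ≤ l → scaleLen (mG G) k l q ≤ 4 * mG G * k + 1 := by
      intro q hq hql
      have h1 := hU q hq
      have h2 : q * (((4 * mG G * k : ℕ) : ℚ) / l) ≤ ((4 * mG G * k : ℕ) : ℚ) := by
        rw [← mul_div_assoc, div_le_iff₀ hlp, mul_comm]
        exact mul_le_mul_of_nonneg_left hql hN.le
      have h3 : (scaleLen (mG G) k l q : ℚ) ≤ ((4 * mG G * k + 1 : ℕ) : ℚ) := by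
        rw [Nat.cast_add, Nat.cast_one]
        linarith
      exact_mod_cast h3
    obtain ⟨P₁, Q₁, hP₁, hQ₁, h3, h4⟩ := apx_go G s t
      (4 * mG G * (4 * mG G * k) + 4 * mG G + 1) (scaleLen (mG G) k l)
      (fun x hx => ⟨by unfold scaleLen; omega, hB _ (hG x hx)⟩) τ hτ P Q hP hQ σ₀ hσ₀ P' Q' hP' hQ'
    have h5 := apx_sum3 (scaleLen (mG G) k l) (4 * mG G * k + 1) P'
      (fun x hx => hB1 _ (hPn' x hx) (hPle x hx))
    have h6 := apx_sum3 (scaleLen (mG G) k l) (4 * mG G * k + 1) Q'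
      (fun x hx => hB1 _ (hQn' x hx) (hQle x hx))
    have h5' : P'.length * (4 * mG G * k + 1) ≤ mG G * (4 * mG G * k + 1) :=
      Nat.mul_le_mul_right _ hP'l
    have h6' : Q'.length * (4 * mG G * k + 1) ≤ mG G * (4 * mG G * k + 1) :=
      Nat.mul_le_mul_right _ hQ'l
    have h7 : mG G * (4 * mG G * k + 1) + mG G * (4 * mG G * k + 1) ≤
        4 * mG G * (4 * mG G * k) + 4 * mG G := by
      have : 0 ≤ mG G * (4 * mG G * k) := Nat.zero_le _
      nlinarith
    have hM : (P₁.map fun x => scaleLen (mG G) k l x.2.2).sum +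
        (Q₁.map fun x => scaleLen (mG G) k l x.2.2).sum ≤
        4 * mG G * (4 * mG G * k) + 4 * mG G := by linarith
    have hPn1 : ∀ x ∈ P₁, 0 ≤ x.2.2 := fun x hx => apx_nonneg hG _ x (mem_of_isWalkL hP₁ x hx)
    have hQn1 : ∀ x ∈ Q₁, 0 ≤ x.2.2 := fun x hx => apx_nonneg hG _ x (mem_of_isWalkL hQ₁ x hx)
    have h8 := apx_sum2 (scaleLen (mG G) k l) (((4 * mG G * k : ℕ) : ℚ) / l) P₁
      (fun x hx => hW _ (hPn1 x hx)
        (((apx_sum4 (scaleLen (mG G) k l) P₁ hx).trans (Nat.le_add_right _ _)).trans hM))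
    have h9 := apx_sum2 (scaleLen (mG G) k l) (((4 * mG G * k : ℕ) : ℚ) / l) Q₁
      (fun x hx => hW _ (hQn1 x hx)
        (((apx_sum4 (scaleLen (mG G) k l) Q₁ hx).trans (Nat.le_add_left _ _)).trans hM))
    have h10 := apx_sum1 (scaleLen (mG G) k l) 1 (((4 * mG G * k : ℕ) : ℚ) / l) P
      (fun x hx => hU _ (hPn x hx))
    have h11 := apx_sum1 (scaleLen (mG G) k l) 1 (((4 * mG G * k : ℕ) : ℚ) / l) Q
      (fun x hx => hU _ (hQn x hx))
    have h12 : (((P₁.map fun x => scaleLen (mG G) k l x.2.2).sum : ℕ) : ℚ) +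
        (((Q₁.map fun x => scaleLen (mG G) k l x.2.2).sum : ℕ) : ℚ) ≤
        (((P.map fun x => scaleLen (mG G) k l x.2.2).sum : ℕ) : ℚ) +
        (((Q.map fun x => scaleLen (mG G) k l x.2.2).sum : ℕ) : ℚ) := by
      exact_mod_cast h3
    have hPl' : (P.length : ℚ) ≤ (mG G : ℚ) := by exact_mod_cast hPl
    have hQl' : (Q.length : ℚ) ≤ (mG G : ℚ) := by exact_mod_cast hQl
    have hd0 : 0 < ((4 * mG G * k : ℕ) : ℚ) / l := div_pos hN hlp
    have hmq : (0 : ℚ) < (mG G : ℚ) := by exact_mod_cast hm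
    have hkq : (0 : ℚ) < (k : ℚ) := by exact_mod_cast hk
    have h13 : (lengthL P₁ + lengthL Q₁) * (((4 * mG G * k : ℕ) : ℚ) / l) ≤
        2 * (mG G : ℚ) + (lengthL P + lengthL Q) * (((4 * mG G * k : ℕ) : ℚ) / l) := by
      linarith
    have h14 : 2 * (mG G : ℚ) ≤
        (1 / (k : ℚ)) * (lengthL P + lengthL Q) * (((4 * mG G * k : ℕ) : ℚ) / l) := by
      have e1 : (1 / (k : ℚ)) * (lengthL P + lengthL Q) * (((4 * mG G * k : ℕ) : ℚ) / l) =
          4 * (mG G : ℚ) * ((lengthL P + lengthL Q) / l) := by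
        push_cast
        field_simp
      rw [e1]
      have e2 : 1 ≤ (lengthL P + lengthL Q) / l := by
        rw [le_div_iff₀ hlp, one_mul]
        exact hlS
      nlinarith
    have h15 : lengthL P₁ + lengthL Q₁ ≤ (1 + 1 / (k : ℚ)) * (lengthL P + lengthL Q) := by
      apply le_of_mul_le_mul_right _ hd0
      have e3 : (1 + 1 / (k : ℚ)) * (lengthL P + lengthL Q) * (((4 * mG G * k : ℕ) : ℚ) / l) =
          (lengthL P + lengthL Q) * (((4 * mG G * k : ℕ) : ℚ) / l) +
          (1 / (k : ℚ)) * (lengthL P + lengthL Q) * (((4 * mG G * k : ℕ) : ℚ) / l) := by ring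
      rw [e3]
      linarith
    unfold roundTrip
    rw [hPd, hQd]
    exact (add_le_add (dist_le hP₁) (dist_le hQ₁)).trans
      (apx_final hk (apx_nn P₁ hPn1).1 (apx_nn Q₁ hQn1).1 hPs0 hQs0 h15)

end Pool.Agent.RTO
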