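import Pool.Agent.RTO.Unit

/-!
# Existence and functoriality of the basic system

`adj G z` has zero constant coefficients (positive lengths), so `1 - adj` is invertible: `D` its
inverse; `1 + wE * (D + D)` is a unit of the power series ring, `ξ e = wE ^ 2 * (unit)⁻¹` has zero
constant coefficient, hence so has `Xm G ξ * Cm D`; `V₁ = Cm D * (1 + Xm G ξ * Cm D)⁻¹`.
`map`: apply the ring hom `PowerSeries.map φ` to all entries of the three equations
(`Matrix.map_mul`, `Matrix.map_sub`, `Matrix.map_one`, `PowerSeries.map_monomial`, `map_sum`).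
-/

namespace Pool.Agent.RTO

open PowerSeries

variable {V A E : Type} [Fintype V] [DecidableEq V] [Fintype A] [Fintype E] {R R' : Type}
  [CommRing R] [CommRing R'] {G : MGr V A E}

private theorem SysEx_mon {n : ℕ} (hn : 0 < n) (a : R) :
    constantCoeff (PowerSeries.monomial n a) = 0 := by
  rw [← coeff_zero_eq_constantCoeff_apply, coeff_monomial, if_neg hn.ne]

theorem constantCoeff_wt (hG : G.Pos) (z : A ⊕ E → R) (d : Dart A E) :
    constantCoeff (wt G z d) = 0 := by
  unfold wt
  apply SysEx_mon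
  rcases d with a | e
  · exact hG.1 a
  · exact hG.2 e.1

theorem constantCoeff_wE (hG : G.Pos) (z : A ⊕ E → R) (e : E) :
    constantCoeff (wE G z e) = 0 := by
  unfold wE
  exact SysEx_mon (hG.2 e) _

theorem constantCoeff_adj (hG : G.Pos) (z : A ⊕ E → R) (a b : V) :
    constantCoeff (adj G z a b) = 0 := by
  unfold adj
  rw [map_sum]
  refine Finset.sum_eq_zero fun d _ => ?_
  split_ifs
  · exact constantCoeff_wt hG z d
  · exact map_zero _

theorem Sys.constantCoeff_ξ {z : A ⊕ E → R} {D V₁ : Matrix V V R⟦X⟧} {ξ : E → R⟦X⟧}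
    (hG : G.Pos) (h : Sys G z D V₁ ξ) (e : E) : constantCoeff (ξ e) = 0 := by
  have h1 := congrArg (constantCoeff (R := R)) (h.hξ e)
  rw [map_mul, map_add, map_one, map_mul, constantCoeff_wE hG, zero_mul, add_zero, mul_one,
    map_pow, constantCoeff_wE hG, zero_pow two_ne_zero] at h1
  exact h1

theorem Sys.constantCoeff_Xm {z : A ⊕ E → R} {D V₁ : Matrix V V R⟦X⟧} {ξ : E → R⟦X⟧}
    (hG : G.Pos) (h : Sys G z D V₁ ξ) (a b : V) : constantCoeff (Xm G ξ a b) = 0 := by
  unfold Xm
  rw [map_sum]
  refine Finset.sum_eq_zero fun e _ => ?_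
  rw [map_add]
  split_ifs <;> simp [Sys.constantCoeff_ξ hG h e]

theorem exists_sys (hG : G.Pos) (z : A ⊕ E → R) :
    ∃ (D V₁ : Matrix V V R⟦X⟧) (ξ : E → R⟦X⟧), Sys G z D V₁ ξ := by
  have h1 : IsUnit (1 + (-adj G z)) := isUnit_one_add (-adj G z) (by
    intro a b
    rw [Matrix.neg_apply, map_neg, constantCoeff_adj hG, neg_zero])
  obtain ⟨D, hD⟩ := h1.exists_left_inv
  have h2 : ∀ e, IsUnit (1 + wE G z e * (D (G.p e) (G.q e) + D (G.q e) (G.p e))) := by
    intro e
    rw [PowerSeries.isUnit_iff_constantCoeff, map_add, map_mul, constantCoeff_wE hG, zero_mul,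
      map_one, add_zero]
    exact isUnit_one
  choose u hu using fun e => (h2 e).exists_left_inv
  set ξ : E → R⟦X⟧ := fun e => wE G z e ^ 2 * u e with hξ
  have hξ0 : ∀ e, constantCoeff (ξ e) = 0 := by
    intro e
    rw [hξ]
    simp only
    rw [map_mul, map_pow, constantCoeff_wE hG, zero_pow two_ne_zero, zero_mul]
  have h3 : IsUnit (1 + Xm G ξ * Cm D) := by
    apply isUnit_one_add
    intro a b
    rw [Matrix.mul_apply, map_sum]
    refine Finset.sum_eq_zero fun c _ => ?_
    have h4 : constantCoeff (Xm G ξ a c) = 0 := by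
      unfold Xm
      rw [map_sum]
      refine Finset.sum_eq_zero fun e _ => ?_
      rw [map_add]
      split_ifs <;> simp [hξ0 e]
    rw [map_mul, h4, zero_mul]
  obtain ⟨P, hP⟩ := h3.exists_left_inv
  refine ⟨D, Cm D * P, ξ, ?_, ?_, ?_⟩
  · rw [sub_eq_add_neg]
    exact hD
  · intro e
    rw [hξ]
    simp only
    rw [mul_assoc, hu e, mul_one]
  · rw [mul_assoc, hP, mul_one]

theorem Sys.map {z : A ⊕ E → R} {D V₁ : Matrix V V R⟦X⟧} {ξ : E → R⟦X⟧} (φ : R →+* R')
    (h : Sys G z D V₁ ξ) :
    Sys G (fun i => φ (z i)) (fun a b => PowerSeries.map φ (D a b))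
      (fun a b => PowerSeries.map φ (V₁ a b)) (fun e => PowerSeries.map φ (ξ e)) := by
  have hwt : ∀ d, wt G (fun i => φ (z i)) d = PowerSeries.map φ (wt G z d) := by
    intro d
    unfold wt
    ext1 n
    rw [coeff_map, coeff_monomial, coeff_monomial]
    split_ifs
    · rfl
    · exact (map_zero φ).symm
  have hwE : ∀ e, wE G (fun i => φ (z i)) e = PowerSeries.map φ (wE G z e) := by
    intro e
    unfold wE
    ext1 n
    rw [coeff_map, coeff_monomial, coeff_monomial]
    split_ifs
    · rfl
    · exact (map_zero φ).symm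
  have hadj : ∀ a b, adj G (fun i => φ (z i)) a b = PowerSeries.map φ (adj G z a b) := by
    intro a b
    unfold adj
    rw [map_sum]
    refine Finset.sum_congr rfl fun d _ => ?_
    rw [apply_ite (PowerSeries.map φ), map_zero, hwt]
  have hXm : ∀ a b, Xm G (fun e => PowerSeries.map φ (ξ e)) a b =
      PowerSeries.map φ (Xm G ξ a b) := by
    intro a b
    unfold Xm
    rw [map_sum]
    refine Finset.sum_congr rfl fun e _ => ?_
    rw [map_add, apply_ite (PowerSeries.map φ), apply_ite (PowerSeries.map φ), map_zero]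
  refine ⟨?_, ?_, ?_⟩
  · ext1 a b
    have h1 := congrFun (congrFun h.hD a) b
    rw [Matrix.mul_apply] at h1 ⊢
    have h2 := congrArg (PowerSeries.map φ) h1
    rw [map_sum] at h2
    have h3 : PowerSeries.map φ ((1 : Matrix V V R⟦X⟧) a b) = (1 : Matrix V V R'⟦X⟧) a b := by
      rw [Matrix.one_apply, Matrix.one_apply, apply_ite (PowerSeries.map φ), map_zero, map_one]
    rw [← h3, ← h2]
    refine Finset.sum_congr rfl fun c _ => ?_
    rw [map_mul, Matrix.sub_apply, Matrix.sub_apply, map_sub, hadj]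
    congr 2
    rw [Matrix.one_apply, Matrix.one_apply, apply_ite (PowerSeries.map φ), map_zero, map_one]
  · intro e
    rw [hwE]
    show PowerSeries.map φ (ξ e) * (1 + PowerSeries.map φ (wE G z e) *
      (PowerSeries.map φ (D (G.p e) (G.q e)) + PowerSeries.map φ (D (G.q e) (G.p e)))) = _
    rw [← map_add, ← map_mul, ← map_one (PowerSeries.map φ), ← map_add, ← map_mul, h.hξ e, map_pow]
  · ext1 a b
    have h1 := congrFun (congrFun h.hV a) b
    rw [Matrix.mul_apply] at h1 ⊢
    have h2 := congrArg (PowerSeries.map φ) h1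
    rw [map_sum] at h2
    have h3 : Cm (fun a b => PowerSeries.map φ (D a b)) a b = PowerSeries.map φ (Cm D a b) := by
      unfold Cm
      rw [map_mul]
    rw [h3, ← h2]
    refine Finset.sum_congr rfl fun c _ => ?_
    rw [map_mul, Matrix.add_apply, Matrix.add_apply, map_add]
    congr 2
    · rw [Matrix.one_apply, Matrix.one_apply, apply_ite (PowerSeries.map φ), map_zero, map_one]
    · rw [Matrix.mul_apply, Matrix.mul_apply, map_sum]
      refine Finset.sum_congr rfl fun c' _ => ?_
      rw [map_mul, hXm]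
      congr 1
      unfold Cm
      rw [map_mul]

end Pool.Agent.RTO
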