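import Pool.Agent.RTO.BridgeB
import Pool.Agent.RTO.SysEx

/-!
# `V₁` vanishes across an undirected bridge

Apply `bridge_zero` with `A = adj G z`, `X = Xm G ξ`, `y = wE G z e₀`, `ξ = ξ e₀`, and
`(u, w) = (p e₀, q e₀)` if `p e₀ ∈ U`, else `(q e₀, p e₀)` (then use `add_comm` in `hξ`).
All other darts crossing `U` have weight `0`; for undirected `e ≠ e₀` crossing `U`: `wE e = 0`, so
`ξ e * 1 = 0`.
-/

namespace Pool.Agent.RTO

open PowerSeries

variable {V A E : Type} [Fintype V] [DecidableEq V] [Fintype A] [Fintype E] {R : Type}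
  [CommRing R] {G : MGr V A E} {z : A ⊕ E → R} {D V₁ : Matrix V V R⟦X⟧} {ξ : E → R⟦X⟧}

private theorem SysBr_adj (U : Set V) (e₀ : E)
    (hz : ∀ d : Dart A E, G.Crosses U d → und d ≠ Sum.inr e₀ → z (und d) = 0)
    (i : Bool) (a b : V) (hab : ¬ (a ∈ U ↔ b ∈ U))
    (h2 : G.hd (Sum.inr (e₀, !i) : Dart A E) ≠ a) :
    adj G z a b = if a = G.hd (Sum.inr (e₀, i) : Dart A E) ∧
      b = G.tl (Sum.inr (e₀, i) : Dart A E) then wE G z e₀ else 0 := by
  classical
  unfold adj
  rw [Finset.sum_eq_single (Sum.inr (e₀, i) : Dart A E)]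
  · by_cases h : G.hd (Sum.inr (e₀, i) : Dart A E) = a ∧ G.tl (Sum.inr (e₀, i) : Dart A E) = b
    · rw [if_pos h, if_pos ⟨h.1.symm, h.2.symm⟩]
      rfl
    · rw [if_neg h, if_neg (fun h' => h ⟨h'.1.symm, h'.2.symm⟩)]
  · intro d _ hd
    split_ifs with h
    · have hcr : G.Crosses U d := by
        unfold MGr.Crosses
        rw [h.1, h.2]
        exact hab
      have hne : und d ≠ Sum.inr e₀ := by
        intro hu
        rcases d with a' | ⟨e, j⟩
        · simp [und] at hu
        · simp only [und, Sum.inr.injEq] at hu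
          subst hu
          by_cases hj : j = i
          · subst hj
            exact hd rfl
          · have : j = !i := by
              cases i <;> cases j <;> simp_all
            subst this
            exact h2 h.1
      unfold wt
      rw [hz d hcr hne, map_zero]
    · rfl
  · intro h
    exact absurd (Finset.mem_univ _) h

private theorem SysBr_ξ (h : Sys G z D V₁ ξ) (U : Set V) (e₀ : E)
    (hz : ∀ d : Dart A E, G.Crosses U d → und d ≠ Sum.inr e₀ → z (und d) = 0)
    (e : E) (hne : e ≠ e₀) (hc : ¬ (G.p e ∈ U ↔ G.q e ∈ U)) : ξ e = 0 := by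
  have h1 : z (Sum.inr e) = 0 := by
    apply hz (Sum.inr (e, true) : Dart A E)
    · exact hc
    · intro hu
      apply hne
      simpa [und] using hu
  have h2 : wE G z e = 0 := by
    unfold wE
    rw [h1, map_zero]
  have h3 := h.hξ e
  rw [h2] at h3
  simpa using h3

theorem Sys.bridge (hG : G.Pos) (h : Sys G z D V₁ ξ) (U : Set V) (e₀ : E)
    (hz : ∀ d : Dart A E, G.Crosses U d → und d ≠ Sum.inr e₀ → z (und d) = 0)
    (he : ¬ (G.p e₀ ∈ U ↔ G.q e₀ ∈ U)) : ∀ a ∈ U, ∀ b ∉ U, V₁ a b = 0 := by
  classical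
  by_cases hp : G.p e₀ ∈ U
  · have hq : G.q e₀ ∉ U := fun hq => he ⟨fun _ => hq, fun _ => hp⟩
    refine bridge_zero (adj G z) D (Xm G ξ) V₁ (constantCoeff_adj hG z)
      (Sys.constantCoeff_Xm hG h) h.hD h.hV U (G.p e₀) (G.q e₀) hp hq (wE G z e₀) (ξ e₀)
      (constantCoeff_wE hG z e₀) (h.hξ e₀) ?_ ?_ ?_
    · intro a ha b hb
      refine SysBr_adj U e₀ hz true a b (fun hab => hb (hab.1 ha)) ?_
      rintro rfl
      exact hq ha
    · intro a ha b hb
      refine SysBr_adj U e₀ hz false a b (fun hab => ha (hab.2 hb)) ?_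
      rintro rfl
      exact ha hp
    · intro a ha b hb
      unfold Xm
      rw [Finset.sum_eq_single e₀]
      · have h1 : ¬ (G.q e₀ = a ∧ G.p e₀ = b) := by
          rintro ⟨h1, _⟩
          rw [← h1] at ha
          exact hq ha
        rw [if_neg h1, add_zero]
        by_cases h2 : G.p e₀ = a ∧ G.q e₀ = b
        · rw [if_pos h2, if_pos ⟨h2.1.symm, h2.2.symm⟩]
        · rw [if_neg h2, if_neg (fun h' => h2 ⟨h'.1.symm, h'.2.symm⟩)]
      · intro e _ hne
        by_cases h1 : G.p e = a ∧ G.q e = b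
        · have h0 : ξ e = 0 := by
            apply SysBr_ξ h U e₀ hz e hne
            rw [h1.1, h1.2]
            exact fun hab => hb (hab.1 ha)
          simp [h0]
        · by_cases h2 : G.q e = a ∧ G.p e = b
          · have h0 : ξ e = 0 := by
              apply SysBr_ξ h U e₀ hz e hne
              rw [h2.1, h2.2]
              exact fun hab => hb (hab.2 ha)
            simp [h0]
          · rw [if_neg h1, if_neg h2, add_zero]
      · intro h'
        exact absurd (Finset.mem_univ _) h'
  · have hq : G.q e₀ ∈ U := by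
      by_contra hq
      exact he ⟨fun h' => absurd h' hp, fun h' => absurd h' hq⟩
    refine bridge_zero (adj G z) D (Xm G ξ) V₁ (constantCoeff_adj hG z)
      (Sys.constantCoeff_Xm hG h) h.hD h.hV U (G.q e₀) (G.p e₀) hq hp (wE G z e₀) (ξ e₀)
      (constantCoeff_wE hG z e₀) ?_ ?_ ?_ ?_
    · rw [add_comm (D (G.q e₀) (G.p e₀))]
      exact h.hξ e₀
    · intro a ha b hb
      refine SysBr_adj U e₀ hz false a b (fun hab => hb (hab.1 ha)) ?_
      rintro rfl
      exact hp ha
    · intro a ha b hb
      refine SysBr_adj U e₀ hz true a b (fun hab => ha (hab.2 hb)) ?_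
      rintro rfl
      exact ha hq
    · intro a ha b hb
      unfold Xm
      rw [Finset.sum_eq_single e₀]
      · have h1 : ¬ (G.p e₀ = a ∧ G.q e₀ = b) := by
          rintro ⟨h1, _⟩
          rw [← h1] at ha
          exact hp ha
        rw [if_neg h1, zero_add]
        by_cases h2 : G.q e₀ = a ∧ G.p e₀ = b
        · rw [if_pos h2, if_pos ⟨h2.1.symm, h2.2.symm⟩]
        · rw [if_neg h2, if_neg (fun h' => h2 ⟨h'.1.symm, h'.2.symm⟩)]
      · intro e _ hne
        by_cases h1 : G.p e = a ∧ G.q e = b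
        · have h0 : ξ e = 0 := by
            apply SysBr_ξ h U e₀ hz e hne
            rw [h1.1, h1.2]
            exact fun hab => hb (hab.1 ha)
          simp [h0]
        · by_cases h2 : G.q e = a ∧ G.p e = b
          · have h0 : ξ e = 0 := by
              apply SysBr_ξ h U e₀ hz e hne
              rw [h2.1, h2.2]
              exact fun hab => hb (hab.2 ha)
            simp [h0]
          · rw [if_neg h1, if_neg h2, add_zero]
      · intro h'
        exact absurd (Finset.mem_univ _) h'

end Pool.Agent.RTO
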