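import Pool.Agent.RTO.SupV
import Pool.Agent.RTO.SysBr

/-!
# Monomials whose support has a separating undirected edge do not occur in `V₁ s t`

If `e₀` does not cross `U` (both ends on one side): a nonzero coefficient gives by `supV` a walk
`P : s → t` with `und d ∈ m.support` for `d ∈ P`, which crosses `U` (`exists_crosses`) in a dart `d`;
`und d = inr e₀` by `hm`, so `e₀` crosses `U`, contradiction.
If `e₀` crosses `U`: let `φ : MvPolynomial ι ℤ →+* MvPolynomial ι ℤ` send `X i` to `X i` for
`i ∈ m.support` and to `0` otherwise (MvPolynomial.eval₂Hom / aeval). Then `coeff m (φ f) = coeff m f`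
for every `f` (check on monomials, or MvPolynomial.induction). `Sys.map φ` is a system with weights
`φ (X i)`, to which `Sys.bridge` applies, so `φ` kills all coefficients of `V₁ s t`.
-/

namespace Pool.Agent.RTO

open PowerSeries

variable {V A E : Type} [Fintype V] [DecidableEq V] [Fintype A] [Fintype E]
  {G : MGr V A E} {D V₁ : Matrix V V (MvPolynomial (A ⊕ E) ℤ)⟦X⟧}
  {ξ : E → (MvPolynomial (A ⊕ E) ℤ)⟦X⟧}

open Classical in
private noncomputable def kil (m : A ⊕ E →₀ ℕ) : MvPolynomial (A ⊕ E) ℤ →+* MvPolynomial (A ⊕ E) ℤ :=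
  (MvPolynomial.aeval (R := ℤ) (fun i => if i ∈ m.support then MvPolynomial.X i else 0) :
    MvPolynomial (A ⊕ E) ℤ →ₐ[ℤ] MvPolynomial (A ⊕ E) ℤ)

omit [Fintype A] [Fintype E] in
private theorem kil_X (m : A ⊕ E →₀ ℕ) (i : A ⊕ E) (h : i ∉ m.support) :
    kil m (MvPolynomial.X i) = 0 := by
  classical
  show (MvPolynomial.aeval (R := ℤ) (fun i => if i ∈ m.support then MvPolynomial.X i else 0) :
    MvPolynomial (A ⊕ E) ℤ →ₐ[ℤ] MvPolynomial (A ⊕ E) ℤ) (MvPolynomial.X i) = 0
  rw [MvPolynomial.aeval_X, if_neg h]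

omit [Fintype A] [Fintype E] in
private theorem kil_coeff (m : A ⊕ E →₀ ℕ) (f : MvPolynomial (A ⊕ E) ℤ) :
    MvPolynomial.coeff m (kil m f) = MvPolynomial.coeff m f := by
  classical
  induction f using MvPolynomial.induction_on' with
  | monomial n c =>
    show MvPolynomial.coeff m ((MvPolynomial.aeval (R := ℤ)
      (fun i => if i ∈ m.support then MvPolynomial.X i else 0) :
      MvPolynomial (A ⊕ E) ℤ →ₐ[ℤ] MvPolynomial (A ⊕ E) ℤ) (MvPolynomial.monomial n c)) = _
    rw [MvPolynomial.aeval_monomial]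
    by_cases h : n.support ⊆ m.support
    · have e : (n.prod fun i k => (if i ∈ m.support then MvPolynomial.X i else 0) ^ k)
          = (n.prod fun i k => (MvPolynomial.X i : MvPolynomial (A ⊕ E) ℤ) ^ k) := by
        apply Finsupp.prod_congr
        intro i hi
        rw [if_pos (h hi)]
      rw [e, MvPolynomial.monomial_eq]
      rfl
    · obtain ⟨i, hi1, hi2⟩ := Finset.not_subset.1 h
      have e : (n.prod fun i k => (if i ∈ m.support then MvPolynomial.X i else 0) ^ k)
          = (0 : MvPolynomial (A ⊕ E) ℤ) := by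
        apply Finset.prod_eq_zero hi1
        show (if i ∈ m.support then MvPolynomial.X i else 0) ^ (n i) = (0 : MvPolynomial (A ⊕ E) ℤ)
        rw [if_neg hi2, zero_pow]
        exact Finsupp.mem_support_iff.1 hi1
      rw [e, mul_zero, MvPolynomial.coeff_zero, MvPolynomial.coeff_monomial, if_neg]
      rintro rfl
      exact h (Finset.Subset.refl _)
  | add f g hf hg => rw [map_add, MvPolynomial.coeff_add, MvPolynomial.coeff_add, hf, hg]

theorem bad_zero (hG : G.Pos) (h : Sys G MvPolynomial.X D V₁ ξ) {s t : V} (U : Set V)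
    (hs : s ∈ U) (ht : t ∉ U) (e₀ : E) (m : A ⊕ E →₀ ℕ) (k : ℕ)
    (hm : ∀ d : Dart A E, und d ∈ m.support → G.Crosses U d → und d = Sum.inr e₀) :
    cf k m (V₁ s t) = 0 := by
  by_cases he : (G.p e₀ ∈ U ↔ G.q e₀ ∈ U)
  · by_contra hne
    obtain ⟨P, Q, hP, hQ, hcnt, -⟩ := supV hG h k s t m hne
    obtain ⟨d, hd, hcr⟩ := exists_crosses hP (U := U) (by tauto)
    have hsup : und d ∈ m.support := by
      have h1 : und d ∈ (cnt P).support := mem_support_cnt.2 ⟨d, hd, rfl⟩
      rw [Finsupp.mem_support_iff] at h1 ⊢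
      rw [← hcnt, Finsupp.add_apply]
      omega
    have h2 := hm d hsup hcr
    apply hcr
    rcases d with a | ⟨e, b⟩
    · simp [und] at h2
    · have h3 : e = e₀ := by simpa [und] using h2
      subst h3
      cases b
      · exact he.symm
      · exact he
  · have hmap := Sys.map (kil m) h
    have hb := Sys.bridge hG hmap U e₀ (by
      intro d hd hne
      exact kil_X m _ (fun h' => hne (hm d h' hd))) he s hs t ht
    unfold cf
    rw [← kil_coeff m]
    have h3 : PowerSeries.coeff k (PowerSeries.map (kil m) (V₁ s t)) = 0 := by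
      have : PowerSeries.map (kil m) (V₁ s t) = 0 := hb
      rw [this, map_zero]
    rw [PowerSeries.coeff_map] at h3
    rw [h3, MvPolynomial.coeff_zero]

end Pool.Agent.RTO
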