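import Pool.Agent.RTO.SysEq

/-!
# Bound for the number of pairs of walks

With all weights 1: `0 ≤ coeff k (D a b) ≤ M ^ k`, `M = Fintype.card (Dart A E)`, by strong induction
on `k` (`Sys.D_left`, `coeff k (wt d * f) = coeff (k - len d) f` if `len d ≤ k`, else `0`; for `k ≥ 1`
at most `M` terms `≤ M ^ (k - 1)`; for `M = 0`: `D = 1`). Then
`coeff k (C a b) ≤ (k + 1) * M ^ k ≤ 2 ^ k * (2 ^ M) ^ k`.
-/

namespace Pool.Agent.RTO

open PowerSeries

variable {V A E : Type} [Fintype V] [DecidableEq V] [Fintype A] [Fintype E] {G : MGr V A E}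
  {D V₁ : Matrix V V ℤ⟦X⟧} {ξ : E → ℤ⟦X⟧}

private theorem coeff_wt_mul (d : Dart A E) (f : ℤ⟦X⟧) (k : ℕ) :
    PowerSeries.coeff k (wt G (fun _ => (1 : ℤ)) d * f) =
      if G.len d ≤ k then PowerSeries.coeff (k - G.len d) f else 0 := by
  unfold wt
  rw [← PowerSeries.X_pow_eq, PowerSeries.coeff_X_pow_mul']

private theorem len_pos' (hG : G.Pos) (d : Dart A E) : 0 < G.len d := by
  rcases d with a | ⟨e, b⟩
  · exact hG.1 a
  · exact hG.2 e

private theorem coeff_D_bd (hG : G.Pos) (h : Sys G (fun _ => (1 : ℤ)) D V₁ ξ) (k : ℕ) :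
    ∀ a b : V, 0 ≤ PowerSeries.coeff k (D a b) ∧
      PowerSeries.coeff k (D a b) ≤ (Fintype.card (Dart A E) : ℤ) ^ k := by
  induction k using Nat.strong_induction_on with
  | _ k ih =>
    intro a b
    have hterm : ∀ d : Dart A E, 0 ≤ PowerSeries.coeff k (if G.hd d = a then
        wt G (fun _ => (1 : ℤ)) d * D (G.tl d) b else 0) ∧
        PowerSeries.coeff k (if G.hd d = a then
        wt G (fun _ => (1 : ℤ)) d * D (G.tl d) b else 0) ≤
          if k = 0 then 0 else (Fintype.card (Dart A E) : ℤ) ^ (k - 1) := by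
      intro d
      have hM : (1 : ℤ) ≤ (Fintype.card (Dart A E) : ℤ) := by
        have : 0 < Fintype.card (Dart A E) := Fintype.card_pos_iff.mpr ⟨d⟩
        exact_mod_cast this
      have h0 : (0 : ℤ) ≤ if k = 0 then 0 else (Fintype.card (Dart A E) : ℤ) ^ (k - 1) := by
        split_ifs
        · exact le_refl _
        · positivity
      have hl := len_pos' hG d
      by_cases h1 : G.hd d = a
      · rw [if_pos h1, coeff_wt_mul]
        by_cases h2 : G.len d ≤ k
        · rw [if_pos h2]
          have h3 := ih (k - G.len d) (by omega) (G.tl d) b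
          refine ⟨h3.1, h3.2.trans ?_⟩
          rw [if_neg (by omega)]
          exact pow_le_pow_right₀ hM (by omega)
        · rw [if_neg h2]
          exact ⟨le_refl _, h0⟩
      · rw [if_neg h1]
        simp only [map_zero]
        exact ⟨le_refl _, h0⟩
    rw [Sys.D_left hG h a b, map_add, map_sum]
    have h4 : PowerSeries.coeff k (if a = b then (1 : ℤ⟦X⟧) else 0) =
        if a = b ∧ k = 0 then 1 else 0 := by
      by_cases h5 : a = b
      · simp [h5, PowerSeries.coeff_one]
      · simp [h5]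
    rw [h4]
    have h6 : 0 ≤ ∑ d : Dart A E, PowerSeries.coeff k (if G.hd d = a then
        wt G (fun _ => (1 : ℤ)) d * D (G.tl d) b else 0) :=
      Finset.sum_nonneg fun d _ => (hterm d).1
    have h7 : ∑ d : Dart A E, PowerSeries.coeff k (if G.hd d = a then
        wt G (fun _ => (1 : ℤ)) d * D (G.tl d) b else 0) ≤ ∑ _d : Dart A E,
          if k = 0 then 0 else (Fintype.card (Dart A E) : ℤ) ^ (k - 1) :=
      Finset.sum_le_sum fun d _ => (hterm d).2
    rw [Finset.sum_const, nsmul_eq_mul, Finset.card_univ] at h7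
    constructor
    · have : (0 : ℤ) ≤ if a = b ∧ k = 0 then 1 else 0 := by split_ifs <;> norm_num
      exact add_nonneg this h6
    · by_cases hk : k = 0
      · rw [if_pos hk] at h7
        have : (if a = b ∧ k = 0 then (1 : ℤ) else 0) ≤ 1 := by split_ifs <;> norm_num
        have h8 : (Fintype.card (Dart A E) : ℤ) ^ k = 1 := by rw [hk, pow_zero]
        rw [h8]
        linarith
      · rw [if_neg hk] at h7
        have : (if a = b ∧ k = 0 then (1 : ℤ) else 0) = 0 := if_neg (fun h9 => hk h9.2)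
        rw [this, zero_add]
        have h8 : (Fintype.card (Dart A E) : ℤ) ^ k =
            (Fintype.card (Dart A E) : ℤ) * (Fintype.card (Dart A E) : ℤ) ^ (k - 1) := by
          rw [← pow_succ']
          congr 1
          omega
        rw [h8]
        exact h7

theorem coeff_C_le (hG : G.Pos) (h : Sys G (fun _ => (1 : ℤ)) D V₁ ξ) (a b : V) (k : ℕ) :
    PowerSeries.coeff k (Cm D a b) ≤ 2 ^ (k * (Fintype.card (Dart A E) + 1)) := by
  unfold Cm
  rw [PowerSeries.coeff_mul]
  have h1 : ∀ p ∈ Finset.HasAntidiagonal.antidiagonal k,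
      PowerSeries.coeff p.1 (D a b) * PowerSeries.coeff p.2 (D b a) ≤
        (Fintype.card (Dart A E) : ℤ) ^ k := by
    intro p hp
    have hp' := Finset.HasAntidiagonal.mem_antidiagonal.mp hp
    have h2 := coeff_D_bd hG h p.1 a b
    have h3 := coeff_D_bd hG h p.2 b a
    rw [← hp', pow_add]
    exact mul_le_mul h2.2 h3.2 h3.1 (by positivity)
  refine (Finset.sum_le_sum h1).trans ?_
  rw [Finset.sum_const, nsmul_eq_mul, Finset.Nat.card_antidiagonal]
  have h4 : ((k + 1 : ℕ) : ℤ) ≤ 2 ^ k := by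
    have : k + 1 ≤ 2 ^ k := Nat.lt_two_pow_self
    exact_mod_cast this
  have h5 : (Fintype.card (Dart A E) : ℤ) ^ k ≤ (2 ^ Fintype.card (Dart A E)) ^ k := by
    have : Fintype.card (Dart A E) ≤ 2 ^ Fintype.card (Dart A E) := Nat.lt_two_pow_self.le
    have h6 := Nat.pow_le_pow_left this k
    exact_mod_cast h6
  calc ((k + 1 : ℕ) : ℤ) * (Fintype.card (Dart A E) : ℤ) ^ k
      ≤ 2 ^ k * (2 ^ Fintype.card (Dart A E)) ^ k :=
        mul_le_mul h4 h5 (by positivity) (by positivity)
    _ = 2 ^ (k * (Fintype.card (Dart A E) + 1)) := by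
        rw [← pow_mul, ← pow_add]
        congr 1
        ring

end Pool.Agent.RTO
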