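import Pool.Agent.RTO.Unit

/-!
# Factorisation of `D` over a bridge

For `b ∉ U` entry `(a, b)` (`a ∈ U`) of `D * (1 - A) = 1` gives
`D a b = D a u * y * [b = w] + ∑ c ∉ U, D a c * A c b`, and entry `(w, b)` gives
`D w b = [w = b] + D w u * y * [b = w] + ∑ c ∉ U, D w c * A c b`.
Hence `v b = D a b * (1 + y * D w u) - y * D a u * D w b` (`b ∉ U`; `v b = 0` for `b ∈ U`) satisfies
`v b = ∑ c, v c * N c b` with `N c b = A c b` if `c, b ∉ U` and `0` otherwise; `eq_zero_of_fix`.
-/

namespace Pool.Agent.RTO

open PowerSeries

variable {V : Type} [Fintype V] [DecidableEq V] {R : Type} [CommRing R]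

private theorem entry_D (A D : Matrix V V R⟦X⟧) (hD : D * (1 - A) = 1) (a b : V) :
    D a b = (if a = b then 1 else 0) + ∑ c, D a c * A c b := by
  have h1 : D = 1 + D * A := by
    rw [mul_sub, mul_one] at hD
    rw [← hD]
    abel
  have h2 := congrFun (congrFun h1 a) b
  rw [Matrix.add_apply, Matrix.one_apply, Matrix.mul_apply] at h2
  exact h2

open Classical in
private theorem split_D (A D : Matrix V V R⟦X⟧) (hD : D * (1 - A) = 1) (U : Set V) (u w : V)
    (hu : u ∈ U) (y : R⟦X⟧)
    (hUV : ∀ a ∈ U, ∀ b ∉ U, A a b = if a = u ∧ b = w then y else 0) (a b : V) (hb : b ∉ U) :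
    D a b = (if a = b then 1 else 0) + (if b = w then D a u * y else 0) +
      ∑ c, if c ∈ U then 0 else D a c * A c b := by
  rw [entry_D A D hD a b, add_assoc]
  congr 1
  have h1 : (if b = w then D a u * y else 0) = ∑ c, if c ∈ U then D a c * A c b else 0 := by
    rw [Finset.sum_eq_single u]
    · rw [if_pos hu, hUV u hu b hb]
      by_cases h : b = w
      · simp [h]
      · simp [h]
    · intro c _ hc
      by_cases h : c ∈ U
      · rw [if_pos h, hUV c h b hb, if_neg (fun h' => hc h'.1), mul_zero]
      · rw [if_neg h]
    · intro h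
      exact absurd (Finset.mem_univ _) h
  rw [h1, ← Finset.sum_add_distrib]
  apply Finset.sum_congr rfl
  intro c _
  by_cases h : c ∈ U
  · rw [if_pos h, if_pos h, add_zero]
  · rw [if_neg h, if_neg h, zero_add]

theorem fact_D (A D : Matrix V V R⟦X⟧) (hA : ∀ a b, constantCoeff (A a b) = 0)
    (hD : D * (1 - A) = 1) (U : Set V) (u w : V) (hu : u ∈ U) (hw : w ∉ U) (y : R⟦X⟧)
    (hUV : ∀ a ∈ U, ∀ b ∉ U, A a b = if a = u ∧ b = w then y else 0) :
    ∀ a ∈ U, ∀ b ∉ U, D a b * (1 + y * D w u) = y * D a u * D w b := by
  classical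
  intro a ha
  have hv := eq_zero_of_fix (fun c b => if c ∈ U ∨ b ∈ U then 0 else A c b)
    (by
      intro c b
      show constantCoeff (if c ∈ U ∨ b ∈ U then 0 else A c b) = 0
      split_ifs
      · exact map_zero _
      · exact hA c b)
    (fun b => if b ∈ U then 0 else D a b * (1 + y * D w u) - y * D a u * D w b)
    (by
      intro b
      show (if b ∈ U then 0 else D a b * (1 + y * D w u) - y * D a u * D w b) = _
      by_cases hb : b ∈ U
      · rw [if_pos hb]
        symm
        apply Finset.sum_eq_zero
        intro c _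
        rw [if_pos (Or.inr hb), mul_zero]
      · rw [if_neg hb]
        have e1 := split_D A D hD U u w hu y hUV a b hb
        have e2 := split_D A D hD U u w hu y hUV w b hb
        have hab : a ≠ b := by
          rintro rfl
          exact hb ha
        rw [if_neg hab] at e1
        have e3 : (∑ c, (if c ∈ U then 0 else D a c * (1 + y * D w u) - y * D a u * D w c)
            * (if c ∈ U ∨ b ∈ U then 0 else A c b))
            = (1 + y * D w u) * (∑ c, if c ∈ U then 0 else D a c * A c b)
              - y * D a u * (∑ c, if c ∈ U then 0 else D w c * A c b) := by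
          rw [Finset.mul_sum, Finset.mul_sum, ← Finset.sum_sub_distrib]
          apply Finset.sum_congr rfl
          intro c _
          by_cases hc : c ∈ U
          · rw [if_pos hc, if_pos hc, if_pos hc]
            ring
          · rw [if_neg hc, if_neg hc, if_neg hc, if_neg (by tauto)]
            ring
        rw [e3]
        by_cases hbw : b = w
        · subst hbw
          rw [if_pos rfl] at e1 e2
          rw [if_pos rfl] at e2
          linear_combination (1 + y * D b u) * e1 - y * D a u * e2
        · rw [if_neg hbw] at e1 e2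
          rw [if_neg (Ne.symm hbw)] at e2
          linear_combination (1 + y * D w u) * e1 - y * D a u * e2)
  intro b hb
  have h := congrFun hv b
  simp only [if_neg hb, Pi.zero_apply] at h
  exact sub_eq_zero.1 h

end Pool.Agent.RTO
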