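import Pool.Agent.RTO.BridgeA

/-!
# The matrix `V₁ = (C⁻¹ + X)⁻¹` does not see pairs of vertices separated by a bridge

Write `C = Cm D` (symmetric), `P = (1 + y * D w u) * (1 + y * D u w)` (a unit), `ξ' = y ^ 2 / P`.
`fact_D` for `U` and for `Uᶜ` (with `u, w` exchanged) gives `C a b = ξ' * C a u * C w b` for
`a ∈ U, b ∉ U`. Also `1 - ξ' * C u w = (P - y ^ 2 * D u w * D w u) / P = (1 + y * (D u w + D w u)) / P`,
so `ξ * (1 - ξ' * C u w) = ξ'`.
For `c ∈ U, b ∉ U`: `(X * C) c b = (∑ d ∈ U, X c d * ξ' * C d u * C w b) + [c = u] * ξ * C w b` and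
`(X * C) c u = (∑ d ∈ U, X c d * C d u) + [c = u] * ξ * C w u`, hence
`(X * C) c b = ξ' * C w b * (1 + X * C) c u`.
Fix `a ∈ U`. From `V₁ a b + ∑ c, V₁ a c * (X * C) c b = C a b` for `b ∉ U` and for `b = u`:
`V₁ a b = ∑ c ∉ U, V₁ a c * (ξ' * C w b * (X * C) c u - (X * C) c b)` for `b ∉ U`.
So `v b = V₁ a b` (`b ∉ U`, `0` for `b ∈ U`) is `0` by `eq_zero_of_fix`.
-/

namespace Pool.Agent.RTO

open PowerSeries

variable {V : Type} [Fintype V] [DecidableEq V] {R : Type} [CommRing R]

private theorem unit_one_add_mul (y f : R⟦X⟧) (hy : constantCoeff y = 0) :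
    IsUnit (1 + y * f) := by
  rw [PowerSeries.isUnit_iff_constantCoeff]
  simp [hy]

theorem bridge_zero (A D X V₁ : Matrix V V R⟦X⟧) (hA : ∀ a b, constantCoeff (A a b) = 0)
    (hX : ∀ a b, constantCoeff (X a b) = 0) (hD : D * (1 - A) = 1)
    (hV : V₁ * (1 + X * Cm D) = Cm D) (U : Set V) (u w : V) (hu : u ∈ U) (hw : w ∉ U)
    (y ξ : R⟦X⟧) (hy : constantCoeff y = 0)
    (hξ : ξ * (1 + y * (D u w + D w u)) = y ^ 2)
    (hA1 : ∀ a ∈ U, ∀ b ∉ U, A a b = if a = u ∧ b = w then y else 0)
    (hA2 : ∀ a ∉ U, ∀ b ∈ U, A a b = if a = w ∧ b = u then y else 0)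
    (hX1 : ∀ a ∈ U, ∀ b ∉ U, X a b = if a = u ∧ b = w then ξ else 0) :
    ∀ a ∈ U, ∀ b ∉ U, V₁ a b = 0 := by
  classical
  have huw : u ≠ w := fun h => hw (h ▸ hu)
  have hF1 := fact_D A D hA hD U u w hu hw y hA1
  have hF2 := fact_D A D hA hD Uᶜ w u hw (fun h => h hu) y
    (fun a ha b hb => hA2 a ha b (not_not.1 hb))
  -- the unit P
  obtain ⟨P, hP⟩ : IsUnit ((1 + y * D w u) * (1 + y * D u w)) :=
    (unit_one_add_mul y _ hy).mul (unit_one_add_mul y _ hy)
  set C : Matrix V V R⟦X⟧ := Cm D with hCdef
  have hC : ∀ a b, C a b = D a b * D b a := fun a b => rfl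
  have hCsymm : ∀ a b, C a b = C b a := fun a b => by rw [hC, hC, mul_comm]
  set q : R⟦X⟧ := y ^ 2 * ((P⁻¹ : (R⟦X⟧)ˣ) : R⟦X⟧) with hq
  have hqP : q * (P : R⟦X⟧) = y ^ 2 := by
    rw [hq, mul_assoc, Units.inv_mul, mul_one]
  -- cancelation of P
  have hcanc : ∀ f g : R⟦X⟧, f * (P : R⟦X⟧) = g * (P : R⟦X⟧) → f = g := by
    intro f g h
    exact (Units.mul_left_inj P).1 h
  have hCfac : ∀ a ∈ U, ∀ b ∉ U, C a b = q * C a u * C w b := by
    intro a ha b hb
    apply hcanc
    have h1 := hF1 a ha b hb
    have h2 := hF2 b hb a (fun h => h ha)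
    calc C a b * (P : R⟦X⟧) = (D a b * (1 + y * D w u)) * (D b a * (1 + y * D u w)) := by
          rw [hP, hC]; ring
      _ = (y * D a u * D w b) * (y * D b w * D u a) := by rw [h1, h2]
      _ = y ^ 2 * C a u * C w b := by rw [hC, hC]; ring
      _ = q * C a u * C w b * (P : R⟦X⟧) := by rw [← hqP]; ring
  have hξq : ξ * (1 - q * C u w) = q := by
    apply hcanc
    have h1 : (1 - q * C u w) * (P : R⟦X⟧) = 1 + y * (D u w + D w u) := by
      have : (1 - q * C u w) * (P : R⟦X⟧) = (P : R⟦X⟧) - (q * (P : R⟦X⟧)) * C u w := by ring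
      rw [this, hqP, hP, hC]
      ring
    rw [mul_assoc, h1, hξ, hqP]
  -- the products
  have hXC : ∀ c ∈ U, ∀ b ∉ U, (X * C) c b = q * C w b * ((1 + X * C) c u) := by
    intro c hc b hb
    have e1 : (X * C) c b = (∑ d, if d ∈ U then X c d * C d u else 0) * (q * C w b) +
        (if c = u then ξ * C w b else 0) := by
      rw [Matrix.mul_apply, Finset.sum_mul]
      have : (if c = u then ξ * C w b else 0) =
          ∑ d, if d = w then (if c = u then ξ * C w b else 0) else 0 := by
        rw [Finset.sum_ite_eq' Finset.univ w]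
        simp
      rw [this, ← Finset.sum_add_distrib]
      refine Finset.sum_congr rfl fun d _ => ?_
      by_cases hd : d ∈ U
      · have hdw : d ≠ w := fun h => hw (h ▸ hd)
        rw [if_pos hd, if_neg hdw, hCfac d hd b hb]
        ring
      · rw [if_neg hd, hX1 c hc d hd]
        by_cases hdw : d = w
        · subst hdw
          by_cases hcu : c = u
          · simp [hcu]
          · simp [hcu]
        · simp [hdw]
    have e2 : (X * C) c u = (∑ d, if d ∈ U then X c d * C d u else 0) +
        (if c = u then ξ * C w u else 0) := by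
      rw [Matrix.mul_apply]
      have : (if c = u then ξ * C w u else 0) =
          ∑ d, if d = w then (if c = u then ξ * C w u else 0) else 0 := by
        rw [Finset.sum_ite_eq' Finset.univ w]
        simp
      rw [this, ← Finset.sum_add_distrib]
      refine Finset.sum_congr rfl fun d _ => ?_
      by_cases hd : d ∈ U
      · have hdw : d ≠ w := fun h => hw (h ▸ hd)
        rw [if_pos hd, if_neg hdw]
        ring
      · rw [if_neg hd, hX1 c hc d hd]
        by_cases hdw : d = w
        · subst hdw
          by_cases hcu : c = u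
          · simp [hcu]
          · simp [hcu]
        · simp [hdw]
    rw [Matrix.add_apply, e1, e2, Matrix.one_apply]
    by_cases hcu : c = u
    · simp only [hcu, if_true]
      have h3 : ξ = q + ξ * q * C u w := by
        have := hξq
        linear_combination this
      have h4 : C w u = C u w := hCsymm w u
      rw [h4]
      linear_combination (C w b) * h3
    · simp only [hcu, if_false]
      ring
  intro a ha
  -- rows of V₁
  have hrow : ∀ b, V₁ a b + ∑ c, V₁ a c * (X * C) c b = C a b := by
    intro b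
    have h1 := congrFun (congrFun hV a) b
    rw [mul_add, mul_one, Matrix.add_apply, Matrix.mul_apply] at h1
    exact h1
  have hrowu : ∑ c, V₁ a c * (1 + X * C) c u = C a u := by
    have h1 := congrFun (congrFun hV a) u
    rw [Matrix.mul_apply] at h1
    exact h1
  have hfix := eq_zero_of_fix
    (N := fun c b => if c ∉ U ∧ b ∉ U then q * C w b * (X * C) c u - (X * C) c b else 0)
    (by
      intro c b
      have h0 : ∀ c b, constantCoeff ((X * C) c b) = 0 := by
        intro c b
        rw [Matrix.mul_apply, map_sum]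
        exact Finset.sum_eq_zero fun d _ => by rw [map_mul, hX, zero_mul]
      by_cases h : c ∉ U ∧ b ∉ U
      · simp only [if_pos h]
        rw [map_sub, map_mul, h0, h0]
        simp
      · simp only [if_neg h]
        simp)
    (fun b => if b ∈ U then 0 else V₁ a b)
    (by
      intro b
      by_cases hb : b ∈ U
      · simp [hb]
      · simp only [hb, if_false, not_false_eq_true, and_true]
        have h1 : ∑ c, V₁ a c * (q * C w b * (1 + X * C) c u) = C a b := by
          have : ∑ c, V₁ a c * (q * C w b * (1 + X * C) c u) =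
              (q * C w b) * ∑ c, V₁ a c * (1 + X * C) c u := by
            rw [Finset.mul_sum]
            exact Finset.sum_congr rfl fun c _ => by ring
          rw [this, hrowu, hCfac a ha b hb]
          ring
        have h2 : V₁ a b = ∑ c, (V₁ a c * (q * C w b * (1 + X * C) c u) -
            V₁ a c * (X * C) c b) := by
          rw [Finset.sum_sub_distrib, h1]
          have := hrow b
          linear_combination this
        rw [h2]
        refine Finset.sum_congr rfl fun c _ => ?_
        by_cases hc : c ∈ U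
        · simp only [hc, if_true, not_true_eq_false, if_false, mul_zero]
          rw [← hXC c hc b hb]
          ring
        · have hcu : c ≠ u := fun h => hc (h ▸ hu)
          simp only [hc, if_false, not_false_eq_true, if_true]
          rw [Matrix.add_apply, Matrix.one_apply_ne hcu]
          ring)
  intro b hb
  have h := congrFun hfix b
  simpa [hb] using h

end Pool.Agent.RTO
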