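import Pool.Agent.RTO.Defs

/-!
# Coefficients `cf k m` of power series over `MvPolynomial (A ⊕ E) ℤ`

Products: PowerSeries.coeff_mul, MvPolynomial.coeff_sum, MvPolynomial.coeff_mul (classical
decidable equality for the antidiagonal of finitely supported functions):
`cf k m (f * g)` is the sum of `cf k₁ m₁ f * cf k₂ m₂ g` over `k₁ + k₂ = k`, `m₁ + m₂ = m`.
`cf_wt`: `wt = monomial n (MvPolynomial.X i)`; PowerSeries.coeff_monomial, MvPolynomial.coeff_X'.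
-/

namespace Pool.Agent.RTO

open PowerSeries

variable {V A E : Type}

theorem cf_add (k : ℕ) (m : A ⊕ E →₀ ℕ) (f g : (MvPolynomial (A ⊕ E) ℤ)⟦X⟧) :
    cf k m (f + g) = cf k m f + cf k m g := by
  simp [cf]

theorem cf_sub (k : ℕ) (m : A ⊕ E →₀ ℕ) (f g : (MvPolynomial (A ⊕ E) ℤ)⟦X⟧) :
    cf k m (f - g) = cf k m f - cf k m g := by
  simp [cf]

theorem cf_sum {ι : Type} (s : Finset ι) (k : ℕ) (m : A ⊕ E →₀ ℕ)
    (f : ι → (MvPolynomial (A ⊕ E) ℤ)⟦X⟧) : cf k m (∑ i ∈ s, f i) = ∑ i ∈ s, cf k m (f i) := by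
  simp [cf, map_sum, MvPolynomial.coeff_sum]

theorem cf_zero (k : ℕ) (m : A ⊕ E →₀ ℕ) : cf k m (0 : (MvPolynomial (A ⊕ E) ℤ)⟦X⟧) = 0 := by
  simp [cf]

open Classical in
private theorem cf_one_eq (m : A ⊕ E →₀ ℕ) (k : ℕ) :
    cf k m (1 : (MvPolynomial (A ⊕ E) ℤ)⟦X⟧) = if k = 0 ∧ m = 0 then 1 else 0 := by
  unfold cf
  rw [PowerSeries.coeff_one]
  by_cases hk : k = 0
  · rw [if_pos hk, MvPolynomial.coeff_one]
    by_cases hm : m = 0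
    · simp [hk, hm]
    · simp [hk, hm, Ne.symm hm]
  · simp [hk]

theorem cf_one (m : A ⊕ E →₀ ℕ) (k : ℕ) (h : cf k m (1 : (MvPolynomial (A ⊕ E) ℤ)⟦X⟧) ≠ 0) :
    k = 0 ∧ m = 0 := by
  rw [cf_one_eq] at h
  by_contra hc
  exact h (if_neg hc)

theorem cf_one_nonneg (m : A ⊕ E →₀ ℕ) (k : ℕ) :
    0 ≤ cf k m (1 : (MvPolynomial (A ⊕ E) ℤ)⟦X⟧) := by
  rw [cf_one_eq]
  split_ifs <;> norm_num

theorem cf_one_zero : cf 0 (0 : A ⊕ E →₀ ℕ) (1 : (MvPolynomial (A ⊕ E) ℤ)⟦X⟧) = 1 := by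
  rw [cf_one_eq]
  simp

open Classical in
private theorem cf_mul_eq (k : ℕ) (m : A ⊕ E →₀ ℕ) (f g : (MvPolynomial (A ⊕ E) ℤ)⟦X⟧) :
    cf k m (f * g) = ∑ p ∈ Finset.HasAntidiagonal.antidiagonal k, ∑ r ∈ Finset.HasAntidiagonal.antidiagonal m,
      cf p.1 r.1 f * cf p.2 r.2 g := by
  unfold cf
  rw [PowerSeries.coeff_mul, MvPolynomial.coeff_sum]
  apply Finset.sum_congr rfl
  intro p _
  rw [MvPolynomial.coeff_mul]

/-- if the coefficient of a product is not zero, then it comes from nonzero coefficients -/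
theorem cf_mul_ne {k : ℕ} {m : A ⊕ E →₀ ℕ} {f g : (MvPolynomial (A ⊕ E) ℤ)⟦X⟧}
    (h : cf k m (f * g) ≠ 0) : ∃ k₁ k₂ m₁ m₂, k₁ + k₂ = k ∧ m₁ + m₂ = m ∧ cf k₁ m₁ f ≠ 0 ∧
      cf k₂ m₂ g ≠ 0 := by
  classical
  rw [cf_mul_eq] at h
  obtain ⟨p, hp, h1⟩ := Finset.exists_ne_zero_of_sum_ne_zero h
  obtain ⟨r, hr, h2⟩ := Finset.exists_ne_zero_of_sum_ne_zero h1
  exact ⟨p.1, p.2, r.1, r.2, Finset.HasAntidiagonal.mem_antidiagonal.mp hp,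
    Finset.HasAntidiagonal.mem_antidiagonal.mp hr, left_ne_zero_of_mul h2,
    right_ne_zero_of_mul h2⟩

theorem cf_mul_nonneg {f g : (MvPolynomial (A ⊕ E) ℤ)⟦X⟧} {k : ℕ} {m : A ⊕ E →₀ ℕ}
    (hf : ∀ k' ≤ k, ∀ m', 0 ≤ cf k' m' f) (hg : ∀ k' ≤ k, ∀ m', 0 ≤ cf k' m' g) :
    0 ≤ cf k m (f * g) := by
  classical
  rw [cf_mul_eq]
  apply Finset.sum_nonneg
  intro p hp
  have hp' := Finset.HasAntidiagonal.mem_antidiagonal.mp hp
  apply Finset.sum_nonneg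
  intro r _
  exact mul_nonneg (hf _ (by omega) _) (hg _ (by omega) _)

theorem cf_mul_pos {f g : (MvPolynomial (A ⊕ E) ℤ)⟦X⟧} {k₁ k₂ : ℕ} {m₁ m₂ : A ⊕ E →₀ ℕ}
    (hf : ∀ k m, 0 ≤ cf k m f) (hg : ∀ k m, 0 ≤ cf k m g) (h₁ : 1 ≤ cf k₁ m₁ f)
    (h₂ : 1 ≤ cf k₂ m₂ g) : 1 ≤ cf (k₁ + k₂) (m₁ + m₂) (f * g) := by
  classical
  rw [cf_mul_eq]
  have h3 : cf k₁ m₁ f * cf k₂ m₂ g ≤ ∑ r ∈ Finset.HasAntidiagonal.antidiagonal (m₁ + m₂),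
      cf k₁ r.1 f * cf k₂ r.2 g :=
    Finset.single_le_sum (a := (m₁, m₂))
      (f := fun r : (A ⊕ E →₀ ℕ) × (A ⊕ E →₀ ℕ) => cf k₁ r.1 f * cf k₂ r.2 g)
      (fun r _ => mul_nonneg (hf _ _) (hg _ _))
      (Finset.HasAntidiagonal.mem_antidiagonal.mpr (rfl : (m₁, m₂).1 + (m₁, m₂).2 = m₁ + m₂))
  have h4 : ∑ r ∈ Finset.HasAntidiagonal.antidiagonal (m₁ + m₂), cf k₁ r.1 f * cf k₂ r.2 g ≤
      ∑ p ∈ Finset.HasAntidiagonal.antidiagonal (k₁ + k₂), ∑ r ∈ Finset.HasAntidiagonal.antidiagonal (m₁ + m₂),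
      cf p.1 r.1 f * cf p.2 r.2 g :=
    Finset.single_le_sum (a := (k₁, k₂)) (f := fun p : ℕ × ℕ => ∑ r ∈ Finset.HasAntidiagonal.antidiagonal (m₁ + m₂),
      cf p.1 r.1 f * cf p.2 r.2 g)
      (fun p _ => Finset.sum_nonneg fun r _ => mul_nonneg (hf _ _) (hg _ _))
      (Finset.HasAntidiagonal.mem_antidiagonal.mpr (rfl : (k₁, k₂).1 + (k₁, k₂).2 = k₁ + k₂))
  calc (1 : ℤ) = 1 * 1 := by norm_num
    _ ≤ cf k₁ m₁ f * cf k₂ m₂ g := mul_le_mul h₁ h₂ (by norm_num) (by linarith)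
    _ ≤ _ := h3.trans h4

open Classical in
private theorem cf_monomial_X (k n : ℕ) (m : A ⊕ E →₀ ℕ) (i : A ⊕ E) :
    cf k m (PowerSeries.monomial n (MvPolynomial.X i : MvPolynomial (A ⊕ E) ℤ)) =
      if k = n ∧ m = Finsupp.single i 1 then 1 else 0 := by
  unfold cf
  rw [PowerSeries.coeff_monomial]
  by_cases hk : k = n
  · rw [if_pos hk, MvPolynomial.coeff_X]
    by_cases hm : m = Finsupp.single i 1
    · simp [hk, hm]
    · simp [hk, hm, Ne.symm hm]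
  · simp [hk]

theorem cf_wt {G : MGr V A E} {k : ℕ} {m : A ⊕ E →₀ ℕ} {d : Dart A E}
    (h : cf k m (wt G MvPolynomial.X d) ≠ 0) :
    k = G.len d ∧ m = Finsupp.single (und d) 1 := by
  unfold wt at h
  rw [cf_monomial_X] at h
  by_contra hc
  exact h (if_neg hc)

theorem cf_wt_nonneg {G : MGr V A E} (k : ℕ) (m : A ⊕ E →₀ ℕ) (d : Dart A E) :
    0 ≤ cf k m (wt G MvPolynomial.X d) := by
  unfold wt
  rw [cf_monomial_X]
  split_ifs <;> norm_num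

theorem cf_wt_self {G : MGr V A E} (d : Dart A E) :
    cf (G.len d) (Finsupp.single (und d) 1) (wt G MvPolynomial.X d) = 1 := by
  unfold wt
  rw [cf_monomial_X]
  simp

theorem cf_wE {G : MGr V A E} {k : ℕ} {m : A ⊕ E →₀ ℕ} {e : E}
    (h : cf k m (wE G MvPolynomial.X e) ≠ 0) :
    k = G.le e ∧ m = Finsupp.single (Sum.inr e) 1 := by
  unfold wE at h
  rw [cf_monomial_X] at h
  by_contra hc
  exact h (if_neg hc)

end Pool.Agent.RTO
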