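import Pool.Agent.RTO.Value

/-!
# Self-reduction: an optimal orientation

Induction on `E` (generalising `A`) with `m = A.length + E.length` fixed (`par m L`:
`K = 4 * m * L`, `B = K * (2 * m + 1) + 1`): for `E = []` the orientation is `A`. For `e :: E`:
`cst_cons`; by `cst_bound` and `value_some`/`value_none` the three values are the minima of the three
sets (or `none` if empty), so the chosen set has the same minimum. (If `s = t` the empty walks
give `0`.)
-/

namespace Pool.Agent.RTO

theorem length_go (p : Par) (s t : ℕ) : ∀ (E A : List Arc), (go p s t A E).length = E.length := by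
  intro E
  induction E with
  | nil => intro A; rfl
  | cons e E ih =>
    intro A
    unfold go
    split_ifs
    · simp [ih]
    · simp [ih]

private theorem Solve_val (m L : ℕ) (s t : ℕ) (hst : s ≠ t) (A E : List Arc)
    (hm : A.length + E.length = m) (hpos : ∀ x ∈ A ++ E, 0 < x.2.2)
    (hL : ∀ x ∈ A ++ E, x.2.2 ≤ L) (c : ℕ) (hc : IsLeast (Cst A E s t) c) :
    value (par m L) A E s t = some c := by
  have hcK : c ≤ (par m L).K := by
    obtain ⟨k', hk', _, h2⟩ := cst_bound A E s t L hL c hc.1
    rw [hm] at h2
    exact (hc.2 hk').trans h2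
  refine value_some (par m L) A E s t hst hpos hL ?_ c hc hcK
  show (4 * m * L) * (A.length + 2 * E.length + 1) + 1 ≤ (4 * m * L) * (2 * m + 1) + 1
  have : A.length + 2 * E.length + 1 ≤ 2 * m + 1 := by omega
  exact Nat.add_le_add_right (Nat.mul_le_mul_left _ this) 1

private theorem Solve_least {S : Set ℕ} {k : ℕ} (hk : k ∈ S) : ∃ c, IsLeast S c ∧ c ≤ k := by
  classical
  have h : ∃ n, n ∈ S := ⟨k, hk⟩
  exact ⟨Nat.find h, ⟨Nat.find_spec h, fun x hx => Nat.find_min' h hx⟩, Nat.find_min' h hk⟩

private theorem Solve_ori (A E : List Arc) (e : Arc) (b : Bool) (σ : List Bool) :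
    ori ((if b then e else rev e) :: A) E σ ⊆ ori A (e :: E) (b :: σ) := by
  intro x hx
  unfold ori at hx ⊢
  simp only [List.zipWith_cons_cons, List.mem_append, List.mem_cons, List.cons_append] at hx ⊢
  tauto

/-- the orientation found by `go` is optimal -/
theorem go_opt (m L : ℕ) (s t : ℕ) : ∀ (E A : List Arc), A.length + E.length = m →
    (∀ x ∈ A ++ E, 0 < x.2.2) → (∀ x ∈ A ++ E, x.2.2 ≤ L) → ∀ k ∈ Cst A E s t,
    ∃ k₁ k₂, HasWalk (ori A E (go (par m L) s t A E)) s t k₁ ∧
      HasWalk (ori A E (go (par m L) s t A E)) t s k₂ ∧ k₁ + k₂ ≤ k := by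
  by_cases hst : s = t
  · subst hst
    intro E A _ _ _ k _
    exact ⟨0, 0, HasWalk.nil s, HasWalk.nil s, Nat.zero_le _⟩
  intro E
  induction E with
  | nil =>
    intro A _ _ _ k hk
    obtain ⟨σ, hσ, k₁, k₂, h1, h2, rfl⟩ := hk
    have hσ' : σ = [] := List.length_eq_zero_iff.1 hσ
    subst hσ'
    exact ⟨k₁, k₂, h1, h2, le_rfl⟩
  | cons e E ih =>
    intro A hm hpos hL k hk
    have hmem : ∀ b : Bool, ∀ x ∈ ((if b then e else rev e) :: A) ++ E, ∃ y ∈ A ++ (e :: E),
        x.2.2 = y.2.2 := by
      intro b x hx
      simp only [List.cons_append, List.mem_cons, List.mem_append] at hx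
      rcases hx with rfl | hx | hx
      · refine ⟨e, by simp, ?_⟩
        cases b with
        | true => rfl
        | false => rfl
      · exact ⟨x, by simp [hx], rfl⟩
      · exact ⟨x, by simp [hx], rfl⟩
    have hm' : ∀ b : Bool, ((if b then e else rev e) :: A).length + E.length = m := by
      intro b
      rw [← hm]
      simp only [List.length_cons]
      omega
    have hpos' : ∀ b : Bool, ∀ x ∈ ((if b then e else rev e) :: A) ++ E, 0 < x.2.2 := by
      intro b x hx
      obtain ⟨y, hy, hxy⟩ := hmem b x hx
      rw [hxy]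
      exact hpos y hy
    have hL' : ∀ b : Bool, ∀ x ∈ ((if b then e else rev e) :: A) ++ E, x.2.2 ≤ L := by
      intro b x hx
      obtain ⟨y, hy, hxy⟩ := hmem b x hx
      rw [hxy]
      exact hL y hy
    obtain ⟨c, hc, hck⟩ := Solve_least hk
    have hv := Solve_val m L s t hst A (e :: E) hm hpos hL c hc
    have key : ∀ b : Bool, c ∈ Cst ((if b then e else rev e) :: A) E s t →
        ∃ k₁ k₂, HasWalk (ori A (e :: E) (b :: go (par m L) s t ((if b then e else rev e) :: A) E))
          s t k₁ ∧ HasWalk (ori A (e :: E)
            (b :: go (par m L) s t ((if b then e else rev e) :: A) E)) t s k₂ ∧ k₁ + k₂ ≤ k := by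
      intro b hb
      obtain ⟨k₁, k₂, h1, h2, h3⟩ := ih _ (hm' b) (hpos' b) (hL' b) c hb
      exact ⟨k₁, k₂, h1.mono (Solve_ori A E e b _), h2.mono (Solve_ori A E e b _), h3.trans hck⟩
    have hcc := cst_cons A E e s t
    by_cases h : value (par m L) (e :: A) E s t = value (par m L) A (e :: E) s t
    · have hgo : go (par m L) s t A (e :: E) = true :: go (par m L) s t (e :: A) E := by
        rw [go, if_pos h]
      rw [hgo]
      apply key true
      show c ∈ Cst (e :: A) E s t
      by_contra hcn
      rw [hv] at h
      have hL0 : ∃ k ∈ Cst (e :: A) E s t, k ≤ (par m L).K := by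
        by_contra hno
        push Not at hno
        have := value_none (par m L) (e :: A) E s t hst (hpos' true) (hL' true) hno
        rw [this] at h
        cases h
      obtain ⟨k', hk', _⟩ := hL0
      obtain ⟨c', hc', _⟩ := Solve_least hk'
      have h2 := Solve_val m L s t hst (e :: A) E (hm' true) (hpos' true) (hL' true) c' hc'
      rw [h2] at h
      have : c' = c := by simpa using h
      subst this
      exact hcn hc'.1
    · have hgo : go (par m L) s t A (e :: E) = false :: go (par m L) s t (rev e :: A) E := by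
        rw [go, if_neg h]
      rw [hgo]
      apply key false
      show c ∈ Cst (rev e :: A) E s t
      have hc1 : c ∈ Cst (e :: A) E s t ∪ Cst (rev e :: A) E s t := by
        rw [← hcc]; exact hc.1
      rcases hc1 with hc1 | hc1
      · exfalso
        apply h
        rw [hv]
        refine Solve_val m L s t hst (e :: A) E (hm' true) (hpos' true) (hL' true) c ⟨hc1, ?_⟩
        intro x hx
        apply hc.2
        rw [hcc]
        exact Or.inl hx
      · exact hc1

end Pool.Agent.RTO
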