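import Pool.Agent.RTO.QWalk
import Pool.Agent.RTO.Solve

/-!
# The exact algorithm for integral lengths at most `L`

New lengths `f q = (4 * m + 1) * |num q| + 1`. For an orientation `τ` with finite round trip take
shortest walks with at most `m = (orient G τ).length` arcs each (`exists_shortest`): new length
`≤ (4 * m + 1) * old + 2 * m`, an element of `Cst` (`ori_relen`, `hasWalk_relen`). By `go_opt` the
orientation `σ` found has walks with new length `≤` that; the new length of a walk is
`≥ (4 * m + 1) * old`, so `(4 m + 1) old(σ) ≤ (4 m + 1) old(τ) + 2 m`, integers, hence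
`old(σ) ≤ old(τ)`. If `s = t` both distances are `0`.
-/

namespace Pool.Agent.RTO

/-- number of arcs and edges -/
def mG (G : MixedGraph) : ℕ := G.1.length + G.2.length

/-- the exact algorithm -/
def exactAlg (L : ℕ) (G : MixedGraph) (s t : ℕ) : List Bool :=
  go (par (mG G) ((4 * mG G + 1) * L + 1)) s t
    (G.1.map (relen fun q => (4 * mG G + 1) * q.num.natAbs + 1))
    (G.2.map (relen fun q => (4 * mG G + 1) * q.num.natAbs + 1))

theorem mem_orient_len (G : MixedGraph) (σ : List Bool) (x : ℕ × ℕ × ℚ) (hx : x ∈ orient G σ) :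
    ∃ y ∈ G.1 ++ G.2, x.2.2 = y.2.2 := by
  obtain ⟨A, E⟩ := G
  unfold orient at hx
  rcases List.mem_append.1 hx with hx | hx
  · exact ⟨x, List.mem_append_left _ hx, rfl⟩
  · suffices h : ∃ y ∈ E, x.2.2 = y.2.2 by
      obtain ⟨y, hy, hxy⟩ := h
      exact ⟨y, List.mem_append_right _ hy, hxy⟩
    clear * - hx
    dsimp only at hx
    induction E generalizing σ with
    | nil => simp at hx
    | cons e E ih =>
      cases σ with
      | nil => simp at hx
      | cons b σ =>
        simp only [List.zipWith_cons_cons] at hx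
        rcases List.mem_cons.1 hx with hx | hx
        · refine ⟨e, by simp, ?_⟩
          rw [hx]
          cases b <;> rfl
        · obtain ⟨y, hy, hxy⟩ := ih σ hx
          exact ⟨y, List.mem_cons_of_mem _ hy, hxy⟩

theorem length_orient_le (G : MixedGraph) (σ : List Bool) : (orient G σ).length ≤ mG G := by
  unfold orient mG
  simp only [List.length_append, List.length_zipWith]
  omega

theorem lengthL_eq_natAbs (l : List (ℕ × ℕ × ℚ)) (hl : ∀ x ∈ l, ∃ k : ℕ, x.2.2 = k) :
    lengthL l = ((l.map fun x => x.2.2.num.natAbs).sum : ℕ) := by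
  induction l with
  | nil => simp [lengthL]
  | cons x l ih =>
    have h1 := ih (fun y hy => hl y (List.mem_cons_of_mem _ hy))
    obtain ⟨k, hk⟩ := hl x (by simp)
    unfold lengthL at h1 ⊢
    simp only [List.map_cons, List.sum_cons, Nat.cast_add]
    rw [h1, hk]
    simp

theorem sum_relen (c : ℕ) (l : List (ℕ × ℕ × ℚ)) :
    (l.map fun x => c * x.2.2.num.natAbs + 1).sum =
      c * (l.map fun x => x.2.2.num.natAbs).sum + l.length := by
  induction l with
  | nil => simp
  | cons x l ih =>
    simp only [List.map_cons, List.sum_cons, List.length_cons]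
    rw [ih]
    ring

theorem exactAlg_correct (L : ℕ) (G : MixedGraph) (s t : ℕ) (hG : BoundedBy G L) :
    (exactAlg L G s t).length = G.2.length ∧
      ∀ τ : List Bool, τ.length = G.2.length →
        roundTrip G (exactAlg L G s t) s t ≤ roundTrip G τ s t := by
  constructor
  · unfold exactAlg
    rw [length_go]
    simp
  · intro τ hτ
    by_cases htop : roundTrip G τ s t = ⊤
    · rw [htop]
      exact le_top
    · have h1 : dist (orient G τ) s t ≠ ⊤ := fun h => htop (by unfold roundTrip; rw [h]; simp)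
      have h2 : dist (orient G τ) t s ≠ ⊤ := fun h => htop (by unfold roundTrip; rw [h]; simp)
      have hint : ∀ (σ : List Bool) (x : ℕ × ℕ × ℚ), x ∈ orient G σ → ∃ k : ℕ, x.2.2 = k := by
        intro σ x hx
        obtain ⟨y, hy, hxy⟩ := mem_orient_len G σ x hx
        obtain ⟨k, _, hk⟩ := hG y hy
        exact ⟨k, by rw [hxy, hk]⟩
      have hnn : ∀ (σ : List Bool), ∀ x ∈ orient G σ, 0 ≤ x.2.2 := by
        intro σ x hx
        obtain ⟨k, hk⟩ := hint σ x hx
        rw [hk]
        positivity
      obtain ⟨l₁, hw₁, hd₁, hn₁⟩ := exists_shortest _ (hnn τ) h1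
      obtain ⟨l₂, hw₂, hd₂, hn₂⟩ := exists_shortest _ (hnn τ) h2
      have hlen := length_orient_le G τ
      set c := 4 * mG G + 1 with hc
      set f : ℚ → ℕ := fun q => c * q.num.natAbs + 1 with hf
      have hfl : ∀ l : List (ℕ × ℕ × ℚ), (l.map fun x => f x.2.2).sum =
          c * (l.map fun x => x.2.2.num.natAbs).sum + l.length := fun l => sum_relen c l
      have hwf₁ : HasWalk (ori (G.1.map (relen f)) (G.2.map (relen f)) τ) s t
          ((l₁.map fun x => f x.2.2).sum) := by
        rw [ori_relen]
        exact (hasWalk_relen f _ s t _).2 ⟨l₁, hw₁, rfl⟩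
      have hwf₂ : HasWalk (ori (G.1.map (relen f)) (G.2.map (relen f)) τ) t s
          ((l₂.map fun x => f x.2.2).sum) := by
        rw [ori_relen]
        exact (hasWalk_relen f _ t s _).2 ⟨l₂, hw₂, rfl⟩
      have hmem : ∀ x ∈ G.1.map (relen f) ++ G.2.map (relen f), ∃ y ∈ G.1 ++ G.2,
          x = relen f y := by
        intro x hx
        rw [← List.map_append] at hx
        obtain ⟨y, hy, hxy⟩ := List.mem_map.1 hx
        exact ⟨y, hy, hxy.symm⟩
      have hopt := go_opt (mG G) (c * L + 1) s t (G.2.map (relen f)) (G.1.map (relen f))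
        (by simp [mG]) ?_ ?_ ((l₁.map fun x => f x.2.2).sum + (l₂.map fun x => f x.2.2).sum)
        ⟨τ, by simp [hτ], _, _, hwf₁, hwf₂, rfl⟩
      · obtain ⟨k₁, k₂, hk₁, hk₂, hk⟩ := hopt
        rw [ori_relen] at hk₁ hk₂
        obtain ⟨m₁, hm₁, hmk₁⟩ := (hasWalk_relen f _ s t _).1 hk₁
        obtain ⟨m₂, hm₂, hmk₂⟩ := (hasWalk_relen f _ t s _).1 hk₂
        change IsWalkL (orient G (exactAlg L G s t)) s m₁ t at hm₁
        change IsWalkL (orient G (exactAlg L G s t)) t m₂ s at hm₂
        rw [hfl] at hmk₁ hmk₂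
        rw [hfl, hfl] at hk
        have e₁ := lengthL_eq_natAbs l₁ (fun x hx => hint τ x (mem_of_isWalkL hw₁ x hx))
        have e₂ := lengthL_eq_natAbs l₂ (fun x hx => hint τ x (mem_of_isWalkL hw₂ x hx))
        have e₃ := lengthL_eq_natAbs m₁ (fun x hx => hint _ x (mem_of_isWalkL hm₁ x hx))
        have e₄ := lengthL_eq_natAbs m₂ (fun x hx => hint _ x (mem_of_isWalkL hm₂ x hx))
        set u₁ := (l₁.map fun x => x.2.2.num.natAbs).sum
        set u₂ := (l₂.map fun x => x.2.2.num.natAbs).sum
        set v₁ := (m₁.map fun x => x.2.2.num.natAbs).sum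
        set v₂ := (m₂.map fun x => x.2.2.num.natAbs).sum
        have hle : v₁ + v₂ ≤ u₁ + u₂ := by
          by_contra hcon
          have h3 : u₁ + u₂ + 1 ≤ v₁ + v₂ := by omega
          have h4 : c * (u₁ + u₂ + 1) ≤ c * (v₁ + v₂) := Nat.mul_le_mul_left c h3
          have h5 : c * (v₁ + v₂) ≤ c * (u₁ + u₂) + (l₁.length + l₂.length) := by
            calc c * (v₁ + v₂) = c * v₁ + c * v₂ := by ring
              _ ≤ k₁ + k₂ := by omega
              _ ≤ _ := hk
              _ = c * (u₁ + u₂) + (l₁.length + l₂.length) := by ring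
          have h6 : c * (u₁ + u₂ + 1) = c * (u₁ + u₂) + c := by ring
          omega
        unfold roundTrip
        rw [hd₁, hd₂]
        refine (add_le_add (dist_le hm₁) (dist_le hm₂)).trans ?_
        rw [e₁, e₂, e₃, e₄]
        simp only [Rat.cast_natCast, ENNReal.ofReal_natCast]
        exact_mod_cast hle
      · intro x hx
        obtain ⟨y, _, rfl⟩ := hmem x hx
        simp [relen, hf]
      · intro x hx
        obtain ⟨y, hy, rfl⟩ := hmem x hx
        obtain ⟨k, hkL, hk⟩ := hG y hy
        simp only [relen, hf, hk, Rat.num_natCast, Int.natAbs_natCast]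
        have := Nat.mul_le_mul_left c hkL
        omega

end Pool.Agent.RTO
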