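import Pool.Agent.RTO.AlgDefs

/-!
# Lists of arcs: walks, orientations, and the graph of the theory
-/

namespace Pool.Agent.RTO

/-- `HasWalk H a b k`: in the digraph with the arcs `H` there is a walk from `a` to `b` of length `k` -/
inductive HasWalk (H : List Arc) : ℕ → ℕ → ℕ → Prop
  | nil (a : ℕ) : HasWalk H a a 0
  | cons {a c b ℓ k : ℕ} : (a, c, ℓ) ∈ H → HasWalk H c b k → HasWalk H a b (ℓ + k)

/-- orientation of the undirected edges `E` by `σ` -/
def ori (A E : List Arc) (σ : List Bool) : List Arc :=
  A ++ List.zipWith (fun e b => if b then e else rev e) E σ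

/-- lengths of round trips in orientations -/
def Cst (A E : List Arc) (s t : ℕ) : Set ℕ :=
  {k | ∃ σ : List Bool, σ.length = E.length ∧ ∃ k₁ k₂, HasWalk (ori A E σ) s t k₁ ∧
    HasWalk (ori A E σ) t s k₂ ∧ k₁ + k₂ = k}

/-- the mixed graph of two lists -/
def gr (A E : List Arc) : MGr ℕ (Fin A.length) (Fin E.length) where
  src i := (A.get i).1
  tgt i := (A.get i).2.1
  la i := (A.get i).2.2
  p i := (E.get i).1
  q i := (E.get i).2.1
  le i := (E.get i).2.2

end Pool.Agent.RTO
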