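import Mathlib

/-!
# Evaluation of integer power series at `X = 2 ^ B` modulo `2 ^ (B * (K + 1))`

`psi f = ∑ k ≤ K, coeff k f * 2 ^ (B * k)` in `ZMod (2 ^ (B * (K + 1)))`. Multiplicative: coeff_mul,
and `2 ^ (B * i) * 2 ^ (B * j) = 0` for `i + j > K`.
-/

namespace Pool.Agent.RTO

open PowerSeries

/-- evaluation at `2 ^ B` modulo `2 ^ (B * (K + 1))` -/
noncomputable def psiFun (B K : ℕ) (f : ℤ⟦X⟧) : ZMod (2 ^ (B * (K + 1))) :=
  ∑ k ∈ Finset.range (K + 1), ((PowerSeries.coeff k f : ℤ) : ZMod (2 ^ (B * (K + 1)))) *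
    2 ^ (B * k)

private theorem psi_two_pow_zero (B K n : ℕ) (h : K + 1 ≤ n) :
    (2 : ZMod (2 ^ (B * (K + 1)))) ^ (B * n) = 0 := by
  obtain ⟨c, rfl⟩ := Nat.exists_eq_add_of_le h
  have h0 : (2 : ZMod (2 ^ (B * (K + 1)))) ^ (B * (K + 1)) = 0 := by
    have := ZMod.natCast_self (2 ^ (B * (K + 1)))
    push_cast at this
    exact this
  have h1 : (2 : ZMod (2 ^ (B * (K + 1)))) ^ (B * (K + 1 + c)) =
      2 ^ (B * (K + 1)) * 2 ^ (B * c) := by
    rw [← pow_add, ← Nat.mul_add]
  rw [h1, h0, zero_mul]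

theorem psiFun_monomial (B K n : ℕ) :
    psiFun B K (PowerSeries.monomial n (1 : ℤ)) = 2 ^ (B * n) := by
  unfold psiFun
  simp only [PowerSeries.coeff_monomial]
  by_cases h : n ≤ K
  · rw [Finset.sum_eq_single n]
    · simp
    · intro b _ hb
      simp [hb]
    · intro hn
      exact absurd (Finset.mem_range.mpr (Nat.lt_succ_of_le h)) hn
  · rw [psi_two_pow_zero B K n (by omega)]
    apply Finset.sum_eq_zero
    intro k hk
    have : k ≠ n := by
      have := Finset.mem_range.mp hk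
      omega
    simp [this]

theorem psiFun_pow (B K : ℕ) (f : ℤ⟦X⟧) (hf : ∀ k ≤ K, PowerSeries.coeff k f = 0) :
    psiFun B K f = 0 := by
  unfold psiFun
  apply Finset.sum_eq_zero
  intro k hk
  rw [hf k (by have := Finset.mem_range.mp hk; omega)]
  simp

private theorem psi_mul (B K : ℕ) (f g : ℤ⟦X⟧) :
    psiFun B K (f * g) = psiFun B K f * psiFun B K g := by
  unfold psiFun
  rw [Finset.sum_mul_sum, ← Finset.sum_product']
  have h1 : ∑ p ∈ Finset.range (K + 1) ×ˢ Finset.range (K + 1),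
      ((PowerSeries.coeff p.1 f : ℤ) : ZMod (2 ^ (B * (K + 1)))) * 2 ^ (B * p.1) *
        (((PowerSeries.coeff p.2 g : ℤ) : ZMod (2 ^ (B * (K + 1)))) * 2 ^ (B * p.2)) =
      ∑ p ∈ (Finset.range (K + 1) ×ˢ Finset.range (K + 1)).filter (fun p => p.1 + p.2 < K + 1),
      ((PowerSeries.coeff p.1 f : ℤ) : ZMod (2 ^ (B * (K + 1)))) * 2 ^ (B * p.1) *
        (((PowerSeries.coeff p.2 g : ℤ) : ZMod (2 ^ (B * (K + 1)))) * 2 ^ (B * p.2)) := by
    symm
    apply Finset.sum_subset (Finset.filter_subset _ _)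
    intro p hp hn
    have h2 : K + 1 ≤ p.1 + p.2 := by
      by_contra hc
      exact hn (Finset.mem_filter.mpr ⟨hp, by omega⟩)
    have h3 := psi_two_pow_zero B K (p.1 + p.2) h2
    have h4 : (2 : ZMod (2 ^ (B * (K + 1)))) ^ (B * p.1) * 2 ^ (B * p.2) = 0 := by
      rw [← h3, ← pow_add, ← Nat.mul_add]
    calc _ = ((PowerSeries.coeff p.1 f : ℤ) : ZMod (2 ^ (B * (K + 1)))) *
          ((PowerSeries.coeff p.2 g : ℤ) : ZMod (2 ^ (B * (K + 1)))) *
          (2 ^ (B * p.1) * 2 ^ (B * p.2)) := by ring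
      _ = 0 := by rw [h4, mul_zero]
  rw [h1]
  rw [← Finset.sum_fiberwise_of_maps_to
    (s := (Finset.range (K + 1) ×ˢ Finset.range (K + 1)).filter (fun p => p.1 + p.2 < K + 1))
    (t := Finset.range (K + 1)) (g := fun p => p.1 + p.2)]
  · apply Finset.sum_congr rfl
    intro k hk
    have hk' := Finset.mem_range.mp hk
    rw [PowerSeries.coeff_mul]
    push_cast
    rw [Finset.sum_mul]
    symm
    apply Finset.sum_congr
    · ext p
      simp only [Finset.HasAntidiagonal.mem_antidiagonal, Finset.mem_filter, Finset.mem_product, Finset.mem_range]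
      omega
    · intro p hp
      have hp' := Finset.HasAntidiagonal.mem_antidiagonal.mp hp
      have h5 : (2 : ZMod (2 ^ (B * (K + 1)))) ^ (B * k) = 2 ^ (B * p.1) * 2 ^ (B * p.2) := by
        rw [← hp', ← pow_add, ← Nat.mul_add]
      rw [h5]
      ring
  · intro p hp
    simp only [Finset.mem_filter, Finset.mem_product, Finset.mem_range] at hp ⊢
    exact hp.2

theorem exists_psi (B K : ℕ) : ∃ ψ : ℤ⟦X⟧ →+* ZMod (2 ^ (B * (K + 1))),
    ∀ f, ψ f = psiFun B K f := by
  refine ⟨{ toFun := psiFun B K, map_one' := ?_, map_mul' := ?_, map_zero' := ?_,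
            map_add' := ?_ }, fun f => rfl⟩
  · have h := psiFun_monomial B K 0
    have h1 : (PowerSeries.monomial 0 (1 : ℤ)) = 1 := by
      ext n
      simp [PowerSeries.coeff_one]
    rw [h1] at h
    simpa using h
  · exact psi_mul B K
  · exact psiFun_pow B K 0 (fun k _ => by simp)
  · intro f g
    unfold psiFun
    rw [← Finset.sum_add_distrib]
    apply Finset.sum_congr rfl
    intro k _
    rw [map_add]
    push_cast
    ring

end Pool.Agent.RTO
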