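import Pool.Agent.RTO.AlgDefs

/-!
# Looking up in tables
-/

namespace Pool.Agent.RTO

theorem get_mk {vs : List ℕ} {f : ℕ → ℕ → ℕ} {a b : ℕ} (ha : a ∈ vs) (hb : b ∈ vs) :
    get (mk vs f) a b = f a b := by
  unfold get
  have hall : ∀ y ∈ (((mk vs f).filter fun x => x.1 == (a, b)).map Prod.snd), y = f a b := by
    intro y hy
    rw [List.mem_map] at hy
    obtain ⟨z, hz, rfl⟩ := hy
    rw [List.mem_filter] at hz
    obtain ⟨hz1, hz2⟩ := hz
    unfold mk at hz1
    rw [List.mem_map] at hz1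
    obtain ⟨x, -, rfl⟩ := hz1
    simp only [beq_iff_eq] at hz2
    simp [hz2]
  have hmem : f a b ∈ (((mk vs f).filter fun x => x.1 == (a, b)).map Prod.snd) := by
    rw [List.mem_map]
    refine ⟨((a, b), f a b), ?_, rfl⟩
    rw [List.mem_filter]
    refine ⟨?_, by simp⟩
    unfold mk
    rw [List.mem_map]
    exact ⟨(a, b), List.pair_mem_product.2 ⟨ha, hb⟩, rfl⟩
  cases hl : (((mk vs f).filter fun x => x.1 == (a, b)).map Prod.snd) with
  | nil => rw [hl] at hmem; simp at hmem
  | cons y l =>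
    rw [hl] at hall
    simpa using hall y (by simp)

theorem get_nil (a b : ℕ) : get [] a b = 0 := rfl

end Pool.Agent.RTO
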