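import Pool.Agent.RTO.SysEq
import Pool.Agent.RTO.Psi
import Pool.Agent.RTO.TabGet

/-!
# The tables compute the system modulo `2 ^ N`

Let `ψ` be the ring hom of `exists_psi`. All statements are over a finite vertex type `V` with an
injection `ι : V → ℕ` (in the application `V = Fin n`, `ι = Fin.val`) and for a graph `G` with
positive lengths `≤ L` such that the list of darts `ds` has, for each `a`, the sum over
`ds.filter (d.1 = ι a)` equal to the sum over the darts of `G` starting at `a` (hypothesis `hds`).
`tabD_eq`: let `F r a b` be the iterates over `ℤ⟦X⟧`: `F 0 = 0`, `F (r+1) a b = [a = b] + ∑ d, ...`;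
by `Sys.D_left` the difference `D a b - F r a b` has zero coefficients below `r` (induction on `r`),
so `ψ (D a b) = ψ (F (K+1) a b)` (`psiFun_pow`), and `get ((stepD)^[r] []) (ι a) (ι b) = ψ (F r a b)`
by induction on `r`, using `get_mk` and `psiFun_monomial`. (Directly: show by induction on `r` that
`(get ((stepD)^[r] []) (ι a) (ι b) : ZMod _) = ψ (D a b) - ψ (R r a b)` with `coeff j (R r a b) = 0` for
`j < r`.) The iterates for `inv` and `stepV` are the same with `Sys.ξ_left`-type equation
`x = 1 - g * x` for the inverse `x` of `1 + g`, and `Sys.V_left`.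
-/

namespace Pool.Agent.RTO

open PowerSeries

variable {V A E : Type} [Fintype V] [DecidableEq V] [Fintype A] [Fintype E] {G : MGr V A E}
  {D V₁ : Matrix V V ℤ⟦X⟧} {ξ : E → ℤ⟦X⟧}

private theorem IterD_X_dvd_wt (hG : G.Pos) (d : Dart A E) :
    (X : ℤ⟦X⟧) ∣ wt G (fun _ => (1 : ℤ)) d := by
  rw [X_dvd_iff]
  exact constantCoeff_wt hG _ d

theorem tabD_eq (hG : G.Pos) (h : Sys G (fun _ => (1 : ℤ)) D V₁ ξ) (p : Par)
    (ψ : ℤ⟦X⟧ →+* ZMod (2 ^ (p.B * (p.K + 1)))) (hψ : ∀ f, ψ f = psiFun p.B p.K f)
    (ι : V → ℕ) (hι : Function.Injective ι) (ds : List Arc) (vs : List ℕ)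
    (hL : ∀ x ∈ ds, x.2.2 ≤ p.L)
    (hds : ∀ (a : V) (φ : ℕ → ℕ → ZMod (2 ^ (p.B * (p.K + 1)))),
      ((ds.filter fun d => d.1 == ι a).map fun d => φ d.2.1 d.2.2).sum =
        ∑ d : Dart A E, if G.hd d = a then φ (ι (G.tl d)) (G.len d) else 0)
    (hvs : ∀ x ∈ ds, x.2.1 ∈ vs) :
    ∀ a b : V, ι a ∈ vs → ι b ∈ vs →
      ((get (tabD p ds vs) (ι a) (ι b) : ℕ) : ZMod (2 ^ (p.B * (p.K + 1)))) = ψ (D a b) := by
  classical
  have key : ∀ r : ℕ, ∃ R : V → V → ℤ⟦X⟧, (∀ a b, (X : ℤ⟦X⟧) ^ r ∣ R a b) ∧
      ∀ a b : V, ι a ∈ vs → ι b ∈ vs →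
        ((get ((stepD p ds vs)^[r] []) (ι a) (ι b) : ℕ) : ZMod (2 ^ (p.B * (p.K + 1)))) =
          ψ (D a b) - ψ (R a b) := by
    intro r
    induction r with
    | zero =>
      refine ⟨fun a b => D a b, fun a b => by rw [pow_zero]; exact one_dvd _, ?_⟩
      intro a b _ _
      rw [Function.iterate_zero, id, get_nil, Nat.cast_zero, sub_self]
    | succ r ih =>
      obtain ⟨R, hR1, hR2⟩ := ih
      refine ⟨fun a b => ∑ d : Dart A E, if G.hd d = a then
        wt G (fun _ => (1 : ℤ)) d * R (G.tl d) b else 0, ?_, ?_⟩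
      · intro a b
        apply Finset.dvd_sum
        intro d _
        split_ifs
        · rw [pow_succ']
          exact mul_dvd_mul (IterD_X_dvd_wt hG d) (hR1 _ _)
        · exact dvd_zero _
      · intro a b ha hb
        set T := (stepD p ds vs)^[r] [] with hT
        rw [Function.iterate_succ_apply', ← hT]
        unfold stepD
        rw [get_mk ha hb]
        show ((_ % 2 ^ (p.B * (p.K + 1)) : ℕ) : ZMod (2 ^ (p.B * (p.K + 1)))) = _
        rw [ZMod.natCast_mod]
        let val : ℕ → ZMod (2 ^ (p.B * (p.K + 1))) := fun y =>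
          if hy : ∃ c, ι c = y then ψ (D hy.choose b) - ψ (R hy.choose b)
          else ((get T y (ι b) : ℕ) : ZMod (2 ^ (p.B * (p.K + 1))))
        have hval : ∀ c, val (ι c) = ψ (D c b) - ψ (R c b) := by
          intro c
          have hy : ∃ c', ι c' = ι c := ⟨c, rfl⟩
          have h1 : hy.choose = c := hι hy.choose_spec
          show (if hy : ∃ c', ι c' = ι c then ψ (D hy.choose b) - ψ (R hy.choose b)
            else ((get T (ι c) (ι b) : ℕ) : ZMod (2 ^ (p.B * (p.K + 1))))) = _
          rw [dif_pos hy, h1]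
        have hval2 : ∀ y ∈ vs, ((get T y (ι b) : ℕ) : ZMod (2 ^ (p.B * (p.K + 1)))) = val y := by
          intro y hy
          by_cases hc : ∃ c, ι c = y
          · obtain ⟨c, rfl⟩ := hc
            rw [hval]
            exact hR2 c b hy hb
          · show _ = (if hy : ∃ c, ι c = y then ψ (D hy.choose b) - ψ (R hy.choose b)
              else ((get T y (ι b) : ℕ) : ZMod (2 ^ (p.B * (p.K + 1)))))
            rw [dif_neg hc]
        have hsum : (((ds.filter fun d => d.1 == ι a).map fun d =>
            pw p d * get T d.2.1 (ι b)).sum : ℕ) =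
            (∑ d : Dart A E, if G.hd d = a then
              2 ^ (p.B * G.len d) * (ψ (D (G.tl d) b) - ψ (R (G.tl d) b)) else 0 :
              ZMod (2 ^ (p.B * (p.K + 1)))) := by
          rw [Nat.cast_list_sum, List.map_map]
          have h1 : ((ds.filter fun d => d.1 == ι a).map
              (Nat.cast ∘ fun d => pw p d * get T d.2.1 (ι b)) :
              List (ZMod (2 ^ (p.B * (p.K + 1))))) =
              (ds.filter fun d => d.1 == ι a).map fun d =>
                (fun y n => 2 ^ (p.B * n) * val y) d.2.1 d.2.2 := by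
            apply List.map_congr_left
            intro d hd
            have hd' : d ∈ ds := List.mem_of_mem_filter hd
            simp only [Function.comp_apply]
            rw [Nat.cast_mul, hval2 _ (hvs d hd')]
            congr 1
            unfold pw
            rw [min_eq_left (hL d hd')]
            push_cast
            rfl
          rw [h1, hds a (fun y n => 2 ^ (p.B * n) * val y)]
          apply Finset.sum_congr rfl
          intro d _
          simp only [hval]
        rw [Nat.cast_add, hsum]
        have hD := h.D_left hG a b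
        have hψwt : ∀ d, ψ (wt G (fun _ => (1 : ℤ)) d) = 2 ^ (p.B * G.len d) := by
          intro d
          rw [hψ]
          exact psiFun_monomial p.B p.K (G.len d)
        rw [hD, map_add, map_sum, map_sum]
        have e1 : (((if ι a = ι b then 1 else 0 : ℕ)) : ZMod (2 ^ (p.B * (p.K + 1)))) =
            ψ (if a = b then 1 else 0) := by
          by_cases hab : a = b
          · rw [if_pos (by rw [hab]), if_pos hab, map_one, Nat.cast_one]
          · rw [if_neg (fun h => hab (hι h)), if_neg hab, map_zero, Nat.cast_zero]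
        rw [e1, add_sub_assoc, ← Finset.sum_sub_distrib]
        congr 1
        apply Finset.sum_congr rfl
        intro d _
        split_ifs
        · rw [map_mul, map_mul, hψwt, mul_sub]
        · rw [map_zero, sub_zero]
  intro a b ha hb
  obtain ⟨R, hR1, hR2⟩ := key (p.K + 1)
  have h1 := hR2 a b ha hb
  have h0 : ψ (R a b) = 0 := by
    rw [hψ]
    apply psiFun_pow
    intro k hk
    exact X_pow_dvd_iff.1 (hR1 a b) k (Nat.lt_succ_of_le hk)
  rw [h0, sub_zero] at h1
  exact h1

end Pool.Agent.RTO
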