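import Pool.Agent.RTO.SysEq
import Pool.Agent.RTO.Psi
import Pool.Agent.RTO.TabGet

/-!
# The tables compute the system modulo `2 ^ N`

Let `ψ` be the ring hom of `exists_psi`. All statements are over a finite vertex type `V` with an
injection `ι : V → ℕ` (in the application `V = Fin n`, `ι = Fin.val`) and for a graph `G` with
positive lengths `≤ L` such that the list of darts `ds` has, for each `a`, the sum over
`ds.filter (d.1 = ι a)` equal to the sum over the darts of `G` starting at `a` (hypothesis `hds`).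
`tabD_eq`: let `F r a b` be the iterates over `ℤ⟦X⟧`: `F 0 = 0`, `F (r+1) a b = [a = b] + ∑ d, ...`;
by `Sys.D_left` the difference `D a b - F r a b` has zero coefficients below `r` (induction on `r`),
so `ψ (D a b) = ψ (F (K+1) a b)` (`psiFun_pow`), and `get ((stepD)^[r] []) (ι a) (ι b) = ψ (F r a b)`
by induction on `r`, using `get_mk` and `psiFun_monomial`. (Directly: show by induction on `r` that
`(get ((stepD)^[r] []) (ι a) (ι b) : ZMod _) = ψ (D a b) - ψ (R r a b)` with `coeff j (R r a b) = 0` for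
`j < r`.) The iterates for `inv` and `stepV` are the same with `Sys.ξ_left`-type equation
`x = 1 - g * x` for the inverse `x` of `1 + g`, and `Sys.V_left`.
-/

namespace Pool.Agent.RTO

open PowerSeries

variable {V A E : Type} [Fintype V] [DecidableEq V] [Fintype A] [Fintype E] {G : MGr V A E}
  {D V₁ : Matrix V V ℤ⟦X⟧} {ξ : E → ℤ⟦X⟧}

private theorem itv_cast_pow (N : ℕ) : ((2 ^ N : ℕ) : ZMod (2 ^ N)) = 0 :=
  ZMod.natCast_self _

private theorem itv_cast_mod (N m : ℕ) : ((m % 2 ^ N : ℕ) : ZMod (2 ^ N)) = (m : ZMod (2 ^ N)) :=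
  ZMod.natCast_mod m (2 ^ N)

private theorem itv_cast_sub (N m : ℕ) :
    ((2 ^ N - m % 2 ^ N : ℕ) : ZMod (2 ^ N)) = -(m : ZMod (2 ^ N)) := by
  have h1 : m % 2 ^ N ≤ 2 ^ N := (Nat.mod_lt _ (by positivity)).le
  rw [Nat.cast_sub h1, itv_cast_pow, itv_cast_mod, zero_sub]

private theorem itv_sum_cast {α : Type} {S : Type} [CommRing S] (l : List α) (f : α → ℕ) :
    (((l.map f).sum : ℕ) : S) = (l.map fun x => ((f x : ℕ) : S)).sum := by
  induction l with
  | nil => simp
  | cons a l ih => simp [ih]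

theorem tabV_eq (hG : G.Pos) (h : Sys G (fun _ => (1 : ℤ)) D V₁ ξ) (p : Par)
    (ψ : ℤ⟦X⟧ →+* ZMod (2 ^ (p.B * (p.K + 1)))) (hψ : ∀ f, ψ f = psiFun p.B p.K f)
    (ι : V → ℕ) (vs : List ℕ) (TC : Table) (X : List (Arc × ℕ))
    (hTC : ∀ a b : V, ι a ∈ vs → ι b ∈ vs →
      ((get TC (ι a) (ι b) : ℕ) : ZMod (2 ^ (p.B * (p.K + 1)))) = ψ (D a b * D b a))
    (hX : ∀ φ : ℕ → ℕ → ZMod (2 ^ (p.B * (p.K + 1))),
      (X.map fun x => (x.2 : ZMod (2 ^ (p.B * (p.K + 1)))) * φ x.1.1 x.1.2.1).sum =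
        ∑ e : E, ψ (ξ e) * φ (ι (G.p e)) (ι (G.q e)))
    (hXv : ∀ x ∈ X, x.1.1 ∈ vs ∧ x.1.2.1 ∈ vs) (hE : ∀ e : E, ι (G.p e) ∈ vs ∧ ι (G.q e) ∈ vs) :
    ∀ a b : V, ι a ∈ vs → ι b ∈ vs →
      ((get (tabV p vs TC X) (ι a) (ι b) : ℕ) : ZMod (2 ^ (p.B * (p.K + 1)))) = ψ (V₁ a b) := by
  have hN : p.N = p.B * (p.K + 1) := rfl
  have key : ∀ r : ℕ, ∃ R : V → V → ℤ⟦X⟧, (∀ a b, (PowerSeries.X : ℤ⟦X⟧) ^ r ∣ R a b) ∧
      ∀ a b : V, ι a ∈ vs → ι b ∈ vs →
        ((get ((stepV p vs TC X)^[r] []) (ι a) (ι b) : ℕ) : ZMod (2 ^ (p.B * (p.K + 1)))) =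
          ψ (V₁ a b) - ψ (R a b) := by
    intro r
    induction r with
    | zero =>
      refine ⟨V₁, fun a b => by rw [pow_zero]; exact one_dvd _, ?_⟩
      intro a b _ _
      rw [Function.iterate_zero, id, get_nil, Nat.cast_zero, sub_self]
    | succ r ih =>
      obtain ⟨R, hR1, hR2⟩ := ih
      refine ⟨fun a b => -∑ e, ξ e * (D a (G.p e) * D (G.p e) a * R (G.q e) b +
        D a (G.q e) * D (G.q e) a * R (G.p e) b), ?_, ?_⟩
      · intro a b
        rw [dvd_neg]
        apply Finset.dvd_sum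
        intro e _
        rw [pow_succ']
        apply mul_dvd_mul
        · exact PowerSeries.X_dvd_iff.2 (h.constantCoeff_ξ hG e)
        · exact dvd_add (Dvd.dvd.mul_left (hR1 _ _) _) (Dvd.dvd.mul_left (hR1 _ _) _)
      · intro a b ha hb
        rw [Function.iterate_succ_apply']
        set T := (stepV p vs TC X)^[r] [] with hT
        unfold stepV
        rw [get_mk ha hb, hN, itv_cast_mod, Nat.cast_add, itv_cast_sub, itv_sum_cast]
        have h1 := hX (fun u v => ((get TC (ι a) u : ℕ) : ZMod (2 ^ (p.B * (p.K + 1)))) *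
          ((get T v (ι b) : ℕ) : ZMod (2 ^ (p.B * (p.K + 1)))) +
          ((get TC (ι a) v : ℕ) : ZMod (2 ^ (p.B * (p.K + 1)))) *
          ((get T u (ι b) : ℕ) : ZMod (2 ^ (p.B * (p.K + 1)))))
        have h2 : (X.map fun x => ((x.2 * (get TC (ι a) x.1.1 * get T x.1.2.1 (ι b) +
            get TC (ι a) x.1.2.1 * get T x.1.1 (ι b)) : ℕ) :
            ZMod (2 ^ (p.B * (p.K + 1))))).sum =
            (X.map fun x => (x.2 : ZMod (2 ^ (p.B * (p.K + 1)))) *
              (((get TC (ι a) x.1.1 : ℕ) : ZMod (2 ^ (p.B * (p.K + 1)))) *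
              ((get T x.1.2.1 (ι b) : ℕ) : ZMod (2 ^ (p.B * (p.K + 1)))) +
              ((get TC (ι a) x.1.2.1 : ℕ) : ZMod (2 ^ (p.B * (p.K + 1)))) *
              ((get T x.1.1 (ι b) : ℕ) : ZMod (2 ^ (p.B * (p.K + 1)))))).sum := by
          congr 1
          apply List.map_congr_left
          intro x _
          push_cast
          ring
        rw [h2, h1, hTC a b ha hb]
        have h3 : ∀ e : E, ψ (ξ e) *
            (((get TC (ι a) (ι (G.p e)) : ℕ) : ZMod (2 ^ (p.B * (p.K + 1)))) *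
              ((get T (ι (G.q e)) (ι b) : ℕ) : ZMod (2 ^ (p.B * (p.K + 1)))) +
              ((get TC (ι a) (ι (G.q e)) : ℕ) : ZMod (2 ^ (p.B * (p.K + 1)))) *
              ((get T (ι (G.p e)) (ι b) : ℕ) : ZMod (2 ^ (p.B * (p.K + 1))))) =
            ψ (ξ e * (D a (G.p e) * D (G.p e) a * V₁ (G.q e) b +
              D a (G.q e) * D (G.q e) a * V₁ (G.p e) b)) -
            ψ (ξ e * (D a (G.p e) * D (G.p e) a * R (G.q e) b +
              D a (G.q e) * D (G.q e) a * R (G.p e) b)) := by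
          intro e
          rw [hTC a (G.p e) ha (hE e).1, hTC a (G.q e) ha (hE e).2,
            hR2 (G.q e) b (hE e).2 hb, hR2 (G.p e) b (hE e).1 hb]
          simp only [map_mul, map_add]
          ring
        rw [Finset.sum_congr rfl (fun e _ => h3 e), Finset.sum_sub_distrib]
        have h4 : ψ (V₁ a b) = ψ (D a b * D b a) - ∑ e, ψ (ξ e *
            (D a (G.p e) * D (G.p e) a * V₁ (G.q e) b +
              D a (G.q e) * D (G.q e) a * V₁ (G.p e) b)) := by
          rw [h.V_left hG a b, map_sub, map_sum]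
        rw [h4, map_neg, map_sum]
        ring
  intro a b ha hb
  obtain ⟨R, hR1, hR2⟩ := key (p.K + 1)
  have h1 := hR2 a b ha hb
  have h2 : ψ (R a b) = 0 := by
    rw [hψ]
    apply psiFun_pow
    intro k hk
    exact PowerSeries.X_pow_dvd_iff.1 (hR1 a b) k (by omega)
  rw [h2, sub_zero] at h1
  exact h1

end Pool.Agent.RTO
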