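import Pool.Agent.RTO.SysEq
import Pool.Agent.RTO.Psi
import Pool.Agent.RTO.TabGet

/-!
# The tables compute the system modulo `2 ^ N`

Let `ψ` be the ring hom of `exists_psi`. All statements are over a finite vertex type `V` with an
injection `ι : V → ℕ` (in the application `V = Fin n`, `ι = Fin.val`) and for a graph `G` with
positive lengths `≤ L` such that the list of darts `ds` has, for each `a`, the sum over
`ds.filter (d.1 = ι a)` equal to the sum over the darts of `G` starting at `a` (hypothesis `hds`).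
`tabD_eq`: let `F r a b` be the iterates over `ℤ⟦X⟧`: `F 0 = 0`, `F (r+1) a b = [a = b] + ∑ d, ...`;
by `Sys.D_left` the difference `D a b - F r a b` has zero coefficients below `r` (induction on `r`),
so `ψ (D a b) = ψ (F (K+1) a b)` (`psiFun_pow`), and `get ((stepD)^[r] []) (ι a) (ι b) = ψ (F r a b)`
by induction on `r`, using `get_mk` and `psiFun_monomial`. (Directly: show by induction on `r` that
`(get ((stepD)^[r] []) (ι a) (ι b) : ZMod _) = ψ (D a b) - ψ (R r a b)` with `coeff j (R r a b) = 0` for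
`j < r`.) The iterates for `inv` and `stepV` are the same with `Sys.ξ_left`-type equation
`x = 1 - g * x` for the inverse `x` of `1 + g`, and `Sys.V_left`.
-/

namespace Pool.Agent.RTO

open PowerSeries

private theorem IterI_cast (M n : ℕ) (hM : 0 < M) :
    ((M - n % M : ℕ) : ZMod M) = -(n : ZMod M) := by
  rw [Nat.cast_sub (Nat.mod_lt n hM).le, ZMod.natCast_self, ZMod.natCast_mod, zero_sub]

/-- `x` solves `x = 1 - g * x`; then `inv` computes `ψ x` -/
theorem inv_eq (p : Par) (ψ : ℤ⟦X⟧ →+* ZMod (2 ^ (p.B * (p.K + 1))))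
    (hψ : ∀ f, ψ f = psiFun p.B p.K f) (g x : ℤ⟦X⟧) (hg : constantCoeff g = 0)
    (hx : x * (1 + g) = 1) (n : ℕ) (hn : (n : ZMod (2 ^ (p.B * (p.K + 1)))) = ψ g) :
    ((inv p n : ℕ) : ZMod (2 ^ (p.B * (p.K + 1)))) = ψ x := by
  have hM : 0 < 2 ^ (p.B * (p.K + 1)) := by positivity
  have key : ∀ r : ℕ,
      (((fun x => (1 + (2 ^ p.N - n % 2 ^ p.N) * x) % 2 ^ p.N)^[r] 0 : ℕ) :
        ZMod (2 ^ (p.B * (p.K + 1)))) = ψ x - ψ ((-g) ^ r * x) := by
    intro r
    induction r with
    | zero => simp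
    | succ r ih =>
      rw [Function.iterate_succ_apply']
      show (((1 + (2 ^ (p.B * (p.K + 1)) - n % 2 ^ (p.B * (p.K + 1))) * _) %
        2 ^ (p.B * (p.K + 1)) : ℕ) : ZMod (2 ^ (p.B * (p.K + 1)))) = _
      rw [ZMod.natCast_mod, Nat.cast_add, Nat.cast_one, Nat.cast_mul, ih,
        IterI_cast _ _ hM, hn]
      have h1 : x = 1 - g * x := by
        linear_combination hx
      have h2 : ψ x = 1 - ψ g * ψ x := by
        rw [← map_mul, ← map_one ψ, ← map_sub, ← h1]
      have h3 : ψ ((-g) ^ (r + 1) * x) = - ψ g * ψ ((-g) ^ r * x) := by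
        rw [← map_neg, ← map_mul]
        congr 1
        ring
      rw [h3]
      linear_combination (-1 : ZMod (2 ^ (p.B * (p.K + 1)))) * h2
  have h0 : ψ ((-g) ^ (p.K + 1) * x) = 0 := by
    rw [hψ]
    apply psiFun_pow
    have h1 : (X : ℤ⟦X⟧) ∣ -g := by
      rw [X_dvd_iff, map_neg, hg, neg_zero]
    have h2 : (X : ℤ⟦X⟧) ^ (p.K + 1) ∣ (-g) ^ (p.K + 1) * x :=
      Dvd.dvd.mul_right (pow_dvd_pow_of_dvd h1 _) _
    intro k hk
    exact X_pow_dvd_iff.1 h2 k (Nat.lt_succ_of_le hk)
  have h1 := key (p.K + 1)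
  rw [h0, sub_zero] at h1
  exact h1

end Pool.Agent.RTO
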