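import Pool.Agent.RTO.Defs
import Pool.Agent.H87.ST.Menger

/-!
# Two edge-disjoint chains in a finite multigraph (Menger for 2)

Use `exists_flow` and `flow_decomp` of `Pool.Agent.H87.ST.Menger` with
`Gm u v = #{e ∈ Γ | {α e, β e} = {u, v}, α e ≠ β e}` (as integers, symmetric), `k = 2`: an
antisymmetric flow `f ≤ Gm` of value 2 and two simple vertex paths `P 0, P 1` with
`uses (P 0) u v + uses (P 1) u v ≤ max (f u v) 0 ≤ Gm u v`; since `f v u = - f u v`, for every pair
at most one of the directions `(u,v)`, `(v,u)` is used at all. (Orientation of cuts in that file: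
`s ∉ X`, `t ∈ X`; check the direction of `cutw`; `Gm` is symmetric, so it does not matter.)
Choose the gates: for a step `(u, v)` of `P 0` the first gate between `u` and `v` (in some fixed
linear order/list), for a step `(u, v)` of `P 1` the last one; if both paths use `(u, v)` then
`Gm u v ≥ 2` and these differ; steps of the same path are different pairs.
(Any other proof is fine: e.g. augmenting path along a simple chain.)
-/

namespace Pool.Agent.RTO

variable {N E : Type}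

/-- `l` is a chain of gates from `i` to `j` (`true`: from `α` to `β`) -/
def IsChain (α β : E → N) : N → List (E × Bool) → N → Prop
  | i, [], j => i = j
  | i, x :: l, j => (if x.2 then α x.1 else β x.1) = i ∧
      IsChain α β (if x.2 then β x.1 else α x.1) l j

/-- the nodes visited by a chain starting at `i` -/
def nodes (α β : E → N) (i : N) (l : List (E × Bool)) : List N :=
  i :: l.map fun x => if x.2 then β x.1 else α x.1

/-- the chain of gates along a list of vertices -/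
private noncomputable def tc_chain (α β : E → N) (c : N → N → E) : List N → List (E × Bool)
  | [] => []
  | [_] => []
  | a :: b :: l =>
      haveI := Classical.propDecidable (α (c a b) = a ∧ β (c a b) = b)
      (c a b, decide (α (c a b) = a ∧ β (c a b) = b)) :: tc_chain α β c (b :: l)

private theorem tc_fst (α β : E → N) (c : N → N → E) : ∀ p : List N,
    (tc_chain α β c p).map Prod.fst = (p.zip p.tail).map fun x => c x.1 x.2
  | [] => rfl
  | [_] => rfl
  | a :: b :: l => by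
      have ih := tc_fst α β c (b :: l)
      simp only [tc_chain, List.map_cons, List.tail_cons, List.zip_cons_cons]
      rw [ih]
      rfl

private theorem tc_isChain (α β : E → N) (c : N → N → E) : ∀ (l : List N) (a j : N),
    (∀ x ∈ (a :: l).zip l, (α (c x.1 x.2) = x.1 ∧ β (c x.1 x.2) = x.2) ∨
      (β (c x.1 x.2) = x.1 ∧ α (c x.1 x.2) = x.2)) →
    (a :: l).getLast? = some j →
    IsChain α β a (tc_chain α β c (a :: l)) j ∧ nodes α β a (tc_chain α β c (a :: l)) = a :: l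
  | [], a, j, _, hj => by
      simp only [List.getLast?_singleton, Option.some.injEq] at hj
      exact ⟨hj, rfl⟩
  | b :: l, a, j, h, hj => by
      have h1 := h (a, b) (by simp)
      have h2 : ∀ x ∈ (b :: l).zip l, (α (c x.1 x.2) = x.1 ∧ β (c x.1 x.2) = x.2) ∨
          (β (c x.1 x.2) = x.1 ∧ α (c x.1 x.2) = x.2) := fun x hx => h x (by
        simp only [List.zip_cons_cons, List.mem_cons]
        exact Or.inr hx)
      have hj' : (b :: l).getLast? = some j := by
        rw [← hj, List.getLast?_cons_cons]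
      obtain ⟨h3, h4⟩ := tc_isChain α β c l b j h2 hj'
      simp only at h1
      unfold nodes at h4 ⊢
      simp only [tc_chain, IsChain, List.map_cons]
      by_cases h5 : α (c a b) = a ∧ β (c a b) = b
      · simp only [h5, and_self, decide_true, if_true]
        refine ⟨⟨trivial, h3⟩, ?_⟩
        rw [h4]
      · have h6 := h1.resolve_left h5
        simp only [h5, decide_false, Bool.false_eq_true, if_false]
        rw [h6.1, h6.2]
        refine ⟨⟨rfl, h3⟩, ?_⟩
        rw [h4]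

theorem two_chains [Fintype N] [DecidableEq N] (Γ : Finset E) (α β : E → N) (i j : N)
    (hij : i ≠ j)
    (hcut : ∀ J : Set N, i ∈ J → j ∉ J → ∃ e₁ ∈ Γ, ∃ e₂ ∈ Γ, e₁ ≠ e₂ ∧
      ¬ (α e₁ ∈ J ↔ β e₁ ∈ J) ∧ ¬ (α e₂ ∈ J ↔ β e₂ ∈ J)) :
    ∃ l₁ l₂ : List (E × Bool), IsChain α β i l₁ j ∧ IsChain α β i l₂ j ∧
      (nodes α β i l₁).Nodup ∧ (nodes α β i l₂).Nodup ∧ (∀ x ∈ l₁, x.1 ∈ Γ) ∧
      (∀ x ∈ l₂, x.1 ∈ Γ) ∧ (l₁.map Prod.fst ++ l₂.map Prod.fst).Nodup := by
  classical
  obtain ⟨e₀, -, -⟩ := hcut {i} rfl (fun h => hij (Set.mem_singleton_iff.1 h).symm)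
  let Pr : N → N → E → Prop := fun u v e => (α e = u ∧ β e = v) ∨ (β e = u ∧ α e = v)
  let F : N → N → Finset E := fun u v => Γ.filter (Pr u v)
  let Gm : N → N → ℤ := fun u v => ((F u v).card : ℤ)
  have hG0 : ∀ u v, 0 ≤ Gm u v := fun u v => Int.natCast_nonneg _
  have hPr : ∀ (J : Finset N) (e : E), ¬ (α e ∉ J ↔ β e ∉ J) →
      ∃ u v, u ∉ J ∧ v ∈ J ∧ Pr u v e := by
    intro J e h
    by_cases h1 : α e ∈ J
    · have h2 : β e ∉ J := by
        intro h2
        exact h ⟨fun h3 => absurd h1 h3, fun h3 => absurd h2 h3⟩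
      exact ⟨β e, α e, h2, h1, Or.inr ⟨rfl, rfl⟩⟩
    · have h2 : β e ∈ J := by
        by_contra h2
        exact h ⟨fun _ => h2, fun _ => h1⟩
      exact ⟨α e, β e, h1, h2, Or.inl ⟨rfl, rfl⟩⟩
  have hc : ∀ X : Finset N, i ∉ X → j ∈ X → ((2 : ℕ) : ℤ) ≤ H87.ST.cutw Gm X := by
    intro X hi hj
    obtain ⟨e₁, h1, e₂, h2, hne, hc1, hc2⟩ := hcut {x | x ∉ X} hi (fun h => h hj)
    obtain ⟨u₁, v₁, hu1, hv1, hp1⟩ := hPr X e₁ hc1
    obtain ⟨u₂, v₂, hu2, hv2, hp2⟩ := hPr X e₂ hc2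
    have hle : ∀ u v, H87.ST.single u₁ v₁ u v + H87.ST.single u₂ v₂ u v ≤ Gm u v := by
      intro u v
      unfold H87.ST.single
      by_cases ha : u = u₁ ∧ v = v₁
      · obtain ⟨rfl, rfl⟩ := ha
        have ha1 : e₁ ∈ F u v := Finset.mem_filter.2 ⟨h1, hp1⟩
        by_cases hb : u = u₂ ∧ v = v₂
        · obtain ⟨rfl, rfl⟩ := hb
          have hb1 : e₂ ∈ F u v := Finset.mem_filter.2 ⟨h2, hp2⟩
          have h3 : 1 < (F u v).card := Finset.one_lt_card.2 ⟨e₁, ha1, e₂, hb1, hne⟩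
          simp only [and_self, if_true, Gm]
          omega
        · have h3 : 0 < (F u v).card := Finset.card_pos.2 ⟨e₁, ha1⟩
          rw [if_pos ⟨rfl, rfl⟩, if_neg hb]
          simp only [Gm]
          omega
      · rw [if_neg ha]
        by_cases hb : u = u₂ ∧ v = v₂
        · obtain ⟨rfl, rfl⟩ := hb
          have hb1 : e₂ ∈ F u v := Finset.mem_filter.2 ⟨h2, hp2⟩
          have h3 : 0 < (F u v).card := Finset.card_pos.2 ⟨e₂, hb1⟩
          rw [if_pos ⟨rfl, rfl⟩]
          simp only [Gm]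
          omega
        · rw [if_neg hb]
          have := hG0 u v
          omega
    have h5 : H87.ST.cutw (fun u v => H87.ST.single u₁ v₁ u v + H87.ST.single u₂ v₂ u v) X ≤
        H87.ST.cutw Gm X := by
      rw [H87.ST.cutw_eq, H87.ST.cutw_eq]
      refine Finset.sum_le_sum fun u _ => Finset.sum_le_sum fun v _ => ?_
      exact mul_le_mul_of_nonneg_left (hle u v) (H87.ST.ind_nonneg X u v)
    rw [H87.ST.cutw_add, H87.ST.cutw_single, H87.ST.cutw_single] at h5
    unfold H87.ST.ind at h5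
    rw [if_pos ⟨hu1, hv1⟩, if_pos ⟨hu2, hv2⟩] at h5
    exact_mod_cast h5
  obtain ⟨f, hf1, hf2, hf3⟩ := H87.ST.exists_flow Gm hG0 i j 2 hc 2 le_rfl
  obtain ⟨P, hP1, hP2⟩ := H87.ST.flow_decomp i j 2 f hf1 hf3
  have hch : ∀ u v, ∃ ab : E × E, (1 ≤ Gm u v → (ab.1 ∈ Γ ∧ Pr u v ab.1) ∧
      (ab.2 ∈ Γ ∧ Pr u v ab.2)) ∧ (2 ≤ Gm u v → ab.1 ≠ ab.2) := by
    intro u v
    by_cases h : 2 ≤ Gm u v
    · have h3 : 1 < (F u v).card := by
        simp only [Gm] at h
        omega
      obtain ⟨a, ha, b, hb, hab⟩ := Finset.one_lt_card.1 h3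
      rw [Finset.mem_filter] at ha hb
      exact ⟨(a, b), fun _ => ⟨ha, hb⟩, fun _ => hab⟩
    · by_cases h' : 1 ≤ Gm u v
      · have h3 : 0 < (F u v).card := by
          simp only [Gm] at h'
          omega
        obtain ⟨a, ha⟩ := Finset.card_pos.1 h3
        rw [Finset.mem_filter] at ha
        exact ⟨(a, a), fun _ => ⟨ha, ha⟩, fun h4 => absurd h4 h⟩
      · exact ⟨(e₀, e₀), fun h4 => absurd h4 h', fun h4 => absurd h4 h⟩
  choose cc hcc1 hcc2 using hch
  have huse : ∀ u v, ((H87.ST.uses (P 0) u v + H87.ST.uses (P 1) u v : ℕ) : ℤ) ≤ max (f u v) 0 := by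
    intro u v
    have := hP2 u v
    rwa [Fin.sum_univ_two] at this
  have hpos : ∀ (q : List N) (x : N × N), x ∈ q.zip q.tail → 1 ≤ H87.ST.uses q x.1 x.2 := by
    intro q x hx
    unfold H87.ST.uses
    exact List.count_pos_iff.2 hx
  have hf0 : ∀ x ∈ (P 0).zip (P 0).tail, 1 ≤ f x.1 x.2 := by
    intro x hx
    have h1 := hpos _ x hx
    have h2 := huse x.1 x.2
    rcases max_cases (f x.1 x.2) 0 with h3 | h3 <;> omega
  have hf1' : ∀ x ∈ (P 1).zip (P 1).tail, 1 ≤ f x.1 x.2 := by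
    intro x hx
    have h1 := hpos _ x hx
    have h2 := huse x.1 x.2
    rcases max_cases (f x.1 x.2) 0 with h3 | h3 <;> omega
  have hsame : ∀ x y : N × N, 1 ≤ f x.1 x.2 → 1 ≤ f y.1 y.2 → ∀ e, Pr x.1 x.2 e →
      Pr y.1 y.2 e → x = y := by
    intro x y hx hy e h1 h2
    rcases h1 with h1 | h1 <;> rcases h2 with h2 | h2
    · exact Prod.ext (h1.1.symm.trans h2.1) (h1.2.symm.trans h2.2)
    · exfalso
      rw [← h1.1, ← h1.2] at hx
      rw [← h2.1, ← h2.2] at hy
      have := hf1 (α e) (β e)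
      omega
    · exfalso
      rw [← h1.1, ← h1.2] at hx
      rw [← h2.1, ← h2.2] at hy
      have := hf1 (α e) (β e)
      omega
    · exact Prod.ext (h1.1.symm.trans h2.1) (h1.2.symm.trans h2.2)
  have hzn : ∀ q : List N, q.Nodup → (q.zip q.tail).Nodup := by
    intro q hq
    apply List.Nodup.of_map Prod.snd
    rw [List.map_snd_zip]
    · exact hq.tail
    · simp
  have hcons : ∀ r : Fin 2, ∃ l, P r = i :: l := by
    intro r
    have h1 := (hP1 r).1
    cases h2 : P r with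
    | nil =>
      rw [h2] at h1
      simp at h1
    | cons a l =>
      rw [h2] at h1
      simp only [List.head?_cons, Option.some.injEq] at h1
      exact ⟨l, by rw [h1]⟩
  have hmain : ∀ (r : Fin 2) (c : N → N → E), (∀ x ∈ (P r).zip (P r).tail, c x.1 x.2 ∈ Γ ∧
      Pr x.1 x.2 (c x.1 x.2)) → IsChain α β i (tc_chain α β c (P r)) j ∧
      (nodes α β i (tc_chain α β c (P r))).Nodup ∧ (∀ x ∈ tc_chain α β c (P r), x.1 ∈ Γ) := by
    intro r c hc'
    obtain ⟨l, hl⟩ := hcons r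
    have hn := (hP1 r).2.2
    have hlast := (hP1 r).2.1
    rw [hl] at hc' hn hlast ⊢
    obtain ⟨h1, h2⟩ := tc_isChain α β c l i j (fun x hx => (hc' x hx).2) hlast
    refine ⟨h1, ?_, ?_⟩
    · rw [h2]
      exact hn
    · intro x hx
      have h3 : x.1 ∈ (tc_chain α β c (i :: l)).map Prod.fst := List.mem_map_of_mem hx
      rw [tc_fst, List.mem_map] at h3
      obtain ⟨y, hy, hy2⟩ := h3
      rw [← hy2]
      exact (hc' y hy).1
  have hG1 : ∀ x : N × N, 1 ≤ f x.1 x.2 → 1 ≤ Gm x.1 x.2 := fun x hx => hx.trans (hf2 _ _)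
  obtain ⟨a1, a2, a3⟩ := hmain 0 (fun u v => (cc u v).1) fun x hx =>
    (hcc1 x.1 x.2 (hG1 x (hf0 x hx))).1
  obtain ⟨b1, b2, b3⟩ := hmain 1 (fun u v => (cc u v).2) fun x hx =>
    (hcc1 x.1 x.2 (hG1 x (hf1' x hx))).2
  refine ⟨_, _, a1, b1, a2, b2, a3, b3, ?_⟩
  rw [tc_fst, tc_fst, List.nodup_append]
  refine ⟨?_, ?_, ?_⟩
  · refine List.Nodup.map_on ?_ (hzn _ (hP1 0).2.2)
    intro x hx y hy hxy
    refine hsame x y (hf0 x hx) (hf0 y hy) _ (hcc1 x.1 x.2 (hG1 x (hf0 x hx))).1.2 ?_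
    rw [hxy]
    exact (hcc1 y.1 y.2 (hG1 y (hf0 y hy))).1.2
  · refine List.Nodup.map_on ?_ (hzn _ (hP1 1).2.2)
    intro x hx y hy hxy
    refine hsame x y (hf1' x hx) (hf1' y hy) _ (hcc1 x.1 x.2 (hG1 x (hf1' x hx))).2.2 ?_
    rw [hxy]
    exact (hcc1 y.1 y.2 (hG1 y (hf1' y hy))).2.2
  · intro g hg g' hg' hgg
    rw [List.mem_map] at hg hg'
    obtain ⟨x, hx, rfl⟩ := hg
    obtain ⟨y, hy, rfl⟩ := hg'
    have hxy : x = y := by
      refine hsame x y (hf0 x hx) (hf1' y hy) _ (hcc1 x.1 x.2 (hG1 x (hf0 x hx))).1.2 ?_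
      rw [hgg]
      exact (hcc1 y.1 y.2 (hG1 y (hf1' y hy))).2.2
    subst hxy
    have h1 := hpos _ x hx
    have h2 := hpos _ x hy
    have h3 := huse x.1 x.2
    have h4 := hf2 x.1 x.2
    have h5 : 2 ≤ Gm x.1 x.2 := by
      rcases max_cases (f x.1 x.2) 0 with h6 | h6 <;> omega
    exact hcc2 x.1 x.2 h5 hgg

end Pool.Agent.RTO
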