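import Pool.Agent.RTO.Walk
import Pool.Agent.RTO.TwoChains

/-!
# Walking along a chain of closed walks, in both directions

`closed_pair`: rotate the closed walk `z` to `x` (`exists_split`), split at `y`.
`link`: induction on the chain `l` (generalising `i, x`). Empty chain: `closed_pair`. For
`g :: l'`: `g` goes from a vertex `x'` of the closed walk at `i` to a vertex `y'` of the next one:
`closed_pair` for `x, x'`, then the dart of `g`, then the induction hypothesis from `y'`
(for `Q`: the other direction).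
-/

namespace Pool.Agent.RTO

variable {V A E : Type} {G : MGr V A E}

private theorem mem_vset_iff {z : V × List (Dart A E)} {x : V} :
    x ∈ G.vset z ↔ (x = z.1 ∨ ∃ d ∈ z.2, G.tl d = x) := Iff.rfl

theorem closed_pair {z : V × List (Dart A E)} (hz : G.IsWalk z.1 z.2 z.1) {x y : V}
    (hx : x ∈ G.vset z) (hy : y ∈ G.vset z) :
    ∃ P Q, G.IsWalk x P y ∧ G.IsWalk y Q x ∧ (∀ d ∈ P, d ∈ z.2) ∧ (∀ d ∈ Q, d ∈ z.2) ∧
      G.cost P + G.cost Q ≤ G.cost z.2 := by
  obtain ⟨l₁, l₂, hl, h1, h2⟩ := exists_split hz hx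
  have hrot : G.IsWalk x (l₂ ++ l₁) x := isWalk_append.2 ⟨z.1, h2, h1⟩
  have hy' : y = x ∨ ∃ d ∈ l₂ ++ l₁, G.tl d = y := by
    rcases hy with rfl | ⟨d, hd, hdy⟩
    · rcases l₂.eq_nil_or_concat with rfl | ⟨l, d, hld⟩
      · have : x = z.1 := h2
        exact Or.inl this.symm
      · right
        rw [hld, List.concat_eq_append] at h2
        obtain ⟨c, -, h3⟩ := isWalk_append.1 h2
        refine ⟨d, ?_, h3.2⟩
        rw [hld, List.concat_eq_append]
        simp
    · right
      refine ⟨d, ?_, hdy⟩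
      rw [hl] at hd
      rcases List.mem_append.1 hd with h | h
      · exact List.mem_append_right _ h
      · exact List.mem_append_left _ h
  obtain ⟨m₁, m₂, hm, h3, h4⟩ := exists_split hrot hy'
  have hsub : ∀ d ∈ m₁ ++ m₂, d ∈ z.2 := by
    intro d hd
    rw [← hm] at hd
    rw [hl]
    rcases List.mem_append.1 hd with h | h
    · exact List.mem_append_right _ h
    · exact List.mem_append_left _ h
  refine ⟨m₁, m₂, h3, h4, fun d hd => hsub d (List.mem_append_left _ hd),
    fun d hd => hsub d (List.mem_append_right _ hd), ?_⟩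
  have e1 : G.cost (m₁ ++ m₂) = G.cost (l₂ ++ l₁) := by rw [hm]
  rw [cost_append, cost_append] at e1
  rw [hl, cost_append]
  omega

theorem link {N : Type} (W : N → V × List (Dart A E)) (hW : ∀ i, G.IsWalk (W i).1 (W i).2 (W i).1)
    (α β : E → N) : ∀ (l : List (E × Bool)) (i j : N) (x y : V), IsChain α β i l j →
    (∀ g ∈ l, G.p g.1 ∈ G.vset (W (α g.1)) ∧ G.q g.1 ∈ G.vset (W (β g.1))) →
    x ∈ G.vset (W i) → y ∈ G.vset (W j) →
    ∃ P Q, G.IsWalk x P y ∧ G.IsWalk y Q x ∧
      (∀ d ∈ P, (∃ i, d ∈ (W i).2) ∨ ∃ g ∈ l, d = Sum.inr g) ∧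
      (∀ d ∈ Q, (∃ i, d ∈ (W i).2) ∨ ∃ g ∈ l, d = Sum.inr (g.1, !g.2)) ∧
      G.cost P + G.cost Q ≤ ((nodes α β i l).map fun k => G.cost (W k).2).sum +
        2 * (l.map fun g => G.le g.1).sum := by
  intro l
  induction l with
  | nil =>
    intro i j x y hc _ hx hy
    have hij : i = j := hc
    subst hij
    obtain ⟨P, Q, h1, h2, h3, h4, h5⟩ := closed_pair (hW i) hx hy
    refine ⟨P, Q, h1, h2, fun d hd => Or.inl ⟨i, h3 d hd⟩, fun d hd => Or.inl ⟨i, h4 d hd⟩, ?_⟩
    simp only [nodes, List.map_nil, List.map_cons, List.sum_cons, List.sum_nil]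
    omega
  | cons g l ih =>
    intro i j x y hc hg hx hy
    obtain ⟨hi, hc'⟩ := hc
    obtain ⟨g1, g2⟩ := hg g (List.mem_cons_self ..)
    -- the ends of the gate
    have hstart : G.hd (Sum.inr g : Dart A E) ∈ G.vset (W i) := by
      obtain ⟨e, b⟩ := g
      cases b
      · have : β e = i := hi
        rw [← this]
        exact g2
      · have : α e = i := hi
        rw [← this]
        exact g1
    have hend : G.tl (Sum.inr g : Dart A E) ∈ G.vset (W (if g.2 then β g.1 else α g.1)) := by
      obtain ⟨e, b⟩ := g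
      cases b
      · exact g1
      · exact g2
    obtain ⟨P₁, Q₁, a1, a2, a3, a4, a5⟩ := closed_pair (hW i) hx hstart
    obtain ⟨P₂, Q₂, b1, b2, b3, b4, b5⟩ := ih _ j _ y hc'
      (fun g' hg' => hg g' (List.mem_cons_of_mem _ hg')) hend hy
    have hrev1 : G.hd (Sum.inr (g.1, !g.2) : Dart A E) = G.tl (Sum.inr g : Dart A E) := by
      obtain ⟨e, b⟩ := g
      cases b <;> rfl
    have hrev2 : G.tl (Sum.inr (g.1, !g.2) : Dart A E) = G.hd (Sum.inr g : Dart A E) := by
      obtain ⟨e, b⟩ := g
      cases b <;> rfl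
    refine ⟨P₁ ++ Sum.inr g :: P₂, Q₂ ++ Sum.inr (g.1, !g.2) :: Q₁,
      isWalk_append.2 ⟨_, a1, rfl, b1⟩, isWalk_append.2 ⟨_, b2, hrev1, ?_⟩, ?_, ?_, ?_⟩
    · rw [hrev2]
      exact a2
    · intro d hd
      rcases List.mem_append.1 hd with h | h
      · exact Or.inl ⟨i, a3 d h⟩
      · rcases List.mem_cons.1 h with h | h
        · exact Or.inr ⟨g, List.mem_cons_self .., h⟩
        · rcases b3 d h with h | ⟨g', hg', h⟩
          · exact Or.inl h
          · exact Or.inr ⟨g', List.mem_cons_of_mem _ hg', h⟩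
    · intro d hd
      rcases List.mem_append.1 hd with h | h
      · rcases b4 d h with h | ⟨g', hg', h⟩
        · exact Or.inl h
        · exact Or.inr ⟨g', List.mem_cons_of_mem _ hg', h⟩
      · rcases List.mem_cons.1 h with h | h
        · exact Or.inr ⟨g, List.mem_cons_self .., h⟩
        · exact Or.inl ⟨i, a4 d h⟩
    · rw [cost_append, cost_append, cost_cons, cost_cons]
      have e1 : G.len (Sum.inr g : Dart A E) = G.le g.1 := rfl
      have e2 : G.len (Sum.inr (g.1, !g.2) : Dart A E) = G.le g.1 := rfl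
      rw [e1, e2]
      have e3 : ((nodes α β i (g :: l)).map fun k => G.cost (W k).2).sum
          = G.cost (W i).2
            + ((nodes α β (if g.2 then β g.1 else α g.1) l).map fun k => G.cost (W k).2).sum := by
        simp only [nodes, List.map_cons, List.sum_cons]
      rw [e3, List.map_cons, List.sum_cons]
      omega

end Pool.Agent.RTO
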