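import Pool.Agent.RTO.Red
import Pool.Agent.RTO.Link

/-!
# Lemma L: a round trip without separating two-way edge can be made valid without extra cost

Take `𝓛, Γ` from `reduce`; nodes `N = Fin 𝓛.length`, `W i = 𝓛.get i`; for every vertex `v` in some
`vset (W i)` the node `i` is unique (`disj`); define `α e, β e` = the nodes of `p e`, `q e` for
`e ∈ Γ` (arbitrary otherwise; `N` is nonempty).
Case 1: the nodes of `s` and `t` are equal: `closed_pair`; `Ok` because all darts are in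
`𝓛.flatMap`; cost at most the cost of one member `≤ ∑ costs`; strict if `Γ` is nonempty
(`2 * ∑ le ≥ 2`).
Case 2: they differ. For `J ∋ node s`, `node t ∉ J` put `U = ⋃ i ∈ J, vset (W i)`: `s ∈ U`, `t ∉ U`.
A dart `d ∈ P ++ Q` that crosses `U` is not `und`-equal to a dart `d'` of a member of `𝓛` (both ends
of `d'` are in one `vset`, and crossing depends only on `und`), so `und d = inr e`, `e ∈ Γ`,
and `e` crosses `J`. Apply the hypothesis `hH` (twice: first with any `e`, e.g. one found by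
`exists_crosses` for `P`; then with the `e₁` found) to get two different gates crossing `J`.
`two_chains` gives `l₁, l₂`; `link` gives `P₁, Q₁` and `P₂, Q₂`. Use `(P₁, Q₂)` or `(P₂, Q₁)`.
`Ok`: darts of `𝓛` are fine (`ok`); gates of `l₁` and `l₂` are different edges, and a gate in a
chain with `Nodup` nodes joins different nodes, so it is not used by `𝓛` (a dart of `W k` has both
ends in `vset (W k)`). Cost: the sum of both possibilities is at most
`2 * ∑ costs + 2 * (le l₁ + le l₂) ≤ 2 * (∑ costs + ∑ e ∈ Γ, le e)`, so one of them costs at most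
`∑ costs + ∑ e ∈ Γ, le e`, which is `≤ c₀`, and `< c₀` if `Γ` is nonempty.
-/

namespace Pool.Agent.RTO

variable {V A E : Type} {G : MGr V A E}

private theorem ll_hd : ∀ {l : List (Dart A E)} {a b : V}, G.IsWalk a l b → ∀ d ∈ l,
    G.hd d = a ∨ ∃ d' ∈ l, G.tl d' = G.hd d
  | [], _, _, _, d, hd => by simp at hd
  | x :: l, a, b, h, d, hd => by
      obtain ⟨h1, h2⟩ := h
      rcases List.mem_cons.1 hd with rfl | h3
      · exact Or.inl h1
      · rcases ll_hd h2 d h3 with h4 | ⟨d', hd', h4⟩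
        · exact Or.inr ⟨x, List.mem_cons_self, h4.symm⟩
        · exact Or.inr ⟨d', List.mem_cons_of_mem _ hd', h4⟩

private theorem ll_ends {x : V × List (Dart A E)} (hx : G.IsWalk x.1 x.2 x.1) {d : Dart A E}
    (hd : d ∈ x.2) : G.hd d ∈ G.vset x ∧ G.tl d ∈ G.vset x :=
  ⟨ll_hd hx d hd, Or.inr ⟨d, hd, rfl⟩⟩

private theorem ll_nodes {N : Type} (α β : E → N) : ∀ {l : List (E × Bool)} {i j : N},
    IsChain α β i l j → (nodes α β i l).Nodup → ∀ x ∈ l, α x.1 ≠ β x.1
  | [], _, _, _, _, x, hx => by simp at hx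
  | y :: l, i, j, h, hn, x, hx => by
      obtain ⟨h1, h2⟩ := h
      have h3 : nodes α β i (y :: l) =
          i :: nodes α β (if y.2 then β y.1 else α y.1) l := rfl
      rw [h3, List.nodup_cons] at hn
      rcases List.mem_cons.1 hx with rfl | h4
      · intro h5
        apply hn.1
        unfold nodes
        have h6 : i = (if x.2 then β x.1 else α x.1) := by
          rw [← h1, h5]
        rw [← h6]
        exact List.mem_cons_self
      · exact ll_nodes α β h2 hn.2 x h4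

private theorem ll_sum_le {ι : Type} [Fintype ι] (f : ι → ℕ) {l : List ι}
    (hl : l.Nodup) : (l.map f).sum ≤ ∑ i, f i := by
  classical
  rw [← List.sum_toFinset f hl]
  exact Finset.sum_le_sum_of_subset (Finset.subset_univ _)

private theorem ll_sum_le' {ι : Type} (f : ι → ℕ) {l : List ι} (Γ : Finset ι)
    (hl : l.Nodup) (h : ∀ x ∈ l, x ∈ Γ) : (l.map f).sum ≤ ∑ i ∈ Γ, f i := by
  classical
  rw [← List.sum_toFinset f hl]
  exact Finset.sum_le_sum_of_subset (fun x hx => h x (List.mem_toFinset.1 hx))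

private theorem ll_ok {N : Type} {W : N → V × List (Dart A E)}
    (hW : ∀ i, G.IsWalk (W i).1 (W i).2 (W i).1)
    (hok : ∀ e : E, (∃ i, Sum.inr (e, true) ∈ (W i).2) → ¬ ∃ i, Sum.inr (e, false) ∈ (W i).2)
    (α β : E → N) {l l' : List (E × Bool)}
    (hu : ∀ v i j, v ∈ G.vset (W i) → v ∈ G.vset (W j) → i = j)
    (hl : ∀ x ∈ l, α x.1 ≠ β x.1) (hl' : ∀ x ∈ l', α x.1 ≠ β x.1)
    (hg : ∀ x ∈ l, G.p x.1 ∈ G.vset (W (α x.1)) ∧ G.q x.1 ∈ G.vset (W (β x.1)))
    (hg' : ∀ x ∈ l', G.p x.1 ∈ G.vset (W (α x.1)) ∧ G.q x.1 ∈ G.vset (W (β x.1)))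
    (hn : (l.map Prod.fst).Nodup) (hn' : (l'.map Prod.fst).Nodup)
    (hd : ∀ x ∈ l, ∀ y ∈ l', x.1 ≠ y.1) {R : List (Dart A E)}
    (hR : ∀ d ∈ R, (∃ i, d ∈ (W i).2) ∨ (∃ g ∈ l, d = Sum.inr g) ∨
      ∃ g ∈ l', d = Sum.inr (g.1, !g.2)) : Ok R := by
  have key : ∀ (e : E) (b : Bool), α e ≠ β e → G.p e ∈ G.vset (W (α e)) →
      G.q e ∈ G.vset (W (β e)) → ¬ ∃ i, (Sum.inr (e, b) : Dart A E) ∈ (W i).2 := by
    rintro e b hne h1 h2 ⟨i, hi⟩
    obtain ⟨h3, h4⟩ := ll_ends (hW i) hi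
    have h5 : G.p e ∈ G.vset (W i) ∧ G.q e ∈ G.vset (W i) := by
      cases b
      · exact ⟨h4, h3⟩
      · exact ⟨h3, h4⟩
    exact hne ((hu _ _ _ h1 h5.1).trans (hu _ _ _ h5.2 h2))
  intro e h1 h2
  have cases' : ∀ b : Bool, (Sum.inr (e, b) : Dart A E) ∈ R →
      (∃ i, (Sum.inr (e, b) : Dart A E) ∈ (W i).2) ∨ (e, b) ∈ l ∨ (e, !b) ∈ l' := by
    intro b hb
    rcases hR _ hb with h | ⟨g, hg1, hg2⟩ | ⟨g, hg1, hg2⟩
    · exact Or.inl h
    · right
      left
      rw [Sum.inr.injEq] at hg2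
      rw [hg2]
      exact hg1
    · right
      right
      rw [Sum.inr.injEq, Prod.mk.injEq] at hg2
      have : (e, !b) = g := by
        rw [hg2.1, hg2.2, Bool.not_not]
      rw [this]
      exact hg1
  have inj : ∀ x ∈ l, ∀ y ∈ l, x.1 = y.1 → x = y := fun x hx y hy h =>
    List.inj_on_of_nodup_map hn hx hy h
  have inj' : ∀ x ∈ l', ∀ y ∈ l', x.1 = y.1 → x = y := fun x hx y hy h =>
    List.inj_on_of_nodup_map hn' hx hy h
  rcases cases' true h1 with h3 | h3 | h3 <;> rcases cases' false h2 with h4 | h4 | h4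
  · exact hok e h3 h4
  · exact key e true (hl _ h4) (hg _ h4).1 (hg _ h4).2 h3
  · exact key e true (hl' _ h4) (hg' _ h4).1 (hg' _ h4).2 h3
  · exact key e false (hl _ h3) (hg _ h3).1 (hg _ h3).2 h4
  · have := inj _ h3 _ h4 rfl
    simp at this
  · exact hd _ h3 _ h4 rfl
  · exact key e false (hl' _ h3) (hg' _ h3).1 (hg' _ h3).2 h4
  · exact hd _ h4 _ h3 rfl
  · have := inj' _ h3 _ h4 rfl
    simp at this

theorem lemL (hG : G.Pos) {s t : V} {P Q : List (Dart A E)} (hP : G.IsWalk s P t)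
    (hQ : G.IsWalk t Q s)
    (hH : ∀ U : Set V, s ∈ U → t ∉ U → ∀ e : E, ∃ d ∈ P ++ Q, G.Crosses U d ∧ und d ≠ Sum.inr e) :
    ∃ P' Q', G.Valid s t P' Q' ∧ G.cost P' + G.cost Q' ≤ G.cost P + G.cost Q ∧
      (¬ Ok (P ++ Q) → G.cost P' + G.cost Q' < G.cost P + G.cost Q) := by
  classical
  obtain ⟨𝓛, Γ, hT, hg, hne⟩ := reduce s t P Q hP hQ
  let W : Fin 𝓛.length → V × List (Dart A E) := fun i => 𝓛.get i
  have hWm : ∀ i, W i ∈ 𝓛 := fun i => List.get_mem 𝓛 i
  have hWe : ∀ x ∈ 𝓛, ∃ i, W i = x := fun x hx => by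
    obtain ⟨n, hn⟩ := List.get_of_mem hx
    exact ⟨n, hn⟩
  have hW : ∀ i, G.IsWalk (W i).1 (W i).2 (W i).1 := fun i => hT.closed _ (hWm i)
  have hu : ∀ v i j, v ∈ G.vset (W i) → v ∈ G.vset (W j) → i = j := by
    intro v i j hi hj
    by_contra hij
    have hpw := List.pairwise_iff_get.1 hT.disj
    rcases lt_or_gt_of_ne hij with h | h
    · exact Set.disjoint_left.1 (hpw i j h) hi hj
    · exact Set.disjoint_left.1 (hpw j i h) hj hi
  have hsum : ∑ i, G.cost (W i).2 = (𝓛.map fun x => G.cost x.2).sum := by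
    have h1 : 𝓛.map (fun x => G.cost x.2) = List.ofFn fun i => G.cost (W i).2 := by
      conv_lhs => rw [← List.ofFn_get 𝓛]
      rw [List.map_ofFn]
      rfl
    rw [h1, List.sum_ofFn]
  have hcost := hT.cost
  rw [← hsum] at hcost
  have hΓ : ¬ Ok (P ++ Q) → 1 ≤ ∑ e ∈ Γ, G.le e := by
    intro h
    obtain ⟨e, he⟩ := hne h
    exact (hG.2 e).trans_le (Finset.single_le_sum (f := fun e => G.le e)
      (fun _ _ => Nat.zero_le _) he)
  have hok : ∀ e : E, (∃ i, (Sum.inr (e, true) : Dart A E) ∈ (W i).2) →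
      ¬ ∃ i, (Sum.inr (e, false) : Dart A E) ∈ (W i).2 := by
    rintro e ⟨i, hi⟩ ⟨j, hj⟩
    exact hT.ok e (List.mem_flatMap.2 ⟨W i, hWm i, hi⟩) (List.mem_flatMap.2 ⟨W j, hWm j, hj⟩)
  obtain ⟨x, hx, hsx⟩ := hT.hs
  obtain ⟨i, rfl⟩ := hWe x hx
  obtain ⟨x, hx', htx⟩ := hT.ht
  obtain ⟨j, rfl⟩ := hWe x hx'
  by_cases hij : i = j
  · subst hij
    obtain ⟨P', Q', h1, h2, h3, h4, h5⟩ := closed_pair (hW i) hsx htx
    have h6 : G.cost (W i).2 ≤ ∑ i, G.cost (W i).2 :=
      Finset.single_le_sum (f := fun i => G.cost (W i).2) (fun _ _ => Nat.zero_le _)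
        (Finset.mem_univ i)
    refine ⟨P', Q', ⟨h1, h2, ?_⟩, ?_, ?_⟩
    · intro e he1 he2
      refine hok e ⟨i, ?_⟩ ⟨i, ?_⟩
      · rcases List.mem_append.1 he1 with h | h
        · exact h3 _ h
        · exact h4 _ h
      · rcases List.mem_append.1 he2 with h | h
        · exact h3 _ h
        · exact h4 _ h
    · omega
    · intro h
      have := hΓ h
      omega
  · have hα : ∀ e : E, ∃ k, e ∈ Γ → G.p e ∈ G.vset (W k) := by
      intro e
      by_cases he : e ∈ Γ
      · obtain ⟨x, hx, h⟩ := (hT.ends e he).1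
        obtain ⟨k, rfl⟩ := hWe x hx
        exact ⟨k, fun _ => h⟩
      · exact ⟨i, fun h => absurd h he⟩
    have hβ : ∀ e : E, ∃ k, e ∈ Γ → G.q e ∈ G.vset (W k) := by
      intro e
      by_cases he : e ∈ Γ
      · obtain ⟨x, hx, h⟩ := (hT.ends e he).2
        obtain ⟨k, rfl⟩ := hWe x hx
        exact ⟨k, fun _ => h⟩
      · exact ⟨i, fun h => absurd h he⟩
    choose α hα using hα
    choose β hβ using hβ
    have hcut : ∀ J : Set (Fin 𝓛.length), i ∈ J → j ∉ J → ∃ e₁ ∈ Γ, ∃ e₂ ∈ Γ, e₁ ≠ e₂ ∧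
        ¬ (α e₁ ∈ J ↔ β e₁ ∈ J) ∧ ¬ (α e₂ ∈ J ↔ β e₂ ∈ J) := by
      intro J hi hj
      let U : Set V := {v | ∃ k ∈ J, v ∈ G.vset (W k)}
      have hU : ∀ v k, v ∈ G.vset (W k) → (v ∈ U ↔ k ∈ J) := by
        intro v k hv
        constructor
        · rintro ⟨k', hk', hv'⟩
          rw [hu v k k' hv hv']
          exact hk'
        · intro hk
          exact ⟨k, hk, hv⟩
      have hsU : s ∈ U := (hU s i hsx).2 hi
      have htU : t ∉ U := fun h => hj ((hU t j htx).1 h)
      have key : ∀ d ∈ P ++ Q, G.Crosses U d → ∃ e ∈ Γ, und d = Sum.inr e ∧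
          ¬ (α e ∈ J ↔ β e ∈ J) := by
        intro d hd hc
        rcases hg d hd with ⟨x, hx, d', hd', hdd⟩ | ⟨e, he, hde⟩
        · exfalso
          obtain ⟨k, rfl⟩ := hWe x hx
          obtain ⟨h1, h2⟩ := ll_ends (hW k) hd'
          have h3 : G.hd d' ∈ U ↔ G.tl d' ∈ U := by
            rw [hU _ _ h1, hU _ _ h2]
          apply hc
          rcases d with a | ⟨e, b⟩ <;> rcases d' with a' | ⟨e', b'⟩
          · simp only [und, Sum.inl.injEq] at hdd
            rw [← hdd]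
            exact h3
          · simp [und] at hdd
          · simp [und] at hdd
          · simp only [und, Sum.inr.injEq] at hdd
            subst hdd
            cases b <;> cases b'
            · exact h3
            · exact h3.symm
            · exact h3.symm
            · exact h3
        · refine ⟨e, he, hde, ?_⟩
          rw [← hU _ _ (hα e he), ← hU _ _ (hβ e he)]
          intro h3
          apply hc
          rcases d with a | ⟨e', b⟩
          · simp [und] at hde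
          · simp only [und, Sum.inr.injEq] at hde
            subst hde
            cases b
            · exact h3.symm
            · exact h3
      obtain ⟨d₁, hd₁, hc₁⟩ := exists_crosses hP (U := U) (fun h => htU (h.1 hsU))
      obtain ⟨e₁, he₁, hde₁, hc₁'⟩ := key d₁ (List.mem_append_left _ hd₁) hc₁
      obtain ⟨d₂, hd₂, hc₂, hne₂⟩ := hH U hsU htU e₁
      obtain ⟨e₂, he₂, hde₂, hc₂'⟩ := key d₂ hd₂ hc₂
      refine ⟨e₁, he₁, e₂, he₂, ?_, hc₁', hc₂'⟩
      intro h
      rw [h] at hne₂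
      exact hne₂ hde₂
    obtain ⟨l₁, l₂, c1, c2, n1, n2, m1, m2, nd⟩ := two_chains Γ α β i j hij hcut
    have g1 : ∀ g ∈ l₁, G.p g.1 ∈ G.vset (W (α g.1)) ∧ G.q g.1 ∈ G.vset (W (β g.1)) :=
      fun g hg' => ⟨hα _ (m1 g hg'), hβ _ (m1 g hg')⟩
    have g2 : ∀ g ∈ l₂, G.p g.1 ∈ G.vset (W (α g.1)) ∧ G.q g.1 ∈ G.vset (W (β g.1)) :=
      fun g hg' => ⟨hα _ (m2 g hg'), hβ _ (m2 g hg')⟩
    obtain ⟨P₁, Q₁, p1, q1, dp1, dq1, k1⟩ := link W hW α β l₁ i j s t c1 g1 hsx htx
    obtain ⟨P₂, Q₂, p2, q2, dp2, dq2, k2⟩ := link W hW α β l₂ i j s t c2 g2 hsx htx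
    rw [List.nodup_append] at nd
    have hd12 : ∀ x ∈ l₁, ∀ y ∈ l₂, x.1 ≠ y.1 := fun x hx y hy =>
      nd.2.2 x.1 (List.mem_map_of_mem hx) y.1 (List.mem_map_of_mem hy)
    have ok1 : Ok (P₁ ++ Q₂) := by
      refine ll_ok hW hok α β hu (ll_nodes α β c1 n1) (ll_nodes α β c2 n2) g1 g2 nd.1 nd.2.1
        hd12 fun d hd => ?_
      rcases List.mem_append.1 hd with h | h
      · rcases dp1 d h with h' | h'
        · exact Or.inl h'
        · exact Or.inr (Or.inl h')
      · rcases dq2 d h with h' | h'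
        · exact Or.inl h'
        · exact Or.inr (Or.inr h')
    have ok2 : Ok (P₂ ++ Q₁) := by
      refine ll_ok hW hok α β hu (ll_nodes α β c2 n2) (ll_nodes α β c1 n1) g2 g1 nd.2.1 nd.1
        (fun x hx y hy h => hd12 y hy x hx h.symm) fun d hd => ?_
      rcases List.mem_append.1 hd with h | h
      · rcases dp2 d h with h' | h'
        · exact Or.inl h'
        · exact Or.inr (Or.inl h')
      · rcases dq1 d h with h' | h'
        · exact Or.inl h'
        · exact Or.inr (Or.inr h')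
    have s1 := ll_sum_le (fun k => G.cost (W k).2) n1
    have s2 := ll_sum_le (fun k => G.cost (W k).2) n2
    have s3 : (l₁.map fun g => G.le g.1).sum + (l₂.map fun g => G.le g.1).sum ≤
        ∑ e ∈ Γ, G.le e := by
      have h1 := ll_sum_le' G.le Γ (List.nodup_append.2 nd) (by
        intro e he
        rcases List.mem_append.1 he with h | h
        · obtain ⟨x, hx, rfl⟩ := List.mem_map.1 h
          exact m1 x hx
        · obtain ⟨x, hx, rfl⟩ := List.mem_map.1 h
          exact m2 x hx)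
      rw [List.map_append, List.sum_append, List.map_map, List.map_map] at h1
      exact h1
    simp only at s1 s2
    by_cases hb : G.cost P₁ + G.cost Q₂ ≤ ∑ i, G.cost (W i).2 + ∑ e ∈ Γ, G.le e
    · refine ⟨P₁, Q₂, ⟨p1, q2, ok1⟩, ?_, ?_⟩
      · omega
      · intro h
        have := hΓ h
        omega
    · refine ⟨P₂, Q₁, ⟨p2, q1, ok2⟩, ?_, ?_⟩
      · omega
      · intro h
        have := hΓ h
        omega

end Pool.Agent.RTO
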