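import Pool.Agent.RTO.LemL
import Pool.Agent.RTO.BadZero

/-!
# The low coefficients of `V₁ s t`

For a relaxed round trip `(P, Q)` with `m = cnt P + cnt Q` either the hypothesis `hH` of `lemL` holds,
or there are `U ∋ s`, `t ∉ U` and `e₀` such that every dart of `P ++ Q` crossing `U` has
`und d = inr e₀`, and then `bad_zero` gives `cf k m (V₁ s t) = 0` for all `k` (the support of `m` is
`{und d | d ∈ P ++ Q}`, crossing depends only on `und d`: two darts with the same `und` are equal or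
reverse to each other; if `E` is empty `hH` holds trivially).
`gen_lt`: if the coefficient is not 0, `supV` gives `(P, Q)`, the second case is impossible, so `lemL`
gives a valid round trip of cost `≤ k < c`, contradiction.
`gen_eq`: if `cf c m (V₁ s t) ≠ cf c m (Cm D s t)` then `supVC` gives `(P, Q)` not `Ok` of cost `c`;
if `hH` held, `lemL` would give a valid round trip of cost `< c`; so `cf c m (V₁ s t) = 0`.
`gen_pos`: a valid round trip satisfies `hH`: `P` and `Q` both cross `U`; if all crossing darts had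
`und d = inr e`, then `P` leaves `U` by `e` in one direction, and `Q` enters `U` by `e` in the other
direction, contradicting `Ok` (need: a walk from `U` to the complement contains a dart `d` with
`hd d ∈ U`, `tl d ∉ U`, and conversely). By `supC_walk` and `gen_eq` type argument the coefficient
is `cf (Cm D s t) ≥ 1`: if it were different, `supVC` gives `(P', Q')` not `Ok` with the same `m`,
`hH` holds for `(P', Q')` (same support), so `lemL` gives cost `< c`.
-/

namespace Pool.Agent.RTO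

open PowerSeries

variable {V A E : Type} [Fintype V] [DecidableEq V] [Fintype A] [Fintype E]
  {G : MGr V A E} {D V₁ : Matrix V V (MvPolynomial (A ⊕ E) ℤ)⟦X⟧}
  {ξ : E → (MvPolynomial (A ⊕ E) ℤ)⟦X⟧}

omit [Fintype V] [DecidableEq V] [Fintype A] [Fintype E] in
private theorem crosses_congr (U : Set V) {d d' : Dart A E} (h : und d = und d') :
    G.Crosses U d ↔ G.Crosses U d' := by
  rcases d with a | ⟨e, b⟩ <;> rcases d' with a' | ⟨e', b'⟩
  · simp only [und, Sum.inl.injEq] at h
    subst h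
    rfl
  · simp [und] at h
  · simp [und] at h
  · simp only [und, Sum.inr.injEq] at h
    subst h
    unfold MGr.Crosses
    cases b <;> cases b' <;> simp [MGr.hd, MGr.tl, iff_comm]

omit [Fintype V] [DecidableEq V] [Fintype A] [Fintype E] in
private theorem exit_walk {l : List (Dart A E)} : ∀ {a b : V}, G.IsWalk a l b → ∀ {U : Set V},
    a ∈ U → b ∉ U → ∃ d ∈ l, G.hd d ∈ U ∧ G.tl d ∉ U := by
  induction l with
  | nil =>
    intro a b h U ha hb
    have : a = b := h
    exact absurd (this ▸ ha) hb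
  | cons d l ih =>
    intro a b h U ha hb
    obtain ⟨h1, h2⟩ := h
    by_cases h3 : G.tl d ∈ U
    · obtain ⟨d', h4, h5⟩ := ih h2 h3 hb
      exact ⟨d', List.mem_cons_of_mem _ h4, h5⟩
    · exact ⟨d, List.mem_cons_self, h1 ▸ ha, h3⟩

/-- no undirected edge separates `s` from `t` in the darts of `L` -/
private def Good (G : MGr V A E) (s t : V) (L : List (Dart A E)) : Prop :=
  ∀ U : Set V, s ∈ U → t ∉ U → ∀ e : E, ∃ d ∈ L, G.Crosses U d ∧ und d ≠ Sum.inr e

omit [Fintype V] [DecidableEq V] [Fintype A] [Fintype E] in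
private theorem good_congr {s t : V} {P Q P' Q' : List (Dart A E)}
    (h : cnt P + cnt Q = cnt P' + cnt Q') (hg : Good G s t (P ++ Q)) : Good G s t (P' ++ Q') := by
  intro U hs ht e
  obtain ⟨d, h1, h2, h3⟩ := hg U hs ht e
  have h4 : und d ∈ (cnt (P ++ Q)).support := mem_support_cnt.2 ⟨d, h1, rfl⟩
  rw [cnt_append, h, ← cnt_append] at h4
  obtain ⟨d', h5, h6⟩ := mem_support_cnt.1 h4
  exact ⟨d', h5, (crosses_congr U h6).2 h2, h6 ▸ h3⟩

omit [Fintype V] [DecidableEq V] [Fintype A] [Fintype E] in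
private theorem valid_good {s t : V} {P Q : List (Dart A E)} (h : G.Valid s t P Q) :
    Good G s t (P ++ Q) := by
  intro U hs ht e
  obtain ⟨hP, hQ, hok⟩ := h
  by_contra hcon
  push Not at hcon
  obtain ⟨d, h1, h2, h3⟩ := exit_walk hP hs ht
  obtain ⟨d', h1', h2', h3'⟩ := exit_walk hQ (U := Uᶜ) ht (fun h => h hs)
  have h2'' : G.hd d' ∉ U := h2'
  have h3'' : G.tl d' ∈ U := not_not.1 h3'
  have e1 := hcon d (List.mem_append_left _ h1) (by unfold MGr.Crosses; tauto)
  have e2 := hcon d' (List.mem_append_right _ h1') (by unfold MGr.Crosses; tauto)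
  have m1 := List.mem_append_left Q h1
  have m2 := List.mem_append_right P h1'
  rcases d with a | ⟨e3, b⟩
  · simp [und] at e1
  rcases d' with a' | ⟨e4, b'⟩
  · simp [und] at e2
  simp only [und, Sum.inr.injEq] at e1 e2
  subst e1
  subst e2
  cases b <;> cases b'
  · exact h2'' h2
  · exact hok _ m2 m1
  · exact hok _ m1 m2
  · exact h2'' h2

private theorem bad_cf (hG : G.Pos) (h : Sys G MvPolynomial.X D V₁ ξ) {s t : V}
    {P Q : List (Dart A E)} (hg : ¬ Good G s t (P ++ Q)) (k : ℕ) :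
    cf k (cnt P + cnt Q) (V₁ s t) = 0 := by
  unfold Good at hg
  push Not at hg
  obtain ⟨U, hs, ht, e, he⟩ := hg
  refine bad_zero hG h U hs ht e _ k ?_
  intro d hd hcr
  rw [← cnt_append] at hd
  obtain ⟨d', h5, h6⟩ := mem_support_cnt.1 hd
  have := he d' h5 ((crosses_congr U h6).2 hcr)
  rw [← h6, this]

theorem gen_lt (hG : G.Pos) (h : Sys G MvPolynomial.X D V₁ ξ) {s t : V} (hst : s ≠ t) {c : ℕ}
    (hc : ∀ P Q, G.Valid s t P Q → c ≤ G.cost P + G.cost Q) {k : ℕ} (hk : k < c)
    (m : A ⊕ E →₀ ℕ) : cf k m (V₁ s t) = 0 := by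
  by_contra hne
  obtain ⟨P, Q, hP, hQ, hm, hcost⟩ := supV hG h k s t m hne
  by_cases hg : Good G s t (P ++ Q)
  · obtain ⟨P', Q', hv, hle, _⟩ := lemL hG hP hQ hg
    have := hc P' Q' hv
    omega
  · exact hne (hm ▸ bad_cf hG h hg k)

theorem gen_eq (hG : G.Pos) (h : Sys G MvPolynomial.X D V₁ ξ) {s t : V} (hst : s ≠ t) {c : ℕ}
    (hc : ∀ P Q, G.Valid s t P Q → c ≤ G.cost P + G.cost Q) (m : A ⊕ E →₀ ℕ) :
    cf c m (V₁ s t) = 0 ∨ cf c m (V₁ s t) = cf c m (Cm D s t) := by
  by_cases h1 : cf c m (V₁ s t - Cm D s t) = 0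
  · right
    rw [cf_sub, sub_eq_zero] at h1
    exact h1
  · left
    obtain ⟨P, Q, hP, hQ, hok, hm, hcost⟩ := supVC hG h c s t m h1
    by_cases hg : Good G s t (P ++ Q)
    · obtain ⟨P', Q', hv, _, hlt⟩ := lemL hG hP hQ hg
      have h2 := hc P' Q' hv
      have h3 := hlt hok
      omega
    · exact hm ▸ bad_cf hG h hg c

theorem gen_pos (hG : G.Pos) (h : Sys G MvPolynomial.X D V₁ ξ) {s t : V} (hst : s ≠ t)
    {P Q : List (Dart A E)} (hPQ : G.Valid s t P Q)
    (hc : ∀ P' Q', G.Valid s t P' Q' → G.cost P + G.cost Q ≤ G.cost P' + G.cost Q') :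
    1 ≤ cf (G.cost P + G.cost Q) (cnt P + cnt Q) (V₁ s t) := by
  have hg := valid_good hPQ
  have h1 : cf (G.cost P + G.cost Q) (cnt P + cnt Q) (V₁ s t - Cm D s t) = 0 := by
    by_contra hne
    obtain ⟨P', Q', hP', hQ', hok, hm, hcost⟩ := supVC hG h _ s t _ hne
    obtain ⟨P₂, Q₂, hv, _, hlt⟩ := lemL hG hP' hQ' (good_congr hm.symm hg)
    have h2 := hc P₂ Q₂ hv
    have h3 := hlt hok
    omega
  rw [cf_sub, sub_eq_zero] at h1
  rw [h1]
  exact supC_walk hG h hPQ.1 hPQ.2.1

end Pool.Agent.RTO
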