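import Pool.Agent.RTO.MainGen

/-!
# Main theorem with all weights 1

Take the generic system over `MvPolynomial (A ⊕ E) ℤ` (`exists_sys`) and apply `Sys.map` with
`φ = MvPolynomial.eval (fun _ => 1) : MvPolynomial (A ⊕ E) ℤ →+* ℤ`. The coefficient of `X ^ k` of
`PowerSeries.map φ f` is `φ (coeff k f) = ∑ m ∈ support, coeff m (coeff k f)`
(MvPolynomial.eval_eq / sum of coefficients). All `m`-coefficients vanish for `k < c` (`gen_lt`), and
for `k = c` they are between `0` and those of `Cm D s t` (`gen_eq`, `supC_nonneg`), one of them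
is positive (`gen_pos`).
-/

namespace Pool.Agent.RTO

open PowerSeries

variable {V A E : Type} [Fintype V] [DecidableEq V] [Fintype A] [Fintype E] {G : MGr V A E}

private theorem eval_one_eq {σ : Type} (f : MvPolynomial σ ℤ) (S : Finset (σ →₀ ℕ))
    (hS : f.support ⊆ S) :
    MvPolynomial.eval (fun _ => (1 : ℤ)) f = ∑ m ∈ S, MvPolynomial.coeff m f := by
  rw [MvPolynomial.eval_eq]
  simp only [one_pow, Finset.prod_const_one, mul_one]
  refine Finset.sum_subset hS fun m _ hm => ?_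
  exact MvPolynomial.notMem_support_iff.1 hm

theorem main_one (hG : G.Pos) {s t : V} (hst : s ≠ t) :
    ∃ (D V₁ : Matrix V V ℤ⟦X⟧) (ξ : E → ℤ⟦X⟧), Sys G (fun _ => (1 : ℤ)) D V₁ ξ ∧
      (∀ c, (∀ k ∈ G.costs s t, c ≤ k) → ∀ k < c, PowerSeries.coeff k (V₁ s t) = 0) ∧
      (∀ c, IsLeast (G.costs s t) c → 0 < PowerSeries.coeff c (V₁ s t) ∧
        PowerSeries.coeff c (V₁ s t) ≤ PowerSeries.coeff c (Cm D s t)) := by
  classical
  obtain ⟨D, V₁, ξ, h⟩ := exists_sys (R := MvPolynomial (A ⊕ E) ℤ) hG MvPolynomial.X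
  let φ : MvPolynomial (A ⊕ E) ℤ →+* ℤ := MvPolynomial.eval (fun _ => (1 : ℤ))
  have hφ : (fun i : A ⊕ E => φ (MvPolynomial.X i)) = fun _ => (1 : ℤ) := by
    funext i
    simp [φ]
  have hm := h.map φ
  rw [hφ] at hm
  refine ⟨_, _, _, hm, ?_, ?_⟩
  · intro c hc k hk
    rw [PowerSeries.coeff_map]
    have h1 : ∀ m, cf k m (V₁ s t) = 0 := fun m => gen_lt hG h hst
      (fun P Q hv => hc _ ⟨P, Q, hv, rfl⟩) hk m
    change MvPolynomial.eval (fun _ => (1 : ℤ)) _ = 0
    rw [eval_one_eq _ _ (Finset.Subset.refl _)]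
    exact Finset.sum_eq_zero fun m _ => h1 m
  · intro c hc
    have hc' : ∀ P Q, G.Valid s t P Q → c ≤ G.cost P + G.cost Q :=
      fun P Q hv => hc.2 ⟨P, Q, hv, rfl⟩
    obtain ⟨⟨P, Q, hPQ, hcost⟩, _⟩ := hc
    have hpos := gen_pos hG h hst hPQ (fun P' Q' hv => hcost ▸ hc' P' Q' hv)
    rw [hcost] at hpos
    have h2 : ∀ m, 0 ≤ cf c m (V₁ s t) ∧ cf c m (V₁ s t) ≤ cf c m (Cm D s t) := by
      intro m
      have h3 := supC_nonneg hG h s t c m
      rcases gen_eq hG h hst hc' m with h4 | h4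
      · rw [h4]
        exact ⟨le_rfl, h3⟩
      · rw [h4]
        exact ⟨h3, le_rfl⟩
    have e1 : PowerSeries.coeff c (PowerSeries.map φ (V₁ s t)) =
        MvPolynomial.eval (fun _ => (1 : ℤ)) (PowerSeries.coeff c (V₁ s t)) :=
      PowerSeries.coeff_map _ _ _
    have e2 : Cm (fun a b => PowerSeries.map φ (D a b)) s t =
        PowerSeries.map φ (Cm D s t) := by
      simp only [Cm, map_mul]
    have e3 : PowerSeries.coeff c (PowerSeries.map φ (Cm D s t)) =
        MvPolynomial.eval (fun _ => (1 : ℤ)) (PowerSeries.coeff c (Cm D s t)) :=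
      PowerSeries.coeff_map _ _ _
    rw [e2, e1, e3]
    set S := (PowerSeries.coeff c (V₁ s t)).support ∪ (PowerSeries.coeff c (Cm D s t)).support
    rw [eval_one_eq _ S Finset.subset_union_left, eval_one_eq _ S Finset.subset_union_right]
    constructor
    · refine Finset.sum_pos' (fun m _ => (h2 m).1) ⟨cnt P + cnt Q, ?_, ?_⟩
      · refine Finset.mem_union_left _ (MvPolynomial.mem_support_iff.2 ?_)
        change cf c _ _ ≠ 0
        omega
      · change 0 < cf c _ _
        omega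
    · exact Finset.sum_le_sum fun m _ => (h2 m).2

end Pool.Agent.RTO
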