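import Pool.Agent.RTO.IterEq
import Pool.Agent.RTO.GrDefs

/-!
# The number computed by `numV`

Let `n` be larger than all entries of `vlist A E s t`, `V = Fin n`, `G : MGr (Fin n) ...` the graph with
`G.map Fin.val = gr A E` (all ends are `< n`). `tabD_eq` with `ds = dartL A E`, `ι = Fin.val`: the
hypothesis `hds` is the reindexing of sums over `A ++ (E ++ E.map rev)` by
`Fin A.length ⊕ Fin E.length × Bool` (List.sum_ofFn / Fin.sum_univ_get style lemmas, Fintype.sum_sum_type,
Fintype.sum_prod_type). `tabC`: product modulo. `xiN`: `inv_eq` with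
`g = wE e * (D p q + D q p)`, `ξ e = wE e ^ 2 * x`. Then `tabV_eq`.
-/

namespace Pool.Agent.RTO

open PowerSeries

/-- the graph on `Fin n` -/
def grF (A E : List Arc) (n : ℕ) (hn : ∀ x ∈ A ++ E, x.1 < n ∧ x.2.1 < n) :
    MGr (Fin n) (Fin A.length) (Fin E.length) where
  src i := ⟨(A.get i).1, (hn _ (List.mem_append_left _ (List.get_mem _ _))).1⟩
  tgt i := ⟨(A.get i).2.1, (hn _ (List.mem_append_left _ (List.get_mem _ _))).2⟩
  la i := (A.get i).2.2
  p i := ⟨(E.get i).1, (hn _ (List.mem_append_right _ (List.get_mem _ _))).1⟩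
  q i := ⟨(E.get i).2.1, (hn _ (List.mem_append_right _ (List.get_mem _ _))).2⟩
  le i := (E.get i).2.2

theorem grF_map (A E : List Arc) (n : ℕ) (hn : ∀ x ∈ A ++ E, x.1 < n ∧ x.2.1 < n) :
    (grF A E n hn).map Fin.val = gr A E := rfl

private theorem sum_filter_map {M : Type} [AddCommMonoid M] (l : List Arc) (q : Arc → Bool)
    (f : Arc → M) : ((l.filter q).map f).sum = (l.map fun d => if q d then f d else 0).sum := by
  induction l with
  | nil => rfl
  | cons a l ih =>
    by_cases h : q a = true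
    · simp [List.filter_cons, h, ih]
    · simp [List.filter_cons, h, ih]

private theorem sum_map_get {M : Type} [AddCommMonoid M] (l : List Arc) (f : Arc → M) :
    (l.map f).sum = ∑ i : Fin l.length, f (l.get i) := by
  rw [← List.sum_ofFn]
  congr 1
  apply List.ext_get
  · simp
  · intro k h1 h2
    simp

theorem numV_eq (p : Par) (A E : List Arc) (n : ℕ) (hn : ∀ x ∈ A ++ E, x.1 < n ∧ x.2.1 < n)
    (hpos : ∀ x ∈ A ++ E, 0 < x.2.2) (hL : ∀ x ∈ A ++ E, x.2.2 ≤ p.L) (s t : Fin n)
    {D V₁ : Matrix (Fin n) (Fin n) ℤ⟦X⟧} {ξ : Fin E.length → ℤ⟦X⟧}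
    (h : Sys (grF A E n hn) (fun _ => (1 : ℤ)) D V₁ ξ) :
    ((numV p A E s t : ℕ) : ZMod (2 ^ (p.B * (p.K + 1)))) = psiFun p.B p.K (V₁ s t) := by
  have hG : (grF A E n hn).Pos := by
    constructor
    · intro i
      exact hpos _ (List.mem_append_left _ (List.get_mem _ _))
    · intro i
      exact hpos _ (List.mem_append_right _ (List.get_mem _ _))
  obtain ⟨ψ, hψ⟩ := exists_psi p.B p.K
  have hmod : ∀ x : ℕ, ((x % 2 ^ p.N : ℕ) : ZMod (2 ^ (p.B * (p.K + 1)))) = x := by
    intro x
    exact ZMod.natCast_mod x _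
  have hpw : ∀ e : Arc, e.2.2 ≤ p.L →
      ((pw p e : ℕ) : ZMod (2 ^ (p.B * (p.K + 1)))) = ψ (PowerSeries.monomial e.2.2 (1 : ℤ)) := by
    intro e he
    rw [hψ, psiFun_monomial]
    unfold pw
    rw [Nat.min_eq_left he]
    push_cast
    rfl
  have hdL : ∀ x ∈ dartL A E, x.2.2 ≤ p.L := by
    intro x hx
    unfold dartL at hx
    rcases List.mem_append.1 hx with h1 | h1
    · exact hL x (List.mem_append_left _ h1)
    rcases List.mem_append.1 h1 with h2 | h2
    · exact hL x (List.mem_append_right _ h2)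
    · obtain ⟨y, hy, rfl⟩ := List.mem_map.1 h2
      exact hL y (List.mem_append_right _ hy)
  have hv1 : ∀ x ∈ dartL A E, x.1 ∈ vlist A E s t ∧ x.2.1 ∈ vlist A E s t := by
    intro x hx
    unfold vlist
    constructor
    · refine List.mem_cons_of_mem _ (List.mem_cons_of_mem _ (List.mem_append_left _ ?_))
      exact List.mem_map.2 ⟨x, hx, rfl⟩
    · refine List.mem_cons_of_mem _ (List.mem_cons_of_mem _ (List.mem_append_right _ ?_))
      exact List.mem_map.2 ⟨x, hx, rfl⟩
  have hvE : ∀ i : Fin E.length, ((grF A E n hn).p i).val ∈ vlist A E s t ∧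
      ((grF A E n hn).q i).val ∈ vlist A E s t := by
    intro i
    exact hv1 (E.get i) (List.mem_append_right _ (List.mem_append_left _ (List.get_mem _ _)))
  have hDt := tabD_eq hG h p ψ hψ Fin.val Fin.val_injective (dartL A E) (vlist A E s t) hdL
    (by
      intro a φ
      rw [sum_filter_map]
      unfold dartL
      rw [List.map_append, List.sum_append, List.map_append, List.sum_append, List.map_map,
        sum_map_get, sum_map_get, sum_map_get, Fintype.sum_sum_type, Fintype.sum_prod_type]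
      congr 1
      · refine Finset.sum_congr rfl fun i _ => ?_
        simp only [MGr.hd, MGr.tl, MGr.len, grF, Fin.ext_iff, beq_iff_eq]
      · rw [← Finset.sum_add_distrib]
        refine Finset.sum_congr rfl fun i _ => ?_
        rw [Fintype.sum_bool]
        simp only [MGr.hd, MGr.tl, MGr.len, grF, Fin.ext_iff, beq_iff_eq, rev, Function.comp,
          if_true, Bool.false_eq_true, if_false])
    (fun x hx => (hv1 x hx).2)
  set TD := tabD p (dartL A E) (vlist A E s t) with hTD
  have hC : ∀ a b : Fin n, a.val ∈ vlist A E s t → b.val ∈ vlist A E s t →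
      ((get (tabC p (vlist A E s t) TD) a b : ℕ) : ZMod (2 ^ (p.B * (p.K + 1)))) =
        ψ (D a b * D b a) := by
    intro a b ha hb
    unfold tabC
    rw [get_mk ha hb, hmod, Nat.cast_mul, hDt a b ha hb, hDt b a hb ha, map_mul]
  have hxi : ∀ i : Fin E.length,
      ((xiN p TD (E.get i) : ℕ) : ZMod (2 ^ (p.B * (p.K + 1)))) = ψ (ξ i) := by
    intro i
    set G := grF A E n hn with hGd
    have hLi : (E.get i).2.2 ≤ p.L := hL _ (List.mem_append_right _ (List.get_mem _ _))
    have hw : wE G (fun _ => (1 : ℤ)) i = PowerSeries.monomial (E.get i).2.2 (1 : ℤ) := rfl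
    have hg0 : constantCoeff (wE G (fun _ => (1 : ℤ)) i *
        (D (G.p i) (G.q i) + D (G.q i) (G.p i))) = 0 := by
      rw [map_mul, constantCoeff_wE hG, zero_mul]
    have hu : IsUnit (1 + wE G (fun _ => (1 : ℤ)) i *
        (D (G.p i) (G.q i) + D (G.q i) (G.p i))) := by
      rw [PowerSeries.isUnit_iff_constantCoeff, map_add, hg0, map_one, add_zero]
      exact isUnit_one
    obtain ⟨x, hx⟩ := hu.exists_left_inv
    have hξ : ξ i = wE G (fun _ => (1 : ℤ)) i ^ 2 * x := by
      have h1 := h.hξ i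
      calc ξ i = ξ i * (1 + wE G (fun _ => (1 : ℤ)) i *
            (D (G.p i) (G.q i) + D (G.q i) (G.p i))) * x := by
            rw [mul_assoc, mul_comm _ x, hx, mul_one]
        _ = _ := by rw [h1]
    have hgn : ((pw p (E.get i) * (get TD (E.get i).1 (E.get i).2.1 +
        get TD (E.get i).2.1 (E.get i).1) : ℕ) : ZMod (2 ^ (p.B * (p.K + 1)))) =
        ψ (wE G (fun _ => (1 : ℤ)) i * (D (G.p i) (G.q i) + D (G.q i) (G.p i))) := by
      have e1 := hDt (G.p i) (G.q i) (hvE i).1 (hvE i).2
      have e2 := hDt (G.q i) (G.p i) (hvE i).2 (hvE i).1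
      have e1' : ((get TD (E.get i).1 (E.get i).2.1 : ℕ) : ZMod (2 ^ (p.B * (p.K + 1)))) =
        ψ (D (G.p i) (G.q i)) := e1
      have e2' : ((get TD (E.get i).2.1 (E.get i).1 : ℕ) : ZMod (2 ^ (p.B * (p.K + 1)))) =
        ψ (D (G.q i) (G.p i)) := e2
      rw [Nat.cast_mul, Nat.cast_add, hpw _ hLi, e1', e2', map_mul, map_add, hw]
    have hinv := inv_eq p ψ hψ _ x hg0 hx _ hgn
    unfold xiN
    rw [hmod, Nat.cast_mul, Nat.cast_mul, hinv, hpw _ hLi, hξ, map_mul, map_pow, hw]
    ring
  have hV := tabV_eq hG h p ψ hψ Fin.val (vlist A E s t) (tabC p (vlist A E s t) TD)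
    (E.map fun e => (e, xiN p TD e)) hC
    (by
      intro φ
      rw [List.map_map, sum_map_get]
      refine Finset.sum_congr rfl fun i _ => ?_
      simp only [Function.comp]
      rw [hxi i]
      rfl)
    (by
      intro x hx
      obtain ⟨e, he, rfl⟩ := List.mem_map.1 hx
      exact hv1 e (List.mem_append_right _ (List.mem_append_left _ he)))
    hvE s t (by unfold vlist; exact List.mem_cons_self)
    (by unfold vlist; exact List.mem_cons_of_mem _ List.mem_cons_self)
  rw [← hψ]
  exact hV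

end Pool.Agent.RTO
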