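import Pool.Agent.RTO.PolyA

/-!
# Polynomial time: the table of `D` (see the header of `PolyA`)
-/

namespace Pool.Agent.RTO

open Pool.Agent.TM2Lib Pool.Agent.M3

variable {α : Type} [Enc α]

/-- iterating a step with an environment -/
theorem poly_iterate {σ : Type} [Enc σ] {n : α → ℕ} {g : α → σ} {h : α × σ → σ} (hn : UPoly n)
    (hg : Poly g) (hh : Poly h) (B : Polynomial ℕ)
    (hB : ∀ a k, sz ((fun s => h (a, s))^[k] (g a)) ≤ B.eval (sz a)) :
    Poly (fun a => (fun s => h (a, s))^[n a] (g a)) := by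
  have h1 := Poly.foldl (f := fun a => un (n a)) (g := g)
    (h := fun x : α × (σ × Unit) => h (x.1, x.2.1)) hn.list hg
    (hh.comp (Poly.fst.pair Poly.snd.fst')) B (by
      intro a k
      have e := List.foldl_const (fun s => h (a, s)) (g a) (List.take k (un (n a)))
      exact (congrArg sz e).trans_le (hB a _))
  refine h1.of_eq fun a => ?_
  have e := List.foldl_const (fun s => h (a, s)) (g a) (un (n a))
  refine Eq.trans e ?_
  simp [un]

theorem sz_map_le {β : Type} [Enc β] (l : List β) (F : β → ℕ) (M : ℕ)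
    (hF : ∀ x ∈ l, sz (F x) ≤ M) :
    sz (l.map fun x => (x, F x)) ≤ sz l + l.length * (M + 1) := by
  induction l with
  | nil => simp
  | cons x l ih =>
    have h1 := ih fun y hy => hF y (List.mem_cons_of_mem _ hy)
    have h2 := hF x List.mem_cons_self
    rw [List.map_cons, sz_cons, sz_cons, sz_pair, List.length_cons]
    nlinarith

theorem sz_lt_pow {x N : ℕ} (h : x < 2 ^ N) : sz x ≤ 4 * N + 1 := by
  have h1 := D1_sz_nat x
  have h2 := Nat.size_le.2 h
  omega

/-- size of a table with small entries -/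
theorem sz_mk_le (vs : List ℕ) (f : ℕ → ℕ → ℕ) (N : ℕ) (hf : ∀ a b, f a b < 2 ^ N) :
    sz (mk vs f) ≤ sz (vs.product vs) + sz (vs.product vs) * (4 * N + 2) := by
  have h1 := sz_map_le (vs.product vs) (fun x => f x.1 x.2) (4 * N + 1)
    (fun x _ => sz_lt_pow (hf x.1 x.2))
  have h2 := (length_lt_sz (vs.product vs)).le
  have h3 : (vs.product vs).length * (4 * N + 1 + 1) ≤ sz (vs.product vs) * (4 * N + 2) :=
    Nat.mul_le_mul h2 (by omega)
  unfold mk
  omega

/-- iterates of a step that makes tables with small entries -/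
theorem poly_iterate_mk {p : α → Par} {vs : α → List ℕ} {F : α × Table → ℕ → ℕ → ℕ}
    (hp : PPar p) (hvs : Poly vs)
    (hF : Poly (fun x : (α × Table) × (ℕ × ℕ) => F x.1 x.2.1 x.2.2))
    (hlt : ∀ x a b, F x a b < 2 ^ (p x.1).N) :
    Poly (fun a => (fun T => mk (vs a) (F (a, T)))^[(p a).K + 1] []) := by
  obtain ⟨P, hP⟩ := (poly_product hvs hvs).size
  obtain ⟨Q, hQ⟩ := Poly.size hp.N
  refine poly_iterate (h := fun x : α × Table => mk (vs x.1) (F x))
    (hp.2.1.add (UPoly.const 1)) (TM2Lib.Poly.const []) (poly_mk (hvs.comp Poly.fst) hF)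
    (P + P * (4 * Q + 2) + 1) ?_
  intro a k
  simp only [Polynomial.eval_add, Polynomial.eval_mul, Polynomial.eval_ofNat,
    Polynomial.eval_one]
  rcases Nat.eq_zero_or_pos k with rfl | hk
  · simp
  · obtain ⟨j, rfl⟩ := Nat.exists_eq_succ_of_ne_zero (Nat.pos_iff_ne_zero.1 hk)
    rw [Function.iterate_succ_apply']
    have h1 := sz_mk_le (vs a) (F (a, (fun T => mk (vs a) (F (a, T)))^[j] [])) (p a).N
      (fun x y => hlt _ x y)
    have h2 := hP a
    have h3 := hQ a
    rw [sz_Un] at h3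
    simp only at h3
    have h4 : sz ((vs a).product (vs a)) * (4 * (p a).N + 2) ≤
        P.eval (sz a) * (4 * Q.eval (sz a) + 2) := Nat.mul_le_mul h2 (by omega)
    refine h1.trans ?_
    omega

theorem poly_tabD {p : α → Par} {ds : α → List Arc} {vs : α → List ℕ} (hp : PPar p)
    (hds : Poly ds) (hvs : Poly vs) : Poly (fun a => tabD (p a) (ds a) (vs a)) := by
  refine poly_iterate_mk (F := fun x a b => ((if a = b then 1 else 0) +
    (((ds x.1).filter fun d => d.1 == a).map fun d => pw (p x.1) d * get x.2 d.2.1 b).sum) %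
      2 ^ (p x.1).N) hp hvs ?_ ?_
  · refine poly_mod_pow2 (poly_nat_add ?_ ?_) (hp.comp Poly.fst.fst').N
    · exact (Poly.ite (c := fun x : (α × Table) × (ℕ × ℕ) => decide (x.2.1 = x.2.2))
        (Poly.nat_eq Poly.snd.fst' Poly.snd.snd') (TM2Lib.Poly.const 1)
        (TM2Lib.Poly.const 0)).of_eq fun x => by simp
    · have h1 : Poly (fun x : (α × Table) × (ℕ × ℕ) => (ds x.1.1).filter fun d => d.1 == x.2.1) := by
        refine Poly.filter (h := fun y : ((α × Table) × (ℕ × ℕ)) × Arc => y.2.1 == y.1.2.1)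
          (hds.comp Poly.fst.fst') ?_
        exact (Poly.nat_eq Poly.snd.fst' Poly.fst.snd'.fst').of_eq fun y => by
          rw [beq_eq_decide]
      refine poly_sum (h := fun y : ((α × Table) × (ℕ × ℕ)) × Arc =>
        pw (p y.1.1.1) y.2 * get y.1.1.2 y.2.2.1 y.1.2.2) h1 ?_
      exact poly_nat_mul (poly_pw (hp.comp Poly.fst.fst'.fst') Poly.snd)
        (poly_get Poly.fst.fst'.snd' Poly.snd.snd'.fst' Poly.fst.snd'.snd')
  · intro x a b
    exact Nat.mod_lt _ (by positivity)

end Pool.Agent.RTO
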