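import Pool.Agent.RTO.PolyG
import Pool.Agent.RTO.Exact

/-!
# Polynomial time: the two algorithms
-/

namespace Pool.Agent.RTO

open Pool.Agent.TM2Lib Pool.Agent.M3

private theorem polyE_natAbs {α : Type} [Enc α] {q : α → ℚ} (hq : Poly q) :
    Poly (fun a => (q a).num.natAbs) := by
  have h1 : Poly (fun a => ((q a).num, (q a).den)) := hq
  have h2 : Poly (fun a => (decide ((q a).num < 0), (q a).num.natAbs)) := h1.fst'
  exact h2.snd'

private theorem polyE_mG {α : Type} [Enc α] {G : α → MixedGraph} (hG : Poly G) :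
    UPoly (fun a => mG (G a)) :=
  (UPoly.length hG.fst').add (UPoly.length hG.snd')

theorem poly_exactAlg :
    Poly (fun x : Un × (MixedGraph × (ℕ × ℕ)) => exactAlg x.1.n x.2.1 x.2.2.1 x.2.2.2) := by
  have hG : Poly (fun x : Un × (MixedGraph × (ℕ × ℕ)) => x.2.1) := Poly.snd.fst'
  have hm := polyE_mG hG
  have h4m := ((UPoly.const 4).mul hm).add (UPoly.const 1)
  have hL := (h4m.mul (UPoly.n.comp (Poly.fst (α := Un) (β := MixedGraph × (ℕ × ℕ))))).add
    (UPoly.const 1)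
  have h4mL := ((UPoly.const 4).mul hm).mul hL
  have hp : PPar (fun x : Un × (MixedGraph × (ℕ × ℕ)) =>
      par (mG x.2.1) ((4 * mG x.2.1 + 1) * x.1.n + 1)) :=
    ⟨(h4mL.mul (((UPoly.const 2).mul hm).add (UPoly.const 1))).add (UPoly.const 1), h4mL, hL⟩
  have hre : Poly (fun y : (Un × (MixedGraph × (ℕ × ℕ))) × (ℕ × ℕ × ℚ) =>
      relen (fun q => (4 * mG y.1.2.1 + 1) * q.num.natAbs + 1) y.2) := by
    have h1 : Poly (fun y : (Un × (MixedGraph × (ℕ × ℕ))) × (ℕ × ℕ × ℚ) =>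
        (4 * mG y.1.2.1 + 1) * y.2.2.2.num.natAbs + 1) :=
      poly_nat_add (poly_nat_mul (UPoly.toNat (h4m.comp Poly.fst))
        (polyE_natAbs Poly.snd.snd'.snd')) (TM2Lib.Poly.const 1)
    exact Poly.snd.fst'.pair (Poly.snd.snd'.fst'.pair h1)
  have hA := TM2Lib.Poly.map (h := fun y : (Un × (MixedGraph × (ℕ × ℕ))) × (ℕ × ℕ × ℚ) =>
      relen (fun q => (4 * mG y.1.2.1 + 1) * q.num.natAbs + 1) y.2)
    (f := fun x : Un × (MixedGraph × (ℕ × ℕ)) => x.2.1.1) hG.fst' hre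
  have hE := TM2Lib.Poly.map (h := fun y : (Un × (MixedGraph × (ℕ × ℕ))) × (ℕ × ℕ × ℚ) =>
      relen (fun q => (4 * mG y.1.2.1 + 1) * q.num.natAbs + 1) y.2)
    (f := fun x : Un × (MixedGraph × (ℕ × ℕ)) => x.2.1.2) hG.snd' hre
  exact poly_go hp hA hE Poly.snd.snd'.fst' Poly.snd.snd'.snd'

end Pool.Agent.RTO
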