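import Pool.Agent.RTO.PolyD

/-!
# Polynomial time: the table of `V` (see the header of `PolyA`)
-/

namespace Pool.Agent.RTO

open Pool.Agent.TM2Lib Pool.Agent.M3

variable {α : Type} [Enc α]

theorem poly_tabV {p : α → Par} {vs : α → List ℕ} {TC : α → Table} {X : α → List (Arc × ℕ)}
    (hp : PPar p) (hvs : Poly vs) (hTC : Poly TC) (hX : Poly X) :
    Poly (fun a => tabV (p a) (vs a) (TC a) (X a)) := by
  refine poly_iterate_mk (F := fun x a b => (get (TC x.1) a b + (2 ^ (p x.1).N -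
    ((X x.1).map fun y => y.2 * (get (TC x.1) a y.1.1 * get x.2 y.1.2.1 b +
      get (TC x.1) a y.1.2.1 * get x.2 y.1.1 b)).sum % 2 ^ (p x.1).N)) % 2 ^ (p x.1).N)
    hp hvs ?_ ?_
  · have hN := (hp.comp (Poly.fst (α := α × Table) (β := ℕ × ℕ)).fst').N
    have h1 : Poly (fun x : (α × Table) × (ℕ × ℕ) => ((X x.1.1).map fun y =>
        y.2 * (get (TC x.1.1) x.2.1 y.1.1 * get x.1.2 y.1.2.1 x.2.2 +
          get (TC x.1.1) x.2.1 y.1.2.1 * get x.1.2 y.1.1 x.2.2)).sum) := by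
      refine poly_sum (h := fun y : ((α × Table) × (ℕ × ℕ)) × (Arc × ℕ) =>
        y.2.2 * (get (TC y.1.1.1) y.1.2.1 y.2.1.1 * get y.1.1.2 y.2.1.2.1 y.1.2.2 +
          get (TC y.1.1.1) y.1.2.1 y.2.1.2.1 * get y.1.1.2 y.2.1.1 y.1.2.2))
        (hX.comp Poly.fst.fst') ?_
      have hT : Poly (fun y : ((α × Table) × (ℕ × ℕ)) × (Arc × ℕ) => TC y.1.1.1) :=
        hTC.comp Poly.fst.fst'.fst'
      have hS : Poly (fun y : ((α × Table) × (ℕ × ℕ)) × (Arc × ℕ) => y.1.1.2) :=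
        Poly.fst.fst'.snd'
      have ha : Poly (fun y : ((α × Table) × (ℕ × ℕ)) × (Arc × ℕ) => y.1.2.1) :=
        Poly.fst.snd'.fst'
      have hb : Poly (fun y : ((α × Table) × (ℕ × ℕ)) × (Arc × ℕ) => y.1.2.2) :=
        Poly.fst.snd'.snd'
      exact poly_nat_mul Poly.snd.snd' (poly_nat_add
        (poly_nat_mul (poly_get hT ha Poly.snd.fst'.fst')
          (poly_get hS Poly.snd.fst'.snd'.fst' hb))
        (poly_nat_mul (poly_get hT ha Poly.snd.fst'.snd'.fst')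
          (poly_get hS Poly.snd.fst'.fst' hb)))
    exact poly_mod_pow2 (poly_nat_add
      (poly_get (hTC.comp Poly.fst.fst') Poly.snd.fst' Poly.snd.snd')
      (poly_nat_sub (poly_pow2 hN) (poly_mod_pow2 h1 hN))) hN
  · intro x a b
    exact Nat.mod_lt _ (by positivity)

end Pool.Agent.RTO
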