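import Pool.Agent.RTO.PolyA

/-!
# Polynomial time: inverse and `xiN` (see the header of `PolyA`; all numbers are `< 2 ^ N`)
-/

namespace Pool.Agent.RTO

open Pool.Agent.TM2Lib Pool.Agent.M3

variable {α : Type} [Enc α]

private theorem polyX_foldl {σ : Type} (F : σ → σ) (n : ℕ) (x : σ) :
    (un n).foldl (fun s _ => F s) x = F^[n] x := by
  induction n generalizing x with
  | zero => rfl
  | succ n ih =>
    have : un (n + 1) = () :: un n := rfl
    rw [this, List.foldl_cons, ih, Function.iterate_succ_apply]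

private theorem polyX_sz {n N : ℕ} (h : n < 2 ^ N) : sz n ≤ 4 * N + 1 := by
  have h1 := D1_sz_nat n
  have h2 : Nat.size n ≤ N := Nat.size_le.2 h
  omega

theorem poly_inv {p : α → Par} {g : α → ℕ} (hp : PPar p) (hg : Poly g) :
    Poly (fun a => inv (p a) (g a)) := by
  have hN : UPoly (fun a => (p a).N) := hp.N
  have hK : UPoly (fun a => (p a).K + 1) := hp.2.1.add (UPoly.const 1)
  have h2N : Poly (fun a => 2 ^ (p a).N) := poly_pow2 hN
  have hc : Poly (fun a => 2 ^ (p a).N - g a % 2 ^ (p a).N) :=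
    poly_nat_sub h2N (poly_mod_pow2 hg hN)
  obtain ⟨Q, hQ⟩ := (show Poly (fun a => (⟨(p a).N⟩ : Un)) from hN).size
  have h1 := TM2Lib.Poly.foldl (f := fun a => un ((p a).K + 1)) (g := fun _ : α => (0 : ℕ))
    (h := fun x : α × (ℕ × Unit) =>
      (1 + (2 ^ (p x.1).N - g x.1 % 2 ^ (p x.1).N) * x.2.1) % 2 ^ (p x.1).N)
    hK.list (TM2Lib.Poly.const 0)
    (poly_mod_pow2 (poly_nat_add (TM2Lib.Poly.const 1)
      (poly_nat_mul (hc.comp TM2Lib.Poly.fst) TM2Lib.Poly.id.snd'.fst')) (hN.comp TM2Lib.Poly.fst))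
    (4 * Q + 1) (by
      intro a k
      have hlt : ∀ (l : List Unit) (s : ℕ), s < 2 ^ (p a).N →
          l.foldl (fun s _ => (1 + (2 ^ (p a).N - g a % 2 ^ (p a).N) * s) % 2 ^ (p a).N) s <
            2 ^ (p a).N := by
        intro l
        induction l with
        | nil => intro s hs; exact hs
        | cons b l ih =>
          intro s _
          exact ih _ (Nat.mod_lt _ (by positivity))
      have h3 := polyX_sz (hlt ((un ((p a).K + 1)).take k) 0 (by positivity))
      have h4 := hQ a
      rw [sz_Un] at h4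
      simp only [Polynomial.eval_add, Polynomial.eval_mul, Polynomial.eval_ofNat,
        Polynomial.eval_one]
      have h5 : (⟨(p a).N⟩ : Un).n = (p a).N := rfl
      rw [h5] at h4
      refine h3.trans ?_
      omega)
  exact h1.of_eq fun a => polyX_foldl
    (fun s : ℕ => (1 + (2 ^ (p a).N - g a % 2 ^ (p a).N) * s) % 2 ^ (p a).N) ((p a).K + 1) 0

theorem poly_xiN {p : α → Par} {T : α → Table} {e : α → Arc} (hp : PPar p) (hT : Poly T)
    (he : Poly e) : Poly (fun a => xiN (p a) (T a) (e a)) := by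
  have hpw := poly_pw hp he
  have h1 : Poly (fun a => (e a).1) := he.fst'
  have h2 : Poly (fun a => (e a).2.1) := he.snd'.fst'
  exact poly_mod_pow2 (poly_nat_mul (poly_nat_mul hpw hpw) (poly_inv hp (poly_nat_mul hpw
    (poly_nat_add (poly_get hT h1 h2) (poly_get hT h2 h1))))) hp.N

end Pool.Agent.RTO
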