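import Pool.Agent.RTO.PolyD
import Pool.Agent.RTO.PolyX
import Pool.Agent.RTO.PolyV
import Pool.Agent.TM2Lib.PolyNat

/-!
# Polynomial time: `value` and `go`

`go` is a left fold over the list `E` with the state (arcs so far, remaining edges, output):
`fun (A, R, out) e => if value p (e :: A) R' s t = value p A (e :: R') s t ...` where `R' = R.tail`
(`R = e :: R'`), followed by a reverse (or append at the end). `Poly.foldl` with the size bound
`sz A + sz R + sz out ≤ ...` (use `Poly.foldl_add` if convenient; `sz (rev e) ≤` linear in `sz e`).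
-/

namespace Pool.Agent.RTO

open Pool.Agent.TM2Lib Pool.Agent.M3

variable {α : Type} [Enc α]

private theorem polyG_opt_eq {f g : α → Option ℕ} (hf : Poly f) (hg : Poly g) :
    Poly (fun a => decide (f a = g a)) := by
  have key : ∀ {f : α → Option ℕ}, Poly f →
      Poly (fun a => match f a with | none => 0 | some b => b + 1) := by
    intro f hf
    exact (Poly.NPC.option_cases (g := fun _ => 0) (h := fun p : α × ℕ => p.2 + 1) hf
      (TM2Lib.Poly.const 0) (Poly.NPC.succ Poly.snd)).of_eq fun a => by cases f a <;> rfl
  refine (Poly.nat_eq (key hf) (key hg)).of_eq fun a => ?_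
  rw [decide_eq_decide]
  rcases f a with _ | x <;> rcases g a with _ | y <;> simp

private theorem polyG_ordN {p : α → Par} {v : α → ℕ} (hp : PPar p) (hv : Poly v) :
    Poly (fun a => ordN (p a) (v a)) := by
  have hR : Poly (fun a => (List.range ((p a).K + 1)).map Un.mk) :=
    Poly.range (hp.2.1.add (UPoly.const 1))
  have hb : Poly (fun q : α × Un => !(decide ((v q.1) % 2 ^ ((p q.1).B * (q.2.n + 1)) = 0))) :=
    Poly.not (Poly.nat_eq (poly_mod_pow2 (hv.comp Poly.fst)
      ((hp.comp Poly.fst).1.mul ((UPoly.n.comp Poly.snd).add (UPoly.const 1))))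
      (TM2Lib.Poly.const 0))
  have hF := Poly.filter (h := fun q : α × Un =>
    !(decide ((v q.1) % 2 ^ ((p q.1).B * (q.2.n + 1)) = 0))) hR hb
  have hM := TM2Lib.Poly.map (h := fun q : α × Un => q.2.n) hF
    (UPoly.toNat (UPoly.n.comp Poly.snd))
  refine (Poly.NPC.head? hM).of_eq fun a => ?_
  unfold ordN
  rw [List.filter_map, List.map_map]
  have h1 : ((fun b : Un => b.n) ∘ Un.mk) = id := rfl
  rw [h1, List.map_id]
  congr 1

theorem poly_value {p : α → Par} {A E : α → List Arc} {s t : α → ℕ} (hp : PPar p) (hA : Poly A)
    (hE : Poly E) (hs : Poly s) (ht : Poly t) :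
    Poly (fun a => value (p a) (A a) (E a) (s a) (t a)) := by
  have hvs := poly_vlist hA hE hs ht
  have hD := poly_tabD hp (poly_dartL hA hE) hvs
  have hC := poly_tabC hp hvs hD
  have hX := TM2Lib.Poly.map (h := fun q : α × Arc => (q.2,
    xiN (p q.1) (tabD (p q.1) (dartL (A q.1) (E q.1)) (vlist (A q.1) (E q.1) (s q.1) (t q.1)))
      q.2)) hE (Poly.snd.pair (poly_xiN (hp.comp Poly.fst) (hD.comp Poly.fst) Poly.snd))
  have hV := poly_tabV hp hvs hC hX
  exact polyG_ordN hp (poly_get hV hs ht)

private def goStep (p : Par) (s t : ℕ) (st : List Arc × (List Arc × List Bool)) (e : Arc) :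
    List Arc × (List Arc × List Bool) :=
  if decide (value p (e :: st.1) st.2.1.tail s t = value p st.1 (e :: st.2.1.tail) s t) then
    (e :: st.1, (st.2.1.tail, true :: st.2.2))
  else (rev e :: st.1, (st.2.1.tail, false :: st.2.2))

private theorem goStep_foldl (p : Par) (s t : ℕ) : ∀ (E A : List Arc) (out : List Bool),
    (E.foldl (goStep p s t) (A, (E, out))).2.2 = (go p s t A E).reverse ++ out := by
  intro E
  induction E with
  | nil => intro A out; simp [go]
  | cons e E ih =>
    intro A out
    rw [List.foldl_cons]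
    unfold goStep
    simp only [List.tail_cons]
    rw [go]
    by_cases h : value p (e :: A) E s t = value p A (e :: E) s t
    · simp only [h, decide_true, if_true]
      have := ih (e :: A) (true :: out)
      unfold goStep at this
      rw [this]
      simp
    · simp only [h, decide_false, if_false, Bool.false_eq_true]
      have := ih (rev e :: A) (false :: out)
      unfold goStep at this
      rw [this]
      simp

private theorem sz_rev' (e : Arc) : sz (rev e) = sz e := by
  obtain ⟨a, b, l⟩ := e
  simp only [rev, sz_pair]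
  omega

private theorem sz_tail_le' {β : Type} [Enc β] (l : List β) : sz l.tail ≤ sz l := by
  cases l with
  | nil => simp
  | cons a l => simp only [List.tail_cons, sz_cons]; omega

private theorem goStep_sz (p : Par) (s t : ℕ) (st : List Arc × (List Arc × List Bool)) (e : Arc) :
    sz (goStep p s t st e) ≤ sz st + (sz e + 5) := by
  obtain ⟨A, R, out⟩ := st
  unfold goStep
  have h1 := sz_tail_le' R
  have h2 := Poly.sz_bool_le true
  have h3 := Poly.sz_bool_le false
  have h4 := sz_rev' e
  split_ifs
  · simp only [sz_pair, sz_cons]; omega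
  · simp only [sz_pair, sz_cons]; omega

theorem poly_go {p : α → Par} {A E : α → List Arc} {s t : α → ℕ} (hp : PPar p) (hA : Poly A)
    (hE : Poly E) (hs : Poly s) (ht : Poly t) :
    Poly (fun a => go (p a) (s a) (t a) (A a) (E a)) := by
  have hh : Poly (fun q : α × ((List Arc × (List Arc × List Bool)) × Arc) =>
      goStep (p q.1) (s q.1) (t q.1) q.2.1 q.2.2) := by
    have hp' := hp.comp (β := α × ((List Arc × (List Arc × List Bool)) × Arc)) Poly.fst
    have hs' := hs.comp (γ := ℕ) (Poly.fst (α := α)
      (β := (List Arc × (List Arc × List Bool)) × Arc))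
    have ht' := ht.comp (γ := ℕ) (Poly.fst (α := α)
      (β := (List Arc × (List Arc × List Bool)) × Arc))
    have hA' : Poly (fun q : α × ((List Arc × (List Arc × List Bool)) × Arc) => q.2.1.1) :=
      Poly.snd.fst'.fst'
    have hR' : Poly (fun q : α × ((List Arc × (List Arc × List Bool)) × Arc) => q.2.1.2.1.tail) :=
      Poly.tail Poly.snd.fst'.snd'.fst'
    have hO' : Poly (fun q : α × ((List Arc × (List Arc × List Bool)) × Arc) => q.2.1.2.2) :=
      Poly.snd.fst'.snd'.snd'
    have he' : Poly (fun q : α × ((List Arc × (List Arc × List Bool)) × Arc) => q.2.2) :=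
      Poly.snd.snd'
    have hc := polyG_opt_eq (poly_value hp' (Poly.cons he' hA') hR' hs' ht')
      (poly_value hp' hA' (Poly.cons he' hR') hs' ht')
    exact Poly.ite hc ((Poly.cons he' hA').pair (hR'.pair (Poly.cons (TM2Lib.Poly.const true) hO')))
      ((Poly.cons (poly_rev he') hA').pair (hR'.pair (Poly.cons (TM2Lib.Poly.const false) hO')))
  obtain ⟨F, hF⟩ := hE.size
  have hfold := Poly.foldl_add (f := E)
    (g := fun a => ((A a, (E a, [])) : List Arc × (List Arc × List Bool)))
    (h := fun q : α × ((List Arc × (List Arc × List Bool)) × Arc) =>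
      goStep (p q.1) (s q.1) (t q.1) q.2.1 q.2.2) hE
    (hA.pair (hE.pair (TM2Lib.Poly.const []))) hh (F + 5) (by
      intro a st e he
      have h1 := goStep_sz (p a) (s a) (t a) st e
      have h2 := Poly.sz_mem_le he
      have h3 := hF a
      simp only [Polynomial.eval_add, Polynomial.eval_ofNat]
      omega)
  refine (Poly.reverse hfold.snd'.snd').of_eq fun a => ?_
  have := goStep_foldl (p a) (s a) (t a) (E a) (A a) []
  rw [List.append_nil] at this
  change ((E a).foldl (goStep (p a) (s a) (t a)) (A a, (E a, []))).2.2.reverse = _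
  rw [this, List.reverse_reverse]

end Pool.Agent.RTO
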