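import Mathlib

/-!
# Mixed graphs with rational lengths, orientations, round trips (for the final statement)
-/

namespace Pool.Agent.RTO

open scoped ENNReal

/-- A mixed graph on the vertex set `ℕ`: the list of its arcs and the list of its undirected
edges; `(a, b, ℓ)` is an arc from `a` to `b` (an edge between `a` and `b`) of length `ℓ`. -/
abbrev MixedGraph : Type := List (ℕ × ℕ × ℚ) × List (ℕ × ℕ × ℚ)

/-- Orientation of the undirected edges: the `i`-th edge `(a, b, ℓ)` becomes the arc `(a, b, ℓ)` if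
the `i`-th entry of `σ` is `true`, and `(b, a, ℓ)` otherwise. -/
def orient (G : MixedGraph) (σ : List Bool) : List (ℕ × ℕ × ℚ) :=
  G.1 ++ List.zipWith (fun e b => if b then e else (e.2.1, e.1, e.2.2)) G.2 σ

/-- `l` is the list of the arcs of a directed walk from `a` to `b` in the digraph with arcs `H` -/
def IsWalkL (H : List (ℕ × ℕ × ℚ)) : ℕ → List (ℕ × ℕ × ℚ) → ℕ → Prop
  | a, [], b => a = b
  | a, x :: l, b => x ∈ H ∧ x.1 = a ∧ IsWalkL H x.2.1 l b

/-- total length -/
def lengthL (l : List (ℕ × ℕ × ℚ)) : ℚ := (l.map fun x => x.2.2).sum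

/-- distance from `a` to `b` (`∞` if there is no walk) -/
noncomputable def dist (H : List (ℕ × ℕ × ℚ)) (a b : ℕ) : ℝ≥0∞ :=
  ⨅ (l : List (ℕ × ℕ × ℚ)) (_ : IsWalkL H a l b), ENNReal.ofReal (lengthL l)

/-- the round-trip length of the orientation `σ` -/
noncomputable def roundTrip (G : MixedGraph) (σ : List Bool) (s t : ℕ) : ℝ≥0∞ :=
  dist (orient G σ) s t + dist (orient G σ) t s

/-- all lengths are nonnegative -/
def Nonneg (G : MixedGraph) : Prop := ∀ x ∈ G.1 ++ G.2, 0 ≤ x.2.2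

/-- all lengths are natural numbers at most `L` -/
def BoundedBy (G : MixedGraph) (L : ℕ) : Prop := ∀ x ∈ G.1 ++ G.2, ∃ k : ℕ, k ≤ L ∧ x.2.2 = k

/-- new lengths -/
def relen (f : ℚ → ℕ) (x : ℕ × ℕ × ℚ) : ℕ × ℕ × ℕ := (x.1, x.2.1, f x.2.2)

end Pool.Agent.RTO
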