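import Pool.Agent.RTO.QDefs
import Pool.Agent.RTO.GrDefs

/-!
# Walks with rational lengths and walks with new lengths
-/

namespace Pool.Agent.RTO

/-- `orient` and `ori` correspond to each other -/
theorem ori_relen (f : ℚ → ℕ) (G : MixedGraph) (σ : List Bool) :
    ori (G.1.map (relen f)) (G.2.map (relen f)) σ = (orient G σ).map (relen f) := by
  obtain ⟨A, E⟩ := G
  unfold ori orient
  simp only [List.map_append]
  congr 1
  induction E generalizing σ with
  | nil => simp
  | cons e E ih =>
    cases σ with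
    | nil => simp
    | cons b σ =>
      simp only [List.map_cons, List.zipWith_cons_cons]
      rw [ih σ]
      cases b <;> rfl

/-- walks in the digraph with the new lengths (induction on the walk / on the list) -/
theorem hasWalk_relen (f : ℚ → ℕ) (H : List (ℕ × ℕ × ℚ)) (a b k : ℕ) :
    HasWalk (H.map (relen f)) a b k ↔
      ∃ l, IsWalkL H a l b ∧ (l.map fun x => f x.2.2).sum = k := by
  constructor
  · intro h
    induction h with
    | nil a => exact ⟨[], rfl, rfl⟩
    | cons hm _ ih =>
      obtain ⟨l, hl, hk⟩ := ih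
      obtain ⟨x, hx, hxe⟩ := List.mem_map.1 hm
      have h1 := congrArg Prod.fst hxe
      have h2 := congrArg (fun y : ℕ × ℕ × ℕ => y.2.1) hxe
      have h3 := congrArg (fun y : ℕ × ℕ × ℕ => y.2.2) hxe
      simp only [relen] at h1 h2 h3
      refine ⟨x :: l, ⟨hx, h1, ?_⟩, ?_⟩
      · rw [h2]
        exact hl
      · simp [h3, hk]
  · rintro ⟨l, hl, rfl⟩
    induction l generalizing a with
    | nil =>
      have hab : a = b := hl
      subst hab
      exact HasWalk.nil a
    | cons x l ih =>
      obtain ⟨h1, h2, h3⟩ := hl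
      have := ih x.2.1 h3
      simp only [List.map_cons, List.sum_cons]
      refine HasWalk.cons ?_ this
      rw [← h2]
      exact List.mem_map.2 ⟨x, h1, rfl⟩

theorem isWalkL_append {H : List (ℕ × ℕ × ℚ)} {a b : ℕ} {l l' : List (ℕ × ℕ × ℚ)} :
    IsWalkL H a (l ++ l') b ↔ ∃ c, IsWalkL H a l c ∧ IsWalkL H c l' b := by
  induction l generalizing a with
  | nil =>
    constructor
    · intro h
      exact ⟨a, rfl, h⟩
    · rintro ⟨c, hc, h⟩
      have hc' : a = c := hc
      subst hc'
      exact h
  | cons d l ih =>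
    constructor
    · rintro ⟨h0, h1, h2⟩
      obtain ⟨c, hc, h⟩ := ih.1 h2
      exact ⟨c, ⟨h0, h1, hc⟩, h⟩
    · rintro ⟨c, ⟨h0, h1, hc⟩, h⟩
      exact ⟨h0, h1, ih.2 ⟨c, hc, h⟩⟩

theorem mem_of_isWalkL {H : List (ℕ × ℕ × ℚ)} {a b : ℕ} {l : List (ℕ × ℕ × ℚ)}
    (hl : IsWalkL H a l b) : ∀ x ∈ l, x ∈ H := by
  induction l generalizing a with
  | nil => simp
  | cons d l ih =>
    obtain ⟨h0, h1, h2⟩ := hl
    intro x hx
    rcases List.mem_cons.1 hx with rfl | hx
    · exact h0
    · exact ih h2 x hx

theorem exists_nodupL (H : List (ℕ × ℕ × ℚ)) {a b : ℕ}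
    {l : List (ℕ × ℕ × ℚ)} (hl : IsWalkL H a l b) :
    ∃ l', IsWalkL H a l' b ∧ l'.Nodup ∧ (∀ x ∈ l', x ∈ l) ∧
      ((∀ x ∈ H, 0 ≤ x.2.2) → lengthL l' ≤ lengthL l) := by
  classical
  induction l generalizing a with
  | nil => exact ⟨[], hl, List.nodup_nil, fun x hx => hx, fun _ => le_refl _⟩
  | cons d l ih =>
    obtain ⟨h0, h1, h2⟩ := hl
    obtain ⟨l', hw, hnd, hsub, hcost⟩ := ih h2
    have hcons : ∀ (x : ℕ × ℕ × ℚ) (m : List (ℕ × ℕ × ℚ)),
        lengthL (x :: m) = x.2.2 + lengthL m := by
      intro x m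
      simp [lengthL]
    by_cases hd : d ∈ l'
    · obtain ⟨l₁, l₂, rfl⟩ := List.append_of_mem hd
      obtain ⟨c, hcw, hc⟩ := isWalkL_append.1 hw
      refine ⟨d :: l₂, ⟨h0, h1, hc.2.2⟩, ?_, ?_, ?_⟩
      · exact hnd.of_append_right
      · intro x hx
        rcases List.mem_cons.1 hx with rfl | hx
        · simp
        · exact List.mem_cons_of_mem _ (hsub x (by simp [hx]))
      · intro hH
        have := hcost hH
        have happ : lengthL (l₁ ++ d :: l₂) = lengthL l₁ + lengthL (d :: l₂) := by
          simp [lengthL]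
        rw [happ] at this
        have hnn : 0 ≤ lengthL l₁ := by
          unfold lengthL
          apply List.sum_nonneg
          intro q hq
          obtain ⟨x, hx, rfl⟩ := List.mem_map.1 hq
          exact hH x (mem_of_isWalkL hcw x hx)
        have hdn : 0 ≤ d.2.2 := hH d h0
        rw [hcons d l]
        linarith
    · refine ⟨d :: l', ⟨h0, h1, hw⟩, List.nodup_cons.2 ⟨hd, hnd⟩, ?_, ?_⟩
      · intro x hx
        rcases List.mem_cons.1 hx with rfl | hx
        · simp
        · exact List.mem_cons_of_mem _ (hsub x hx)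
      · intro hH
        have := hcost hH
        rw [hcons, hcons]
        linarith

/-- a walk can be shortened to at most `H.length` arcs (cut out the part between two occurrences of
the same arc, strong induction on the length of the list; a list without repetitions of members of
`H` has at most `H.length` entries: `List.Nodup` and subset), all arcs of the new walk are arcs of the
old one and the length (for nonnegative lengths) does not increase -/
theorem exists_short (H : List (ℕ × ℕ × ℚ)) {a b : ℕ}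
    {l : List (ℕ × ℕ × ℚ)} (hl : IsWalkL H a l b) :
    ∃ l', IsWalkL H a l' b ∧ l'.length ≤ H.length ∧ (∀ x ∈ l', x ∈ l) ∧
      ((∀ x ∈ H, 0 ≤ x.2.2) → lengthL l' ≤ lengthL l) := by
  obtain ⟨l', hw, hnd, hsub, hcost⟩ := exists_nodupL H hl
  refine ⟨l', hw, ?_, hsub, hcost⟩
  exact (hnd.subperm (fun x hx => mem_of_isWalkL hw x hx)).length_le

theorem dist_le {H : List (ℕ × ℕ × ℚ)} {a b : ℕ} {l : List (ℕ × ℕ × ℚ)}
    (hl : IsWalkL H a l b) : dist H a b ≤ ENNReal.ofReal (lengthL l) :=
  iInf₂_le l hl

/-- the distance is attained (nonnegative lengths): if there is a walk at all there is a shortest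
one (by `exists_short` only finitely many lists have to be compared) -/
theorem exists_shortest (H : List (ℕ × ℕ × ℚ)) (hH : ∀ x ∈ H, 0 ≤ x.2.2) {a b : ℕ}
    (h : dist H a b ≠ ⊤) : ∃ l, IsWalkL H a l b ∧ dist H a b = ENNReal.ofReal (lengthL l) ∧
      l.length ≤ H.length := by
  classical
  let S : Set (List (ℕ × ℕ × ℚ)) := {l | IsWalkL H a l b ∧ l.length ≤ H.length}
  have hfin : S.Finite := by
    have hf : Set.Finite {l : List {x // x ∈ H} | l.length ≤ H.length} :=
      List.finite_length_le _ _
    apply (hf.image (fun l => l.map Subtype.val)).subset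
    rintro l ⟨hl, hlen⟩
    refine ⟨l.attach.map fun x => ⟨x.1, mem_of_isWalkL hl x.1 x.2⟩, ?_, ?_⟩
    · simpa using hlen
    · show List.map Subtype.val (List.map _ l.attach) = l
      rw [List.map_map]
      exact List.attach_map_subtype_val l
  have hne : S.Nonempty := by
    by_contra hne
    apply h
    unfold dist
    rw [iInf_eq_top]
    intro l
    rw [iInf_eq_top]
    intro hl
    obtain ⟨l', hw, hlen, _⟩ := exists_short H hl
    exact absurd ⟨l', hw, hlen⟩ hne
  obtain ⟨l, hlS, hmin⟩ := Set.exists_min_image S (fun l => lengthL l) hfin hne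
  refine ⟨l, hlS.1, ?_, hlS.2⟩
  apply le_antisymm (dist_le hlS.1)
  unfold dist
  refine le_iInf₂ ?_
  intro m hm
  obtain ⟨l', hw, hlen, _, hc⟩ := exists_short H hm
  have h1 : lengthL l ≤ lengthL m := le_trans (hmin l' ⟨hw, hlen⟩) (hc hH)
  apply ENNReal.ofReal_le_ofReal
  exact_mod_cast h1

end Pool.Agent.RTO
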