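import Pool.Agent.RTO.Walk

/-!
# Reduction of a closed walk to vertex-disjoint closed walks joined by gates

Generalise to states `(𝓛, Γ)` with all properties of `Terminal` except `disj` and `ok`, plus
`(g)` of `reduce` for the darts of the original closed walk, and induct on
`2 * (total number of darts of 𝓛) + 𝓛.length`:
* if two members `x, y` of `𝓛` share a vertex `v`: split both at `v` (`exists_split`) and replace
  them by one closed walk based at `v` with the same darts (rotation `l₂ ++ l₁`); cost, used darts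
  and union of vertex sets are unchanged (the vertex set of a closed walk is `{base} ∪ {tl d}`, also
  `= {base} ∪ {hd d}`), the length of `𝓛` drops;
* else if `Ok` fails: `(e,true)` and `(e,false)` occur in `𝓛`, both in members containing the vertex
  `p e`, so in the same member `x` (no two members share a vertex; if the two occurrences are in
  different list positions the positions are equal by `Pairwise`); rotate so that
  `x.2 = (e,true) :: (y ++ (e,false) :: z)` (base `p e`): `y` is closed at `q e`, `z` closed at `p e`.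
  Replace `x` by `(q e, y)` and `(p e, z)`, and `Γ` by `insert e Γ`: the cost drops by `2 * le e`
  (if `e` was already in `Γ` the inequality is only better); the number of darts drops by 2, the
  length of `𝓛` grows by 1; all vertices stay covered.
Start: `𝓛 = [(s, P ++ Q)]`, `Γ = ∅`. If `¬ Ok (P ++ Q)` then, as darts are only removed in the second
operation and the final state is `Ok`, the second operation was used, and `Γ ≠ ∅`.
-/

namespace Pool.Agent.RTO

variable {V A E : Type} {G : MGr V A E}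

/-- a terminal state of the reduction -/
structure Terminal (G : MGr V A E) (s t : V) (c₀ : ℕ) (𝓛 : List (V × List (Dart A E)))
    (Γ : Finset E) : Prop where
  closed : ∀ x ∈ 𝓛, G.IsWalk x.1 x.2 x.1
  disj : 𝓛.Pairwise (fun x y => Disjoint (G.vset x) (G.vset y))
  ok : Ok (𝓛.flatMap Prod.snd)
  hs : ∃ x ∈ 𝓛, s ∈ G.vset x
  ht : ∃ x ∈ 𝓛, t ∈ G.vset x
  cost : (𝓛.map fun x => G.cost x.2).sum + 2 * ∑ e ∈ Γ, G.le e ≤ c₀
  ends : ∀ e ∈ Γ, (∃ x ∈ 𝓛, G.p e ∈ G.vset x) ∧ (∃ x ∈ 𝓛, G.q e ∈ G.vset x)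

private theorem end_mem {l : List (Dart A E)} : ∀ {a b : V}, G.IsWalk a l b →
    b ∈ G.vset (a, l) := by
  induction l with
  | nil => intro a b h; exact Or.inl h.symm
  | cons d l ih =>
    intro a b h
    rcases ih h.2 with h1 | ⟨d', hd', h1⟩
    · exact Or.inr ⟨d, List.mem_cons_self, h1.symm⟩
    · exact Or.inr ⟨d', List.mem_cons_of_mem _ hd', h1⟩

private theorem hd_mem {l : List (Dart A E)} : ∀ {a b : V}, G.IsWalk a l b →
    ∀ d ∈ l, G.hd d ∈ G.vset (a, l) := by
  induction l with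
  | nil => intro a b h d hd; cases hd
  | cons d l ih =>
    intro a b h d' hd'
    rcases List.mem_cons.1 hd' with rfl | hd'
    · exact Or.inl h.1
    · rcases ih h.2 d' hd' with h1 | ⟨d'', hd'', h1⟩
      · exact Or.inr ⟨d, List.mem_cons_self, h1.symm⟩
      · exact Or.inr ⟨d'', List.mem_cons_of_mem _ hd'', h1⟩

private theorem cost_perm {l l' : List (Dart A E)} (h : l.Perm l') : G.cost l = G.cost l' := by
  unfold MGr.cost
  exact (h.map G.len).sum_eq

/-- rotation of a closed walk to a vertex on it -/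
private theorem rot {x : V × List (Dart A E)} (hx : G.IsWalk x.1 x.2 x.1) {v : V}
    (hv : v ∈ G.vset x) :
    ∃ m, G.IsWalk v m v ∧ m.Perm x.2 ∧ G.vset (v, m) = G.vset x := by
  obtain ⟨l₁, l₂, hl, h1, h2⟩ := exists_split hx hv
  have hp : (l₂ ++ l₁).Perm x.2 := by rw [hl]; exact List.perm_append_comm
  refine ⟨l₂ ++ l₁, isWalk_append.2 ⟨x.1, h2, h1⟩, hp, ?_⟩
  ext w
  constructor
  · rintro (rfl | ⟨d, hd, rfl⟩)
    · exact hv
    · exact Or.inr ⟨d, hp.mem_iff.1 hd, rfl⟩
  · rintro (rfl | ⟨d, hd, rfl⟩)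
    · rcases end_mem h2 with h3 | ⟨d, hd, h3⟩
      · exact Or.inl h3
      · exact Or.inr ⟨d, List.mem_append_left _ hd, h3⟩
    · exact Or.inr ⟨d, hp.mem_iff.2 hd, rfl⟩

/-- rotation of a closed walk to start with a given dart -/
private theorem rot_dart {x : V × List (Dart A E)} (hx : G.IsWalk x.1 x.2 x.1) {d : Dart A E}
    (hd : d ∈ x.2) :
    ∃ m, G.IsWalk (G.tl d) m (G.hd d) ∧ (d :: m).Perm x.2 := by
  obtain ⟨l₁, l₂, hl⟩ := List.append_of_mem hd
  rw [hl] at hx
  obtain ⟨c, h1, h2⟩ := isWalk_append.1 hx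
  obtain ⟨h3, h4⟩ := h2
  subst h3
  refine ⟨l₂ ++ l₁, isWalk_append.2 ⟨x.1, h4, h1⟩, ?_⟩
  rw [hl]
  have : (d :: (l₂ ++ l₁)) = (d :: l₂) ++ l₁ := rfl
  rw [this]
  exact List.perm_append_comm

private theorem perm_of_not_pairwise {α : Type} {R : α → α → Prop} {l : List α}
    (h : ¬ l.Pairwise R) : ∃ x y r, l.Perm (x :: y :: r) ∧ ¬ R x y := by
  induction l with
  | nil => exact absurd List.Pairwise.nil h
  | cons a l ih =>
    by_cases h1 : ∀ b ∈ l, R a b
    · have h2 : ¬ l.Pairwise R := fun h2 => h (List.pairwise_cons.2 ⟨h1, h2⟩)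
      obtain ⟨x, y, r, hp, hR⟩ := ih h2
      refine ⟨x, y, a :: r, ?_, hR⟩
      refine (List.Perm.cons a hp).trans ?_
      refine (List.Perm.swap x a (y :: r)).trans ?_
      exact List.Perm.cons x (List.Perm.swap y a r)
    · push Not at h1
      obtain ⟨b, hb, hR⟩ := h1
      obtain ⟨l₁, l₂, hl⟩ := List.append_of_mem hb
      refine ⟨a, b, l₁ ++ l₂, ?_, hR⟩
      rw [hl]
      exact List.Perm.cons a List.perm_middle

private theorem perm_of_mem {α : Type} {l : List α} {x : α} (h : x ∈ l) :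
    ∃ r, l.Perm (x :: r) := by
  obtain ⟨l₁, l₂, hl⟩ := List.append_of_mem h
  exact ⟨l₁ ++ l₂, by rw [hl]; exact List.perm_middle⟩

/-- states of the reduction -/
private structure Pre (G : MGr V A E) (s t : V) (W : List (Dart A E)) (c₀ : ℕ)
    (𝓛 : List (V × List (Dart A E))) (Γ : Finset E) : Prop where
  closed : ∀ x ∈ 𝓛, G.IsWalk x.1 x.2 x.1
  hs : ∃ x ∈ 𝓛, s ∈ G.vset x
  ht : ∃ x ∈ 𝓛, t ∈ G.vset x
  cost : (𝓛.map fun x => G.cost x.2).sum + 2 * ∑ e ∈ Γ, G.le e ≤ c₀
  ends : ∀ e ∈ Γ, (∃ x ∈ 𝓛, G.p e ∈ G.vset x) ∧ (∃ x ∈ 𝓛, G.q e ∈ G.vset x)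
  cov : ∀ d ∈ W, (∃ x ∈ 𝓛, ∃ d' ∈ x.2, und d' = und d) ∨ ∃ e ∈ Γ, und d = Sum.inr e
  flag : ¬ Ok W → Γ.Nonempty ∨ ¬ Ok (𝓛.flatMap Prod.snd)

private theorem pre_perm {s t : V} {W : List (Dart A E)} {c₀ : ℕ}
    {𝓛 𝓛' : List (V × List (Dart A E))} {Γ : Finset E} (h : Pre G s t W c₀ 𝓛 Γ)
    (hp : 𝓛.Perm 𝓛') : Pre G s t W c₀ 𝓛' Γ := by
  have hm : ∀ x, x ∈ 𝓛 ↔ x ∈ 𝓛' := fun x => hp.mem_iff
  refine ⟨fun x hx => h.closed x ((hm x).2 hx), ?_, ?_, ?_, ?_, ?_, ?_⟩
  · obtain ⟨x, hx, h1⟩ := h.hs; exact ⟨x, (hm x).1 hx, h1⟩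
  · obtain ⟨x, hx, h1⟩ := h.ht; exact ⟨x, (hm x).1 hx, h1⟩
  · rw [← (hp.map fun x => G.cost x.2).sum_eq]; exact h.cost
  · intro e he
    obtain ⟨⟨x, hx, h1⟩, ⟨y, hy, h2⟩⟩ := h.ends e he
    exact ⟨⟨x, (hm x).1 hx, h1⟩, ⟨y, (hm y).1 hy, h2⟩⟩
  · intro d hd
    rcases h.cov d hd with ⟨x, hx, h1⟩ | h1
    · exact Or.inl ⟨x, (hm x).1 hx, h1⟩
    · exact Or.inr h1
  · intro hW
    rcases h.flag hW with h1 | h1
    · exact Or.inl h1
    · right
      intro h2
      apply h1
      have hm2 : ∀ d, d ∈ 𝓛.flatMap Prod.snd ↔ d ∈ 𝓛'.flatMap Prod.snd := by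
        intro d
        simp only [List.mem_flatMap, hm]
      intro e he
      rw [hm2] at he ⊢
      exact h2 e he

/-- first operation -/
private theorem pre_merge {s t : V} {W : List (Dart A E)} {c₀ : ℕ}
    {x y : V × List (Dart A E)} {r : List (V × List (Dart A E))} {Γ : Finset E}
    (h : Pre G s t W c₀ (x :: y :: r) Γ) {v : V} (hx : v ∈ G.vset x) (hy : v ∈ G.vset y) :
    ∃ z : V × List (Dart A E), z.2.length = x.2.length + y.2.length ∧
      Pre G s t W c₀ (z :: r) Γ := by
  obtain ⟨m, hm, hmp, hmv⟩ := rot (h.closed x List.mem_cons_self) hx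
  obtain ⟨m', hm', hmp', hmv'⟩ :=
    rot (h.closed y (List.mem_cons_of_mem _ List.mem_cons_self)) hy
  have hz : G.vset (v, m ++ m') = G.vset x ∪ G.vset y := by
    rw [← hmv, ← hmv']
    ext w
    constructor
    · rintro (h1 | ⟨d, hd, h1⟩)
      · exact Or.inl (Or.inl h1)
      · rcases List.mem_append.1 hd with hd | hd
        · exact Or.inl (Or.inr ⟨d, hd, h1⟩)
        · exact Or.inr (Or.inr ⟨d, hd, h1⟩)
    · rintro ((h1 | ⟨d, hd, h1⟩) | (h1 | ⟨d, hd, h1⟩))
      · exact Or.inl h1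
      · exact Or.inr ⟨d, List.mem_append_left _ hd, h1⟩
      · exact Or.inl h1
      · exact Or.inr ⟨d, List.mem_append_right _ hd, h1⟩
  have hcov : ∀ w, (∃ z ∈ x :: y :: r, w ∈ G.vset z) →
      ∃ z ∈ (v, m ++ m') :: r, w ∈ G.vset z := by
    rintro w ⟨z, hzm, hw⟩
    rcases List.mem_cons.1 hzm with rfl | hzm
    · exact ⟨_, List.mem_cons_self, by rw [hz]; exact Or.inl hw⟩
    · rcases List.mem_cons.1 hzm with rfl | hzm
      · exact ⟨_, List.mem_cons_self, by rw [hz]; exact Or.inr hw⟩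
      · exact ⟨z, List.mem_cons_of_mem _ hzm, hw⟩
  refine ⟨(v, m ++ m'), ?_, ?_, hcov s h.hs, hcov t h.ht, ?_,
    fun e he => ⟨hcov _ (h.ends e he).1, hcov _ (h.ends e he).2⟩, ?_, ?_⟩
  · simp [hmp.length_eq, hmp'.length_eq]
  · intro z hzm
    rcases List.mem_cons.1 hzm with rfl | hzm
    · exact isWalk_append.2 ⟨v, hm, hm'⟩
    · exact h.closed z (List.mem_cons_of_mem _ (List.mem_cons_of_mem _ hzm))
  · have h1 := h.cost
    simp only [List.map_cons, List.sum_cons, cost_append, cost_perm hmp, cost_perm hmp'] at h1 ⊢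
    omega
  · intro d hd
    rcases h.cov d hd with ⟨z, hzm, d', hd', h1⟩ | h1
    · rcases List.mem_cons.1 hzm with rfl | hzm
      · exact Or.inl ⟨_, List.mem_cons_self, d',
          List.mem_append_left _ (hmp.mem_iff.2 hd'), h1⟩
      · rcases List.mem_cons.1 hzm with rfl | hzm
        · exact Or.inl ⟨_, List.mem_cons_self, d',
            List.mem_append_right _ (hmp'.mem_iff.2 hd'), h1⟩
        · exact Or.inl ⟨z, List.mem_cons_of_mem _ hzm, d', hd', h1⟩
    · exact Or.inr h1
  · intro hW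
    rcases h.flag hW with h1 | h1
    · exact Or.inl h1
    · right
      intro h2
      apply h1
      have hm2 : ∀ d, d ∈ (x :: y :: r).flatMap Prod.snd ↔
          d ∈ ((v, m ++ m') :: r).flatMap Prod.snd := by
        intro d
        simp only [List.flatMap_cons, List.mem_append, hmp.mem_iff, hmp'.mem_iff, or_assoc]
      intro e he
      rw [hm2] at he ⊢
      exact h2 e he

/-- second operation -/
private theorem pre_cut [DecidableEq E] {s t : V} {W : List (Dart A E)} {c₀ : ℕ}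
    {x : V × List (Dart A E)} {r : List (V × List (Dart A E))} {Γ : Finset E}
    (h : Pre G s t W c₀ (x :: r) Γ) {e : E} (h1 : Sum.inr (e, true) ∈ x.2)
    (h2 : Sum.inr (e, false) ∈ x.2) :
    ∃ y z : V × List (Dart A E), y.2.length + z.2.length + 2 = x.2.length ∧
      Pre G s t W c₀ (y :: z :: r) (insert e Γ) := by
  obtain ⟨m, hm, hmp⟩ := rot_dart (h.closed x List.mem_cons_self) h1
  have h3 : (Sum.inr (e, false) : Dart A E) ∈ m := by
    have h4 := hmp.mem_iff.2 h2
    rcases List.mem_cons.1 h4 with h5 | h5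
    · simp at h5
    · exact h5
  obtain ⟨y, z, hyz⟩ := List.append_of_mem h3
  rw [hyz] at hm
  obtain ⟨c, hy, hz0⟩ := isWalk_append.1 hm
  obtain ⟨hc, hz⟩ := hz0
  have e1 : G.tl (Sum.inr (e, true) : Dart A E) = G.q e := rfl
  have e2 : G.hd (Sum.inr (e, true) : Dart A E) = G.p e := rfl
  have e3 : G.tl (Sum.inr (e, false) : Dart A E) = G.p e := rfl
  have e4 : G.hd (Sum.inr (e, false) : Dart A E) = G.q e := rfl
  rw [e1] at hy
  rw [e2, e3] at hz
  rw [e4] at hc
  subst hc
  have hp : (Sum.inr (e, true) :: (y ++ Sum.inr (e, false) :: z)).Perm x.2 := by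
    rw [← hyz]; exact hmp
  have hbase : x.1 = G.p e ∨ ∃ d ∈ x.2, G.tl d = x.1 := by
    rcases end_mem (h.closed x List.mem_cons_self) with h5 | h5
    · right
      have hne : x.2 ≠ [] := List.ne_nil_of_mem h1
      have := h.closed x List.mem_cons_self
      -- a nonempty walk ends with a dart
      have key : ∀ (l : List (Dart A E)) (a b : V), G.IsWalk a l b → l ≠ [] →
          ∃ d ∈ l, G.tl d = b := by
        intro l
        induction l with
        | nil => intro a b _ h; exact absurd rfl h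
        | cons d l ih =>
          intro a b hw _
          by_cases hl : l = []
          · subst hl
            exact ⟨d, List.mem_cons_self, hw.2⟩
          · obtain ⟨d', hd', h6⟩ := ih _ _ hw.2 hl
            exact ⟨d', List.mem_cons_of_mem _ hd', h6⟩
      exact key _ _ _ this hne
    · exact Or.inr h5
  have hvx : ∀ w ∈ G.vset x, w ∈ G.vset (G.q e, y) ∨ w ∈ G.vset (G.p e, z) := by
    have hd : ∀ d ∈ x.2, G.tl d ∈ G.vset (G.q e, y) ∨ G.tl d ∈ G.vset (G.p e, z) := by
      intro d hd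
      have hd' := hp.mem_iff.2 hd
      rcases List.mem_cons.1 hd' with rfl | hd'
      · exact Or.inl (Or.inl rfl)
      · rcases List.mem_append.1 hd' with hd' | hd'
        · exact Or.inl (Or.inr ⟨d, hd', rfl⟩)
        · rcases List.mem_cons.1 hd' with rfl | hd'
          · exact Or.inr (Or.inl rfl)
          · exact Or.inr (Or.inr ⟨d, hd', rfl⟩)
    rintro w (rfl | ⟨d, hd1, rfl⟩)
    · rcases hbase with h5 | ⟨d, hd1, h5⟩
      · exact Or.inr (Or.inl h5)
      · rw [← h5]; exact hd d hd1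
    · exact hd d hd1
  have hcov : ∀ w, (∃ x' ∈ x :: r, w ∈ G.vset x') →
      ∃ x' ∈ (G.q e, y) :: (G.p e, z) :: r, w ∈ G.vset x' := by
    rintro w ⟨x', hx', hw⟩
    rcases List.mem_cons.1 hx' with rfl | hx'
    · rcases hvx w hw with h5 | h5
      · exact ⟨_, List.mem_cons_self, h5⟩
      · exact ⟨_, List.mem_cons_of_mem _ List.mem_cons_self, h5⟩
    · exact ⟨x', List.mem_cons_of_mem _ (List.mem_cons_of_mem _ hx'), hw⟩
  refine ⟨(G.q e, y), (G.p e, z), ?_, ?_, hcov s h.hs, hcov t h.ht, ?_, ?_, ?_, ?_⟩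
  · have := hp.length_eq
    simp only [List.length_cons, List.length_append] at this
    simp only
    omega
  · intro x' hx'
    rcases List.mem_cons.1 hx' with rfl | hx'
    · exact hy
    · rcases List.mem_cons.1 hx' with rfl | hx'
      · exact hz
      · exact h.closed x' (List.mem_cons_of_mem _ hx')
  · have h5 := h.cost
    have h6 := cost_perm (G := G) hp
    have h7 : ∑ e' ∈ insert e Γ, G.le e' ≤ G.le e + ∑ e' ∈ Γ, G.le e' := by
      by_cases he : e ∈ Γ
      · rw [Finset.insert_eq_of_mem he]; omega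
      · rw [Finset.sum_insert he]
    have l1 : G.len (Sum.inr (e, true) : Dart A E) = G.le e := rfl
    have l2 : G.len (Sum.inr (e, false) : Dart A E) = G.le e := rfl
    simp only [cost_cons, cost_append, l1, l2] at h6
    simp only [List.map_cons, List.sum_cons] at h5 ⊢
    omega
  · intro e' he'
    rcases Finset.mem_insert.1 he' with rfl | he'
    · exact ⟨⟨_, List.mem_cons_of_mem _ List.mem_cons_self, Or.inl rfl⟩,
        ⟨_, List.mem_cons_self, Or.inl rfl⟩⟩
    · exact ⟨hcov _ (h.ends e' he').1, hcov _ (h.ends e' he').2⟩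
  · intro d hd
    rcases h.cov d hd with ⟨x', hx', d', hd', h5⟩ | ⟨e', he', h5⟩
    · rcases List.mem_cons.1 hx' with rfl | hx'
      · have hd'' := hp.mem_iff.2 hd'
        rcases List.mem_cons.1 hd'' with rfl | hd''
        · exact Or.inr ⟨e, Finset.mem_insert_self _ _, h5.symm⟩
        · rcases List.mem_append.1 hd'' with hd'' | hd''
          · exact Or.inl ⟨_, List.mem_cons_self, d', hd'', h5⟩
          · rcases List.mem_cons.1 hd'' with rfl | hd''
            · exact Or.inr ⟨e, Finset.mem_insert_self _ _, h5.symm⟩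
            · exact Or.inl ⟨_, List.mem_cons_of_mem _ List.mem_cons_self, d', hd'', h5⟩
      · exact Or.inl ⟨x', List.mem_cons_of_mem _ (List.mem_cons_of_mem _ hx'), d', hd', h5⟩
    · exact Or.inr ⟨e', Finset.mem_insert_of_mem he', h5⟩
  · intro _
    exact Or.inl ⟨e, Finset.mem_insert_self _ _⟩

private theorem red_main [DecidableEq E] (s t : V) (W : List (Dart A E)) (c₀ : ℕ) :
    ∀ (n : ℕ) (𝓛 : List (V × List (Dart A E))) (Γ : Finset E),
      2 * (𝓛.map fun x => x.2.length).sum + 𝓛.length = n → Pre G s t W c₀ 𝓛 Γ →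
      ∃ (𝓛' : List (V × List (Dart A E))) (Γ' : Finset E), Terminal G s t c₀ 𝓛' Γ' ∧
        (∀ d ∈ W, (∃ x ∈ 𝓛', ∃ d' ∈ x.2, und d' = und d) ∨ ∃ e ∈ Γ', und d = Sum.inr e) ∧
        (¬ Ok W → Γ'.Nonempty) := by
  intro n
  induction n using Nat.strong_induction_on with
  | _ n ih =>
    intro 𝓛 Γ hn h
    by_cases hdis : 𝓛.Pairwise (fun x y => Disjoint (G.vset x) (G.vset y))
    · by_cases hok : Ok (𝓛.flatMap Prod.snd)
      · refine ⟨𝓛, Γ, ⟨h.closed, hdis, hok, h.hs, h.ht, h.cost, h.ends⟩, h.cov, ?_⟩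
        intro hW
        rcases h.flag hW with h1 | h1
        · exact h1
        · exact absurd hok h1
      · have h0 : ∃ e, Sum.inr (e, true) ∈ 𝓛.flatMap Prod.snd ∧
            Sum.inr (e, false) ∈ 𝓛.flatMap Prod.snd := by
          unfold Ok at hok
          push Not at hok
          exact hok
        obtain ⟨e, h1, h2⟩ := h0
        obtain ⟨x, hx, h1⟩ := List.mem_flatMap.1 h1
        obtain ⟨y, hy, h2⟩ := List.mem_flatMap.1 h2
        have hxy : x = y := by
          by_contra hne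
          have hsym : Std.Symm (fun x y : V × List (Dart A E) =>
              Disjoint (G.vset x) (G.vset y)) := ⟨fun _ _ h => h.symm⟩
          have hD := hdis.forall hx hy hne
          have hx1 : G.p e ∈ G.vset x := hd_mem (h.closed x hx) _ h1
          have hy1 : G.p e ∈ G.vset y := Or.inr ⟨_, h2, rfl⟩
          exact Set.disjoint_left.1 hD hx1 hy1
        subst hxy
        obtain ⟨r, hr⟩ := perm_of_mem hx
        have hP := pre_perm h hr
        obtain ⟨y, z, hlen, hP'⟩ := pre_cut hP h1 h2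
        have hs1 : (𝓛.map fun x => x.2.length).sum = ((x :: r).map fun x => x.2.length).sum :=
          (hr.map _).sum_eq
        have hs2 := hr.length_eq
        refine ih _ ?_ _ _ rfl hP'
        simp only [List.map_cons, List.sum_cons, List.length_cons] at hs1 hs2 ⊢
        omega
    · obtain ⟨x, y, r, hr, hR⟩ := perm_of_not_pairwise hdis
      have hP := pre_perm h hr
      rw [Set.not_disjoint_iff] at hR
      obtain ⟨v, hvx, hvy⟩ := hR
      obtain ⟨z, hlen, hP'⟩ := pre_merge hP hvx hvy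
      have hs1 : (𝓛.map fun x => x.2.length).sum =
          ((x :: y :: r).map fun x => x.2.length).sum := (hr.map _).sum_eq
      have hs2 := hr.length_eq
      refine ih _ ?_ _ _ rfl hP'
      simp only [List.map_cons, List.sum_cons, List.length_cons] at hs1 hs2 ⊢
      omega

theorem reduce (s t : V) (P Q : List (Dart A E)) (hP : G.IsWalk s P t) (hQ : G.IsWalk t Q s) :
    ∃ (𝓛 : List (V × List (Dart A E))) (Γ : Finset E),
      Terminal G s t (G.cost P + G.cost Q) 𝓛 Γ ∧
      (∀ d ∈ P ++ Q, (∃ x ∈ 𝓛, ∃ d' ∈ x.2, und d' = und d) ∨ ∃ e ∈ Γ, und d = Sum.inr e) ∧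
      (¬ Ok (P ++ Q) → Γ.Nonempty) := by
  classical
  refine red_main s t (P ++ Q) _ _ [(s, P ++ Q)] ∅ rfl ⟨?_, ?_, ?_, ?_, ?_, ?_, ?_⟩
  · intro x hx
    rw [List.mem_singleton] at hx
    subst hx
    exact isWalk_append.2 ⟨t, hP, hQ⟩
  · exact ⟨_, List.mem_singleton_self _, Or.inl rfl⟩
  · refine ⟨_, List.mem_singleton_self _, ?_⟩
    rcases end_mem hP with h1 | ⟨d, hd, h1⟩
    · exact Or.inl h1
    · exact Or.inr ⟨d, List.mem_append_left _ hd, h1⟩
  · simp [cost_append]
  · intro e he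
    exact absurd he (Finset.notMem_empty e)
  · intro d hd
    exact Or.inl ⟨_, List.mem_singleton_self _, d, hd, rfl⟩
  · intro hW
    right
    simpa using hW

end Pool.Agent.RTO
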