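import Pool.Agent.RTO.SysEq
import Pool.Agent.RTO.Walk
import Pool.Agent.RTO.Cf

/-!
# Coefficients of `D` and `C`: walks and pairs of walks

`supD` and `supD_nonneg`: strong induction on `k` with `Sys.D_left` (every dart has positive length,
so `wt d * D (tl d) b` at `k` only uses coefficients of `D` at `k' < k`; `cf_mul_ne`).
`supD_walk`: induction on the list with `Sys.D_left`: one term of the sum is at least 1, the others
are nonnegative.
-/

namespace Pool.Agent.RTO

open PowerSeries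

variable {V A E : Type} [Fintype V] [DecidableEq V] [Fintype A] [Fintype E]
  {G : MGr V A E} {D V₁ : Matrix V V (MvPolynomial (A ⊕ E) ℤ)⟦X⟧}
  {ξ : E → (MvPolynomial (A ⊕ E) ℤ)⟦X⟧}

open Classical in
omit [Fintype V] [DecidableEq V] [Fintype A] [Fintype E] in
private theorem SupD_wt_mul (k : ℕ) (m : A ⊕ E →₀ ℕ) (d : Dart A E)
    (g : (MvPolynomial (A ⊕ E) ℤ)⟦X⟧) :
    cf k m (wt G MvPolynomial.X d * g) =
      if G.len d ≤ k ∧ und d ∈ m.support then
        cf (k - G.len d) (m - Finsupp.single (und d) 1) g else 0 := by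
  have h1 : wt G MvPolynomial.X d =
      PowerSeries.C (MvPolynomial.X (und d) : MvPolynomial (A ⊕ E) ℤ) * X ^ (G.len d) := by
    unfold wt
    ext1 n
    rw [coeff_monomial, coeff_C_mul, coeff_X_pow, mul_ite, mul_one, mul_zero]
  unfold cf
  rw [h1, mul_assoc, coeff_C_mul, coeff_X_pow_mul']
  by_cases h2 : G.len d ≤ k
  · rw [if_pos h2, MvPolynomial.coeff_X_mul']
    by_cases h3 : und d ∈ m.support
    · rw [if_pos h3, if_pos ⟨h2, h3⟩]
    · rw [if_neg h3, if_neg (fun h => h3 h.2)]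
  · rw [if_neg h2, if_neg (fun h => h2 h.1), mul_zero, MvPolynomial.coeff_zero]

omit [Fintype V] [DecidableEq V] [Fintype A] [Fintype E] in
private theorem SupD_len_pos (hG : G.Pos) (d : Dart A E) : 0 < G.len d := by
  rcases d with a | e
  · exact hG.1 a
  · exact hG.2 e.1

open Classical in
private theorem SupD_cf (hG : G.Pos) (h : Sys G MvPolynomial.X D V₁ ξ) (k : ℕ) (a b : V)
    (m : A ⊕ E →₀ ℕ) :
    cf k m (D a b) = (if a = b then cf k m (1 : (MvPolynomial (A ⊕ E) ℤ)⟦X⟧) else 0) +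
      ∑ d : Dart A E, if G.hd d = a ∧ G.len d ≤ k ∧ und d ∈ m.support then
        cf (k - G.len d) (m - Finsupp.single (und d) 1) (D (G.tl d) b) else 0 := by
  rw [h.D_left hG a b, cf_add, cf_sum]
  congr 1
  · split_ifs
    · rfl
    · exact cf_zero _ _
  · apply Finset.sum_congr rfl
    intro d _
    by_cases h1 : G.hd d = a
    · rw [if_pos h1, SupD_wt_mul]
      by_cases h2 : G.len d ≤ k ∧ und d ∈ m.support
      · rw [if_pos h2, if_pos ⟨h1, h2⟩]
      · rw [if_neg h2, if_neg (fun h => h2 h.2)]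
    · rw [if_neg h1, if_neg (fun h => h1 h.1), cf_zero]

theorem supD_nonneg (hG : G.Pos) (h : Sys G MvPolynomial.X D V₁ ξ) (k : ℕ) :
    ∀ (a b : V) (m : A ⊕ E →₀ ℕ), 0 ≤ cf k m (D a b) := by
  classical
  induction k using Nat.strong_induction_on with
  | _ k ih =>
    intro a b m
    rw [SupD_cf hG h]
    apply add_nonneg
    · split_ifs
      · exact cf_one_nonneg _ _
      · exact le_refl _
    · apply Finset.sum_nonneg
      intro d _
      split_ifs with h1
      · have := SupD_len_pos hG d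
        exact ih _ (by omega) _ _ _
      · exact le_refl _

theorem supD (hG : G.Pos) (h : Sys G MvPolynomial.X D V₁ ξ) (k : ℕ) :
    ∀ (a b : V) (m : A ⊕ E →₀ ℕ), cf k m (D a b) ≠ 0 →
      ∃ l, G.IsWalk a l b ∧ cnt l = m ∧ G.cost l = k := by
  classical
  induction k using Nat.strong_induction_on with
  | _ k ih =>
    intro a b m hne
    rw [SupD_cf hG h] at hne
    by_cases h1 : (if a = b then cf k m (1 : (MvPolynomial (A ⊕ E) ℤ)⟦X⟧) else 0) = 0
    · rw [h1, zero_add] at hne
      obtain ⟨d, _, hd⟩ := Finset.exists_ne_zero_of_sum_ne_zero hne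
      by_cases h2 : G.hd d = a ∧ G.len d ≤ k ∧ und d ∈ m.support
      · rw [if_pos h2] at hd
        have hlen := SupD_len_pos hG d
        obtain ⟨l, hl1, hl2, hl3⟩ := ih (k - G.len d) (by omega) _ _ _ hd
        refine ⟨d :: l, ⟨h2.1, hl1⟩, ?_, ?_⟩
        · rw [cnt_cons, hl2]
          apply add_tsub_cancel_of_le
          rw [Finsupp.single_le_iff]
          have := Finsupp.mem_support_iff.1 h2.2.2
          omega
        · rw [cost_cons, hl3]
          omega
      · rw [if_neg h2] at hd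
        exact absurd rfl hd
    · by_cases h2 : a = b
      · rw [if_pos h2] at h1
        obtain ⟨rfl, rfl⟩ := cf_one m k h1
        exact ⟨[], h2, rfl, rfl⟩
      · rw [if_neg h2] at h1
        exact absurd rfl h1

theorem supD_walk (hG : G.Pos) (h : Sys G MvPolynomial.X D V₁ ξ) {a b : V}
    {l : List (Dart A E)} (hl : G.IsWalk a l b) : 1 ≤ cf (G.cost l) (cnt l) (D a b) := by
  classical
  induction l generalizing a with
  | nil =>
    have hab : a = b := hl
    rw [SupD_cf hG h, if_pos hab]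
    have h1 : cf (G.cost ([] : List (Dart A E))) (cnt ([] : List (Dart A E)))
        (1 : (MvPolynomial (A ⊕ E) ℤ)⟦X⟧) = 1 := cf_one_zero
    rw [h1]
    have h2 : 0 ≤ ∑ d : Dart A E, if G.hd d = a ∧ G.len d ≤ G.cost ([] : List (Dart A E)) ∧
        und d ∈ (cnt ([] : List (Dart A E))).support then
        cf (G.cost ([] : List (Dart A E)) - G.len d)
          (cnt ([] : List (Dart A E)) - Finsupp.single (und d) 1) (D (G.tl d) b) else 0 := by
      apply Finset.sum_nonneg
      intro d _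
      split_ifs
      · exact supD_nonneg hG h _ _ _ _
      · exact le_refl _
    linarith
  | cons d l ih =>
    obtain ⟨h1, h2⟩ := hl
    have h3 := ih h2
    rw [SupD_cf hG h]
    have hnn : ∀ d' ∈ (Finset.univ : Finset (Dart A E)),
        0 ≤ (if G.hd d' = a ∧ G.len d' ≤ G.cost (d :: l) ∧ und d' ∈ (cnt (d :: l)).support then
        cf (G.cost (d :: l) - G.len d')
          (cnt (d :: l) - Finsupp.single (und d') 1) (D (G.tl d') b) else 0) := by
      intro d' _
      split_ifs
      · exact supD_nonneg hG h _ _ _ _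
      · exact le_refl _
    have h4 := Finset.single_le_sum hnn (Finset.mem_univ d)
    have h5 : G.hd d = a ∧ G.len d ≤ G.cost (d :: l) ∧ und d ∈ (cnt (d :: l)).support := by
      refine ⟨h1, ?_, ?_⟩
      · rw [cost_cons]
        omega
      · exact mem_support_cnt.2 ⟨d, List.mem_cons_self .., rfl⟩
    rw [if_pos h5] at h4
    have h6 : G.cost (d :: l) - G.len d = G.cost l := by
      rw [cost_cons]
      omega
    have h7 : cnt (d :: l) - Finsupp.single (und d) 1 = cnt l := by
      rw [cnt_cons, add_tsub_cancel_left]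
    rw [h6, h7] at h4
    have h8 : 0 ≤ (if a = b then cf (G.cost (d :: l)) (cnt (d :: l))
        (1 : (MvPolynomial (A ⊕ E) ℤ)⟦X⟧) else 0) := by
      split_ifs
      · exact cf_one_nonneg _ _
      · exact le_refl _
    linarith

theorem supC_nonneg (hG : G.Pos) (h : Sys G MvPolynomial.X D V₁ ξ) (a b : V) (k : ℕ)
    (m : A ⊕ E →₀ ℕ) : 0 ≤ cf k m (Cm D a b) :=
  cf_mul_nonneg (fun k' _ m' => supD_nonneg hG h k' a b m')
    (fun k' _ m' => supD_nonneg hG h k' b a m')

theorem supC (hG : G.Pos) (h : Sys G MvPolynomial.X D V₁ ξ) (a b : V) (k : ℕ)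
    (m : A ⊕ E →₀ ℕ) (hc : cf k m (Cm D a b) ≠ 0) :
    ∃ P Q, G.IsWalk a P b ∧ G.IsWalk b Q a ∧ cnt P + cnt Q = m ∧ G.cost P + G.cost Q = k := by
  obtain ⟨k₁, k₂, m₁, m₂, hk, hm, h1, h2⟩ := cf_mul_ne hc
  obtain ⟨P, hP1, hP2, hP3⟩ := supD hG h k₁ a b m₁ h1
  obtain ⟨Q, hQ1, hQ2, hQ3⟩ := supD hG h k₂ b a m₂ h2
  exact ⟨P, Q, hP1, hQ1, by rw [hP2, hQ2, hm], by rw [hP3, hQ3, hk]⟩

theorem supC_walk (hG : G.Pos) (h : Sys G MvPolynomial.X D V₁ ξ) {a b : V}
    {P Q : List (Dart A E)} (hP : G.IsWalk a P b) (hQ : G.IsWalk b Q a) :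
    1 ≤ cf (G.cost P + G.cost Q) (cnt P + cnt Q) (Cm D a b) :=
  cf_mul_pos (fun k m => supD_nonneg hG h k a b m) (fun k m => supD_nonneg hG h k b a m)
    (supD_walk hG h hP) (supD_walk hG h hQ)

end Pool.Agent.RTO
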