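import Pool.Agent.RTO.SupXi

/-!
# Coefficients of `V₁` and of `V₁ - C`

`supVC` by strong induction on `k` with `Sys.V_left` (using `supC` and, for smaller `k`, `supV`,
which follows from `supVC` at that `k` and `supC`: `V₁ = C + (V₁ - C)`): a nonzero coefficient of
`ξ e * (D a p * D p a * V₁ q b)` gives a closed walk `l` at `q`, walks `P₁ : a → p`, `Q₁ : p → a`, and
`P₂ : q → b`, `Q₂ : b → q`. Take `P = P₁ ++ (e,true) :: l ++ P₂`, `Q = Q₂ ++ (e,false) :: Q₁`.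
For `ξ e * (D a q * D q a * V₁ p b)`: `P₁ : a → q`, `Q₁ : q → a`, `P₂ : p → b`, `Q₂ : b → p`:
`P = P₁ ++ l ++ (e,false) :: P₂`, `Q = Q₂ ++ (e,true) :: Q₁`. In both cases `¬ Ok (P ++ Q)`.
`k` decreases because `ξ e` only has coefficients at `k ≥ 2 * le e > 0`.
-/

namespace Pool.Agent.RTO

open PowerSeries

variable {V A E : Type} [Fintype V] [DecidableEq V] [Fintype A] [Fintype E]
  {G : MGr V A E} {D V₁ : Matrix V V (MvPolynomial (A ⊕ E) ℤ)⟦X⟧}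
  {ξ : E → (MvPolynomial (A ⊕ E) ℤ)⟦X⟧}

theorem supVC (hG : G.Pos) (h : Sys G MvPolynomial.X D V₁ ξ) (k : ℕ) :
    ∀ (a b : V) (m : A ⊕ E →₀ ℕ), cf k m (V₁ a b - Cm D a b) ≠ 0 →
      ∃ P Q, G.IsWalk a P b ∧ G.IsWalk b Q a ∧ ¬ Ok (P ++ Q) ∧ cnt P + cnt Q = m ∧
        G.cost P + G.cost Q = k := by
  induction k using Nat.strong_induction_on with
  | _ k ih =>
  have ihV : ∀ k' < k, ∀ (a b : V) (m : A ⊕ E →₀ ℕ), cf k' m (V₁ a b) ≠ 0 →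
      ∃ P Q, G.IsWalk a P b ∧ G.IsWalk b Q a ∧ cnt P + cnt Q = m ∧
        G.cost P + G.cost Q = k' := by
    intro k' hk' a b m hm
    by_cases h1 : cf k' m (V₁ a b - Cm D a b) = 0
    · rw [cf_sub, sub_eq_zero] at h1
      exact supC hG h a b k' m (h1 ▸ hm)
    · obtain ⟨P, Q, h2, h3, _, h4, h5⟩ := ih k' hk' a b m h1
      exact ⟨P, Q, h2, h3, h4, h5⟩
  intro a b m hm
  have e1 : V₁ a b - Cm D a b = 0 - ∑ e, ξ e *
      (Cm D a (G.p e) * V₁ (G.q e) b + Cm D a (G.q e) * V₁ (G.p e) b) := by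
    have e2 := Sys.V_left hG h a b
    have e3 : Cm D a b = D a b * D b a := rfl
    rw [e3]
    nth_rewrite 1 [e2]
    have e4 : ∀ c, Cm D a c = D a c * D c a := fun c => rfl
    simp only [e4]
    ring
  rw [e1, cf_sub, cf_zero, zero_sub, neg_ne_zero, cf_sum] at hm
  obtain ⟨e, -, he⟩ := Finset.exists_ne_zero_of_sum_ne_zero hm
  obtain ⟨k₁, k₂, m₁, m₂, hk, hmm, h1, h2⟩ := cf_mul_ne he
  obtain ⟨l, hl, hm1, hk1⟩ := supXi hG h e k₁ m₁ h1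
  have hpos : 0 < G.le e := hG.2 e
  have w1 : ∀ {P₂ : List (Dart A E)} {x y : V}, x = G.p e → G.IsWalk (G.q e) P₂ y →
      G.IsWalk x (Sum.inr (e, true) :: P₂) y := by
    intro P₂ x y hx hP
    exact ⟨by simpa [MGr.hd] using hx.symm, by simpa [MGr.tl] using hP⟩
  have w2 : ∀ {P₂ : List (Dart A E)} {x y : V}, x = G.q e → G.IsWalk (G.p e) P₂ y →
      G.IsWalk x (Sum.inr (e, false) :: P₂) y := by
    intro P₂ x y hx hP
    exact ⟨by simpa [MGr.hd] using hx.symm, by simpa [MGr.tl] using hP⟩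
  have hu1 : und (Sum.inr (e, true) : Dart A E) = Sum.inr e := rfl
  have hu2 : und (Sum.inr (e, false) : Dart A E) = Sum.inr e := rfl
  have hl1 : G.len (Sum.inr (e, true) : Dart A E) = G.le e := rfl
  have hl2 : G.len (Sum.inr (e, false) : Dart A E) = G.le e := rfl
  rw [cf_add] at h2
  by_cases h3 : cf k₂ m₂ (Cm D a (G.p e) * V₁ (G.q e) b) = 0
  · rw [h3, zero_add] at h2
    obtain ⟨k₃, k₄, m₃, m₄, hk', hmm', h4, h5⟩ := cf_mul_ne h2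
    obtain ⟨P₁, Q₁, a1, a2, a3, a4⟩ := supC hG h a (G.q e) k₃ m₃ h4
    obtain ⟨P₂, Q₂, b1, b2, b3, b4⟩ := ihV k₄ (by omega) (G.p e) b m₄ h5
    refine ⟨P₁ ++ (l ++ Sum.inr (e, false) :: P₂), Q₂ ++ Sum.inr (e, true) :: Q₁, ?_, ?_, ?_, ?_, ?_⟩
    · exact isWalk_append.2 ⟨_, a1, isWalk_append.2 ⟨_, hl, w2 rfl b1⟩⟩
    · exact isWalk_append.2 ⟨_, b2, w1 rfl a2⟩
    · intro hok
      exact hok e (by simp) (by simp)
    · simp only [cnt_append, cnt_cons, hu1, hu2]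
      rw [← hmm, hm1, ← hmm', ← a3, ← b3]
      abel
    · simp only [cost_append, cost_cons, hl1, hl2]
      omega
  · obtain ⟨k₃, k₄, m₃, m₄, hk', hmm', h4, h5⟩ := cf_mul_ne h3
    obtain ⟨P₁, Q₁, a1, a2, a3, a4⟩ := supC hG h a (G.p e) k₃ m₃ h4
    obtain ⟨P₂, Q₂, b1, b2, b3, b4⟩ := ihV k₄ (by omega) (G.q e) b m₄ h5
    refine ⟨P₁ ++ Sum.inr (e, true) :: (l ++ P₂), Q₂ ++ Sum.inr (e, false) :: Q₁, ?_, ?_, ?_, ?_, ?_⟩
    · exact isWalk_append.2 ⟨_, a1, w1 rfl (isWalk_append.2 ⟨_, hl, b1⟩)⟩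
    · exact isWalk_append.2 ⟨_, b2, w2 rfl a2⟩
    · intro hok
      exact hok e (by simp) (by simp)
    · simp only [cnt_append, cnt_cons, hu1, hu2]
      rw [← hmm, hm1, ← hmm', ← a3, ← b3]
      abel
    · simp only [cost_append, cost_cons, hl1, hl2]
      omega

theorem supV (hG : G.Pos) (h : Sys G MvPolynomial.X D V₁ ξ) (k : ℕ) :
    ∀ (a b : V) (m : A ⊕ E →₀ ℕ), cf k m (V₁ a b) ≠ 0 →
      ∃ P Q, G.IsWalk a P b ∧ G.IsWalk b Q a ∧ cnt P + cnt Q = m ∧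
        G.cost P + G.cost Q = k := by
  intro a b m hm
  by_cases h1 : cf k m (V₁ a b - Cm D a b) = 0
  · rw [cf_sub, sub_eq_zero] at h1
    exact supC hG h a b k m (h1 ▸ hm)
  · obtain ⟨P, Q, h2, h3, _, h4, h5⟩ := supVC hG h k a b m h1
    exact ⟨P, Q, h2, h3, h4, h5⟩

end Pool.Agent.RTO
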