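import Pool.Agent.RTO.SupD

/-!
# Coefficients of `ξ e`: twice `e` plus a closed walk at `q e`

Strong induction on `k` with `Sys.ξ_left`:
`ξ e = wE ^ 2 - ξ e * (wE * (D p q + D q p))`. First term: the empty closed walk. Second term: a
coefficient of `ξ e` at a smaller `k` (closed walk `l` at `q`) and a closed walk through `p` and `q`:
`wE * D p q`: the dart `(e, false)` (from `q` to `p`) followed by a walk `p → q`;
`wE * D q p`: a walk `q → p` followed by the dart `(e, true)`. Concatenate.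
-/

namespace Pool.Agent.RTO

open PowerSeries

variable {V A E : Type} [Fintype V] [DecidableEq V] [Fintype A] [Fintype E]
  {G : MGr V A E} {D V₁ : Matrix V V (MvPolynomial (A ⊕ E) ℤ)⟦X⟧}
  {ξ : E → (MvPolynomial (A ⊕ E) ℤ)⟦X⟧}

omit [Fintype V] [DecidableEq V] [Fintype A] [Fintype E] in
private theorem SupXi_wE2 {e : E} {k : ℕ} {m : A ⊕ E →₀ ℕ}
    (h : cf k m (wE G MvPolynomial.X e ^ 2) ≠ 0) :
    k = 2 * G.le e ∧ m = Finsupp.single (Sum.inr e) 1 + Finsupp.single (Sum.inr e) 1 := by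
  rw [pow_two] at h
  obtain ⟨k₁, k₂, m₁, m₂, hk, hm, h1, h2⟩ := cf_mul_ne h
  obtain ⟨a1, a2⟩ := cf_wE h1
  obtain ⟨b1, b2⟩ := cf_wE h2
  exact ⟨by omega, by rw [← hm, a2, b2]⟩

theorem supXi (hG : G.Pos) (h : Sys G MvPolynomial.X D V₁ ξ) (e : E) (k : ℕ) :
    ∀ m : A ⊕ E →₀ ℕ, cf k m (ξ e) ≠ 0 → ∃ l, G.IsWalk (G.q e) l (G.q e) ∧
      m = Finsupp.single (Sum.inr e) 1 + Finsupp.single (Sum.inr e) 1 + cnt l ∧
      k = 2 * G.le e + G.cost l := by
  induction k using Nat.strong_induction_on with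
  | _ k ih =>
  intro m hm
  rw [Sys.ξ_left h e, cf_sub] at hm
  by_cases h1 : cf k m (wE G MvPolynomial.X e ^ 2) = 0
  · rw [h1, zero_sub, neg_ne_zero] at hm
    obtain ⟨k₁, k₂, m₁, m₂, hk, hmm, h2, h3⟩ := cf_mul_ne hm
    obtain ⟨k₃, k₄, m₃, m₄, hk', hmm', h4, h5⟩ := cf_mul_ne h3
    obtain ⟨c1, c2⟩ := cf_wE h4
    have hpos : 0 < G.le e := hG.2 e
    obtain ⟨l, hl, hm1, hk1⟩ := ih k₁ (by omega) m₁ h2
    rw [cf_add] at h5
    have hu1 : und (Sum.inr (e, true) : Dart A E) = Sum.inr e := rfl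
    have hu2 : und (Sum.inr (e, false) : Dart A E) = Sum.inr e := rfl
    have hl1 : G.len (Sum.inr (e, true) : Dart A E) = G.le e := rfl
    have hl2 : G.len (Sum.inr (e, false) : Dart A E) = G.le e := rfl
    by_cases h6 : cf k₄ m₄ (D (G.p e) (G.q e)) = 0
    · rw [h6, zero_add] at h5
      obtain ⟨P, hP, a2, a3⟩ := supD hG h k₄ _ _ m₄ h5
      refine ⟨l ++ (P ++ [Sum.inr (e, true)]), ?_, ?_, ?_⟩
      · exact isWalk_append.2 ⟨_, hl, isWalk_append.2 ⟨_, hP, ⟨by simp [MGr.hd], by simp [MGr.tl, MGr.IsWalk]⟩⟩⟩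
      · simp only [cnt_append, cnt_cons, hu1]
        have h0 : cnt ([] : List (Dart A E)) = 0 := rfl
        rw [← hmm, hm1, ← hmm', c2, ← a2, h0]
        abel
      · simp only [cost_append, cost_cons, hl1]
        have h0 : G.cost ([] : List (Dart A E)) = 0 := rfl
        rw [h0]
        omega
    · obtain ⟨P, hP, a2, a3⟩ := supD hG h k₄ _ _ m₄ h6
      refine ⟨l ++ (Sum.inr (e, false) :: P), ?_, ?_, ?_⟩
      · exact isWalk_append.2 ⟨_, hl, ⟨by simp [MGr.hd], by simpa [MGr.tl] using hP⟩⟩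
      · simp only [cnt_append, cnt_cons, hu2]
        rw [← hmm, hm1, ← hmm', c2, ← a2]
        abel
      · simp only [cost_append, cost_cons, hl2]
        omega
  · obtain ⟨a1, a2⟩ := SupXi_wE2 h1
    refine ⟨[], rfl, ?_, ?_⟩
    · have h0 : cnt ([] : List (Dart A E)) = 0 := rfl
      rw [h0, add_zero, a2]
    · have h0 : G.cost ([] : List (Dart A E)) = 0 := rfl
      rw [h0, add_zero, a1]

end Pool.Agent.RTO
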