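import Pool.Agent.RTO.SysEx

/-!
# The equations of the basic system as sums over darts and undirected edges

`D_left`: `(1 - adj) * D = 1` (Matrix.mul_eq_one_comm), and
`∑ c, adj a c * D c b = ∑ d, if hd d = a then wt d * D (tl d) b else 0` (exchange the sums).
`V_left`: with `M = Xm * Cm D`, `1 + M` is invertible (`isUnit_one_add`, zero constant coefficients)
and `V₁ = C * (1 + X * C)⁻¹`, so `C * X * V₁ = C * ((1 + X * C) - 1) * (1 + X * C)⁻¹ = C - V₁`; expand
`(C * X * V₁) a b = ∑ e, ξ e * (C a (p e) * V₁ (q e) b + C a (q e) * V₁ (p e) b)`.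
-/

namespace Pool.Agent.RTO

open PowerSeries

variable {V A E : Type} [Fintype V] [DecidableEq V] [Fintype A] [Fintype E] {R : Type}
  [CommRing R] {G : MGr V A E} {z : A ⊕ E → R} {D V₁ : Matrix V V R⟦X⟧} {ξ : E → R⟦X⟧}

private theorem sysEq_adj_mul (M : Matrix V V R⟦X⟧) (a b : V) :
    (adj G z * M) a b = ∑ d : Dart A E, if G.hd d = a then wt G z d * M (G.tl d) b else 0 := by
  rw [Matrix.mul_apply]
  simp only [adj, Finset.sum_mul]
  rw [Finset.sum_comm]
  refine Finset.sum_congr rfl fun d _ => ?_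
  by_cases h : G.hd d = a
  · simp [h, ite_mul]
  · simp [h]

private theorem sysEq_Xm_mul (M N : Matrix V V R⟦X⟧) (a b : V) :
    (M * (Xm G ξ * N)) a b =
      ∑ e, ξ e * (M a (G.p e) * N (G.q e) b + M a (G.q e) * N (G.p e) b) := by
  have h1 : ∀ c : V, (Xm G ξ * N) c b =
      ∑ e, ((if G.p e = c then ξ e * N (G.q e) b else 0) +
        (if G.q e = c then ξ e * N (G.p e) b else 0)) := by
    intro c
    rw [Matrix.mul_apply]
    simp only [Xm, Finset.sum_mul]
    rw [Finset.sum_comm]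
    refine Finset.sum_congr rfl fun e _ => ?_
    simp only [add_mul, Finset.sum_add_distrib]
    congr 1
    · by_cases h : G.p e = c
      · simp [h, ite_mul]
      · simp [h]
    · by_cases h : G.q e = c
      · simp [h, ite_mul]
      · simp [h]
  rw [Matrix.mul_apply]
  simp only [h1, Finset.mul_sum]
  rw [Finset.sum_comm]
  refine Finset.sum_congr rfl fun e _ => ?_
  simp only [mul_add, Finset.sum_add_distrib, mul_ite, mul_zero, Finset.sum_ite_eq,
    Finset.mem_univ, if_true]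
  ring

theorem Sys.D_left (hG : G.Pos) (h : Sys G z D V₁ ξ) (a b : V) :
    D a b = (if a = b then 1 else 0) +
      ∑ d : Dart A E, if G.hd d = a then wt G z d * D (G.tl d) b else 0 := by
  have _ := hG
  have h1 : (1 - adj G z) * D = 1 := mul_eq_one_comm.mp h.hD
  have h2 : ((1 - adj G z) * D) a b = (1 : Matrix V V R⟦X⟧) a b := by rw [h1]
  rw [sub_mul, one_mul, Matrix.sub_apply, sysEq_adj_mul, Matrix.one_apply] at h2
  rw [← h2]
  ring

theorem Sys.V_left (hG : G.Pos) (h : Sys G z D V₁ ξ) (a b : V) :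
    V₁ a b = D a b * D b a - ∑ e, ξ e *
      (D a (G.p e) * D (G.p e) a * V₁ (G.q e) b + D a (G.q e) * D (G.q e) a * V₁ (G.p e) b) := by
  have hu : IsUnit (1 + Xm G ξ * Cm D) := by
    apply isUnit_one_add
    intro a b
    rw [Matrix.mul_apply, map_sum]
    refine Finset.sum_eq_zero fun c _ => ?_
    rw [map_mul, Sys.constantCoeff_Xm hG h, zero_mul]
  have h0 : (Cm D * (Xm G ξ * V₁) - Cm D + V₁) * (1 + Xm G ξ * Cm D) = 0 := by
    have h1 : Cm D * (Xm G ξ * V₁) * (1 + Xm G ξ * Cm D) = Cm D * (Xm G ξ * Cm D) := by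
      rw [mul_assoc, mul_assoc, h.hV]
    rw [add_mul, sub_mul, h1, h.hV]
    noncomm_ring
  have h2 : Cm D * (Xm G ξ * V₁) - Cm D + V₁ = 0 := by
    obtain ⟨u, hu⟩ := hu
    rw [← hu] at h0
    exact (Units.mul_left_eq_zero u).mp h0
  have h3 : V₁ = Cm D - Cm D * (Xm G ξ * V₁) := by
    have h4 : V₁ = Cm D - Cm D * (Xm G ξ * V₁) + (Cm D * (Xm G ξ * V₁) - Cm D + V₁) := by abel
    rw [h2, add_zero] at h4
    exact h4
  have h5 := congrFun (congrFun h3 a) b
  rw [Matrix.sub_apply, sysEq_Xm_mul] at h5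
  exact h5

theorem Sys.ξ_left (h : Sys G z D V₁ ξ) (e : E) :
    ξ e = wE G z e ^ 2 - ξ e * (wE G z e * (D (G.p e) (G.q e) + D (G.q e) (G.p e))) := by
  linear_combination h.hξ e

end Pool.Agent.RTO
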