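import Pool.Agent.RTO.Defs

/-!
# Matrices with zero constant coefficients

(1) det is a polynomial in the entries, constantCoeff is a ring hom (RingHom.map_det), the image of
`1 + M` is `1`, so constantCoeff (det (1 + M)) = 1, and a power series over a commutative ring with
unit constant coefficient is a unit (PowerSeries.isUnit_iff_constantCoeff); Matrix.isUnit_iff_isUnit_det.
(2) show by strong induction on `n` that the coefficient of `X ^ n` of all `v b` vanishes
(coeff_mul: in `∑ v a * N a b` the coefficient of `X ^ n` only uses coefficients `< n` of `v`).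
Or: `v * (1 - N) = 0` and `1 - N` is invertible by (1).
-/

namespace Pool.Agent.RTO

open PowerSeries

variable {V : Type} [Fintype V] [DecidableEq V] {R : Type} [CommRing R]

theorem isUnit_one_add (M : Matrix V V R⟦X⟧) (h : ∀ a b, constantCoeff (M a b) = 0) :
    IsUnit (1 + M) := by
  rw [Matrix.isUnit_iff_isUnit_det, PowerSeries.isUnit_iff_constantCoeff, RingHom.map_det]
  have h1 : (constantCoeff (R := R)).mapMatrix (1 + M) = 1 := by
    rw [map_add, map_one]
    have h2 : (constantCoeff (R := R)).mapMatrix M = 0 := by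
      ext a b
      simp [h]
    rw [h2, add_zero]
  rw [h1, Matrix.det_one]
  exact isUnit_one

theorem eq_zero_of_fix (N : Matrix V V R⟦X⟧) (h : ∀ a b, constantCoeff (N a b) = 0)
    (v : V → R⟦X⟧) (hv : ∀ b, v b = ∑ a, v a * N a b) : v = 0 := by
  have h1 : IsUnit (1 + (-N)) := isUnit_one_add (-N) (by intro a b; simp [h])
  obtain ⟨P, hP⟩ := h1.exists_right_inv
  have h2 : Matrix.vecMul v (1 + (-N)) = 0 := by
    rw [Matrix.vecMul_add, Matrix.vecMul_one, Matrix.vecMul_neg]
    ext1 b
    have h3 : Matrix.vecMul v N b = v b := by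
      rw [hv b]
      rfl
    rw [Pi.add_apply, Pi.neg_apply, h3, add_neg_cancel]
    rfl
  have h4 : Matrix.vecMul (Matrix.vecMul v (1 + (-N))) P = v := by
    rw [Matrix.vecMul_vecMul, hP, Matrix.vecMul_one]
  rw [← h4, h2, Matrix.zero_vecMul]

end Pool.Agent.RTO
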