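import Pool.Agent.RTO.NumV
import Pool.Agent.RTO.CstEq
import Pool.Agent.RTO.MainOne
import Pool.Agent.RTO.Bound

/-!
# `value` computes the minimum length of a round trip

With `G = grF A E n hn` (`n` large), `(gr A E).costs s t = G.costs s t` (`isWalk_map`, `cost_map`,
`grF_map`), `Cst A E s t = (gr A E).costs s t`. Take the system of `main_one`; `numV_eq`:
`numV ≡ ∑ k ≤ K, v_k * 2 ^ (B * k)` modulo `2 ^ (B * (K + 1))`, `v_k = coeff k (V₁ s t)`.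
If `c ≤ K` is the minimum: `v_k = 0` for `k < c`, `0 < v_c ≤ 2 ^ (c * (M + 1)) < 2 ^ B`
(`coeff_C_le`, `M = A.length + 2 * E.length`, `hB`). For `k < c`: `numV % 2 ^ (B * (k + 1)) = 0`;
for `k = c`: `numV % 2 ^ (B * (c + 1)) = v_c * 2 ^ (B * c) ≠ 0`. If the minimum is `> K` or there is
none: `numV ≡ 0` modulo `2 ^ (B * (K + 1))`, so all remainders are 0 and `value = none`.
-/

namespace Pool.Agent.RTO

private theorem value_ordN_some (p : Par) (v c : ℕ) (hcK : c ≤ p.K)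
    (h0 : ∀ k < c, 2 ^ (p.B * (k + 1)) ∣ v) (h1 : ¬ 2 ^ (p.B * (c + 1)) ∣ v) :
    ordN p v = some c := by
  unfold ordN
  rw [List.head?_filter, List.find?_range_eq_some]
  refine ⟨?_, ?_, ?_⟩
  · simp only [bne_iff_ne, ne_eq]
    intro h
    exact h1 (Nat.dvd_of_mod_eq_zero h)
  · simp
    omega
  · intro j hj
    simp only [Bool.not_eq_true', bne_eq_false_iff_eq]
    exact Nat.mod_eq_zero_of_dvd (h0 j hj)

private theorem value_ordN_none (p : Par) (v : ℕ)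
    (h0 : ∀ k ≤ p.K, 2 ^ (p.B * (k + 1)) ∣ v) : ordN p v = none := by
  unfold ordN
  rw [List.head?_eq_none_iff, List.filter_eq_nil_iff]
  intro k hk
  simp only [List.mem_range] at hk
  simp only [bne_iff_ne, ne_eq, not_not]
  exact Nat.mod_eq_zero_of_dvd (h0 k (by omega))

private theorem value_int (p : Par) (v : ℕ) (f : PowerSeries ℤ)
    (h : ((v : ℕ) : ZMod (2 ^ (p.B * (p.K + 1)))) = psiFun p.B p.K f) :
    ((2 ^ (p.B * (p.K + 1)) : ℕ) : ℤ) ∣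
      (v : ℤ) - ∑ k ∈ Finset.range (p.K + 1), PowerSeries.coeff k f * 2 ^ (p.B * k) := by
  rw [← ZMod.intCast_zmod_eq_zero_iff_dvd]
  push_cast
  rw [h]
  unfold psiFun
  simp

private theorem value_dvd (p : Par) (v : ℕ) (f : PowerSeries ℤ) (c : ℕ)
    (h : ((v : ℕ) : ZMod (2 ^ (p.B * (p.K + 1)))) = psiFun p.B p.K f)
    (h0 : ∀ k < c, PowerSeries.coeff k f = 0) (k : ℕ) (hk : k < c) (hkK : k ≤ p.K) :
    2 ^ (p.B * (k + 1)) ∣ v := by
  have h1 := value_int p v f h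
  have h2 : ((2 ^ (p.B * (k + 1)) : ℕ) : ℤ) ∣ ((2 ^ (p.B * (p.K + 1)) : ℕ) : ℤ) := by
    exact_mod_cast pow_dvd_pow 2 (Nat.mul_le_mul_left _ (by omega))
  have h3 : ((2 ^ (p.B * (k + 1)) : ℕ) : ℤ) ∣
      ∑ k ∈ Finset.range (p.K + 1), PowerSeries.coeff k f * 2 ^ (p.B * k) := by
    refine Finset.dvd_sum fun i _ => ?_
    rcases lt_or_ge i c with hi | hi
    · rw [h0 i hi]; simp
    · refine Dvd.dvd.mul_left ?_ _
      push_cast
      exact pow_dvd_pow 2 (Nat.mul_le_mul_left _ (by omega))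
  have h4 : ((2 ^ (p.B * (k + 1)) : ℕ) : ℤ) ∣ (v : ℤ) := by
    have := dvd_add (h2.trans h1) h3
    simpa using this
  exact_mod_cast h4

private theorem value_ndvd (p : Par) (v : ℕ) (f : PowerSeries ℤ) (c : ℕ)
    (h : ((v : ℕ) : ZMod (2 ^ (p.B * (p.K + 1)))) = psiFun p.B p.K f)
    (h0 : ∀ k < c, PowerSeries.coeff k f = 0) (hcK : c ≤ p.K)
    (hpos : 0 < PowerSeries.coeff c f) (hlt : PowerSeries.coeff c f < 2 ^ p.B) :
    ¬ 2 ^ (p.B * (c + 1)) ∣ v := by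
  intro hd
  have h1 := value_int p v f h
  have h2 : ((2 ^ (p.B * (c + 1)) : ℕ) : ℤ) ∣ ((2 ^ (p.B * (p.K + 1)) : ℕ) : ℤ) := by
    exact_mod_cast pow_dvd_pow 2 (Nat.mul_le_mul_left _ (by omega))
  have hd' : ((2 ^ (p.B * (c + 1)) : ℕ) : ℤ) ∣ (v : ℤ) := by exact_mod_cast hd
  have h3 : ((2 ^ (p.B * (c + 1)) : ℕ) : ℤ) ∣
      ∑ k ∈ Finset.range (p.K + 1), PowerSeries.coeff k f * 2 ^ (p.B * k) := by
    have := dvd_sub hd' (h2.trans h1)
    simpa using this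
  have h4 : ((2 ^ (p.B * (c + 1)) : ℕ) : ℤ) ∣
      ∑ k ∈ (Finset.range (p.K + 1)).erase c, PowerSeries.coeff k f * 2 ^ (p.B * k) := by
    refine Finset.dvd_sum fun i hi => ?_
    rw [Finset.mem_erase] at hi
    rcases lt_or_ge i c with hic | hic
    · rw [h0 i hic]; simp
    · refine Dvd.dvd.mul_left ?_ _
      push_cast
      exact pow_dvd_pow 2 (Nat.mul_le_mul_left _ (by omega))
  rw [← Finset.add_sum_erase _ _ (Finset.mem_range.2 (Nat.lt_succ_of_le hcK))] at h3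
  have h5 : ((2 ^ (p.B * (c + 1)) : ℕ) : ℤ) ∣ PowerSeries.coeff c f * 2 ^ (p.B * c) :=
    (dvd_add_left h4).1 h3
  have h6 : ((2 ^ (p.B * (c + 1)) : ℕ) : ℤ) = 2 ^ p.B * 2 ^ (p.B * c) := by
    push_cast
    rw [← pow_add]
    congr 1
    ring
  rw [h6] at h5
  have h7 : (2 : ℤ) ^ p.B ∣ PowerSeries.coeff c f :=
    Int.dvd_of_mul_dvd_mul_right (by positivity) h5
  have h8 := Int.le_of_dvd hpos h7
  omega

private theorem value_costs (A E : List Arc) (n : ℕ) (hn : ∀ x ∈ A ++ E, x.1 < n ∧ x.2.1 < n)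
    (s t : Fin n) : Cst A E s t = (grF A E n hn).costs s t := by
  rw [cst_eq, ← grF_map A E n hn]
  ext k
  simp only [MGr.costs, MGr.Valid, Set.mem_ofPred_eq, cost_map]
  constructor
  · rintro ⟨P, Q, ⟨h1, h2, h3⟩, h4⟩
    exact ⟨P, Q, ⟨(isWalk_map Fin.val Fin.val_injective).1 h1,
      (isWalk_map Fin.val Fin.val_injective).1 h2, h3⟩, h4⟩
  · rintro ⟨P, Q, ⟨h1, h2, h3⟩, h4⟩
    exact ⟨P, Q, ⟨(isWalk_map Fin.val Fin.val_injective).2 h1,
      (isWalk_map Fin.val Fin.val_injective).2 h2, h3⟩, h4⟩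

private theorem value_exists_n (A E : List Arc) (s t : ℕ) :
    ∃ n, s < n ∧ t < n ∧ ∀ x ∈ A ++ E, x.1 < n ∧ x.2.1 < n := by
  refine ⟨s + t + ((A ++ E).map fun x => x.1 + x.2.1).sum + 1, by omega, by omega, ?_⟩
  intro x hx
  have : x.1 + x.2.1 ≤ ((A ++ E).map fun x => x.1 + x.2.1).sum :=
    List.single_le_sum (fun _ _ => Nat.zero_le _) _ (List.mem_map_of_mem hx)
  omega

private theorem value_pos (A E : List Arc) (n : ℕ) (hn : ∀ x ∈ A ++ E, x.1 < n ∧ x.2.1 < n)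
    (hpos : ∀ x ∈ A ++ E, 0 < x.2.2) : (grF A E n hn).Pos :=
  ⟨fun _ => hpos _ (List.mem_append_left _ (List.get_mem _ _)),
    fun _ => hpos _ (List.mem_append_right _ (List.get_mem _ _))⟩

theorem value_some (p : Par) (A E : List Arc) (s t : ℕ) (hst : s ≠ t)
    (hpos : ∀ x ∈ A ++ E, 0 < x.2.2) (hL : ∀ x ∈ A ++ E, x.2.2 ≤ p.L)
    (hB : p.K * (A.length + 2 * E.length + 1) + 1 ≤ p.B) (c : ℕ)
    (hc : IsLeast (Cst A E s t) c) (hcK : c ≤ p.K) : value p A E s t = some c := by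
  obtain ⟨n, hs, ht, hn⟩ := value_exists_n A E s t
  have hst' : (⟨s, hs⟩ : Fin n) ≠ ⟨t, ht⟩ := fun h => hst (congrArg Fin.val h)
  have hG := value_pos A E n hn hpos
  obtain ⟨D, V₁, ξ, hS, h1, h2⟩ := main_one hG hst'
  have hnum := numV_eq p A E n hn hpos hL ⟨s, hs⟩ ⟨t, ht⟩ hS
  have hC := value_costs A E n hn ⟨s, hs⟩ ⟨t, ht⟩
  have hc' : IsLeast ((grF A E n hn).costs ⟨s, hs⟩ ⟨t, ht⟩) c := by
    rw [← hC]; exact hc
  have h0 : ∀ k < c, PowerSeries.coeff k (V₁ ⟨s, hs⟩ ⟨t, ht⟩) = 0 :=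
    h1 c fun k hk => hc'.2 hk
  obtain ⟨h3, h4⟩ := h2 c hc'
  have h5 := coeff_C_le hG hS ⟨s, hs⟩ ⟨t, ht⟩ c
  have h6 : Fintype.card (Dart (Fin A.length) (Fin E.length)) = A.length + 2 * E.length := by
    simp [Dart]
    ring
  rw [h6] at h5
  have h7 : (2 : ℤ) ^ (c * (A.length + 2 * E.length + 1)) < 2 ^ p.B := by
    refine pow_lt_pow_right₀ (by norm_num) ?_
    have := Nat.mul_le_mul_right (A.length + 2 * E.length + 1) hcK
    omega
  unfold value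
  refine value_ordN_some p _ c hcK (fun k hk => ?_) ?_
  · exact value_dvd p _ _ c hnum h0 k hk (by omega)
  · exact value_ndvd p _ _ c hnum h0 hcK h3 (by omega)

theorem value_none (p : Par) (A E : List Arc) (s t : ℕ) (hst : s ≠ t)
    (hpos : ∀ x ∈ A ++ E, 0 < x.2.2) (hL : ∀ x ∈ A ++ E, x.2.2 ≤ p.L)
    (hc : ∀ k ∈ Cst A E s t, p.K < k) : value p A E s t = none := by
  obtain ⟨n, hs, ht, hn⟩ := value_exists_n A E s t
  have hst' : (⟨s, hs⟩ : Fin n) ≠ ⟨t, ht⟩ := fun h => hst (congrArg Fin.val h)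
  have hG := value_pos A E n hn hpos
  obtain ⟨D, V₁, ξ, hS, h1, h2⟩ := main_one hG hst'
  have hnum := numV_eq p A E n hn hpos hL ⟨s, hs⟩ ⟨t, ht⟩ hS
  have hC := value_costs A E n hn ⟨s, hs⟩ ⟨t, ht⟩
  have h0 : ∀ k < p.K + 1, PowerSeries.coeff k (V₁ ⟨s, hs⟩ ⟨t, ht⟩) = 0 := by
    refine h1 (p.K + 1) fun k hk => ?_
    rw [← hC] at hk
    exact hc k hk
  unfold value
  refine value_ordN_none p _ fun k hk => ?_
  exact value_dvd p _ _ (p.K + 1) hnum h0 k (by omega) hk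

end Pool.Agent.RTO
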